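import Pool.Agent.N980.CB.Frq
import Pool.Agent.N980.NU.Kp3
import Pool.Agent.H459R3.NS.Main

/-!
Fields carried by the chain, and the operator.
-/

open MeasureTheory Set Filter Topology
open scoped ContDiff

set_option linter.unusedVariables false

namespace Pool.Agent.N980.CB

open Pool.Agent.N980.NU
open Pool.Agent.H356R3.NS (K C3 E3 R3 ex SN Sym RD TT SF SFam Fam cf' at' nk pw fj dS Bf dt)

variable {R : ℕ}

theorem sq2 : Real.sqrt 2 * Real.sqrt 2 = 2 := Real.mul_self_sqrt (by norm_num)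

theorem sqrt2_pos : 0 < Real.sqrt 2 := Real.sqrt_pos.2 (by norm_num)

/-- The coefficients of a field carried by the chain. -/
noncomputable def chf (R : ℕ) (a : ℕ → ℝ) (k : K) : C3 :=
  ![0, 0, ((onl R (fun n => a n / Real.sqrt 2) k : ℝ) : ℂ)]

/-- A field carried by the chain. -/
noncomputable def CF (R : ℕ) (a : ℕ → ℝ) (x : V) : V := fun i => (fs (fun k => chf R a k i) x).re

theorem Rap.div {a : ℕ → ℝ} (h : Rap R a) (c : ℝ) : Rap R fun n => a n / c := by
  intro m
  obtain ⟨C, hC⟩ := h m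
  refine ⟨C / |c|, fun n => ?_⟩
  rw [abs_div, div_mul_eq_mul_div]
  exact div_le_div_of_nonneg_right (hC n) (abs_nonneg c)

theorem Rap.mul {a : ℕ → ℝ} (h : Rap R a) {b : ℕ → ℝ} {C : ℝ} {r : ℕ} (hb : ∀ n, |b n| ≤ C * ((R : ℝ) ^ n) ^ r) :
    Rap R fun n => b n * a n := by
  intro m
  obtain ⟨D, hD⟩ := h (m + r)
  have hC : 0 ≤ C := by
    have := (abs_nonneg _).trans (hb 0)
    simpa using this
  refine ⟨C * D, fun n => ?_⟩
  rw [abs_mul]
  calc |b n| * |a n| * ((R : ℝ) ^ n) ^ m ≤ (C * ((R : ℝ) ^ n) ^ r) * |a n| * ((R : ℝ) ^ n) ^ m := by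
        gcongr; exact hb n
    _ = C * (|a n| * ((R : ℝ) ^ n) ^ (m + r)) := by rw [pow_add]; ring
    _ ≤ C * D := by gcongr; exact hD n

theorem Rap.add {a b : ℕ → ℝ} (ha : Rap R a) (hb : Rap R b) : Rap R fun n => a n + b n := by
  intro m
  obtain ⟨C, hC⟩ := ha m
  obtain ⟨D, hD⟩ := hb m
  refine ⟨C + D, fun n => ?_⟩
  calc |a n + b n| * ((R : ℝ) ^ n) ^ m ≤ (|a n| + |b n|) * ((R : ℝ) ^ n) ^ m := by
        gcongr; exact abs_add_le _ _
    _ = |a n| * ((R : ℝ) ^ n) ^ m + |b n| * ((R : ℝ) ^ n) ^ m := by ring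
    _ ≤ C + D := add_le_add (hC n) (hD n)

theorem Rap.neg {a : ℕ → ℝ} (ha : Rap R a) : Rap R fun n => -a n := by
  intro m
  obtain ⟨C, hC⟩ := ha m
  exact ⟨C, fun n => by rw [abs_neg]; exact hC n⟩

theorem Rap.sub {a b : ℕ → ℝ} (ha : Rap R a) (hb : Rap R b) : Rap R fun n => a n - b n := by
  have := ha.add hb.neg
  exact this

theorem Rap.shift {a : ℕ → ℝ} (hR : 2 ≤ R) (ha : Rap R a) : Rap R fun n => a (n + 1) := by
  intro m
  obtain ⟨C, hC⟩ := ha m
  refine ⟨C, fun n => le_trans ?_ (hC (n + 1))⟩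
  have h1 : (R : ℝ) ^ n ≤ (R : ℝ) ^ (n + 1) :=
    pow_le_pow_right₀ (by exact_mod_cast (by omega : 1 ≤ R)) (by omega)
  have h2 := R_pos hR n
  gcongr

theorem RD_zero : RD (cst fun _ => 0) := by
  intro m
  exact ⟨fun _ => 0, summable_zero, fun k t => by simp [cst]⟩

theorem RD_chf (hR : 2 ≤ R) {a : ℕ → ℝ} (h : Rap R a) (i : Fin 3) : RD (cst fun k => chf R a k i) := by
  fin_cases i
  · exact RD_zero
  · exact RD_zero
  · exact RD_onl hR (h.div _)

theorem SN_chf (hR : 2 ≤ R) {a : ℕ → ℝ} (h : Rap R a) : SN (chf R a) :=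
  SN_of_comp fun i => RD_summ (RD_chf hR h i)

theorem Sym_chf (hR : 2 ≤ R) (a : ℕ → ℝ) : Sym (chf R a) := by
  intro k i
  fin_cases i
  · simp [chf]
  · simp [chf]
  · show ((onl R (fun n => a n / Real.sqrt 2) (-k) : ℝ) : ℂ) = star ((onl R (fun n => a n / Real.sqrt 2) k : ℝ) : ℂ)
    rw [onl_neg hR, Complex.star_def, Complex.conj_ofReal]

theorem dt_chf (hR : 2 ≤ R) (a : ℕ → ℝ) (k : K) : dt k (chf R a k) = 0 := by
  unfold H356R3.NS.dt
  rw [Fin.sum_univ_three]
  have e0 : chf R a k 0 = 0 := rfl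
  have e1 : chf R a k 1 = 0 := rfl
  rw [e0, e1, mul_zero, mul_zero, zero_add, zero_add]
  by_cases hk : lv R k
  · obtain ⟨n, hn | hn⟩ := hk
    · rw [hn]
      simp [frq]
    · rw [hn]
      simp [frq]
  · have : chf R a k 2 = ((onl R (fun n => a n / Real.sqrt 2) k : ℝ) : ℂ) := rfl
    rw [this, onl_not _ hk]
    simp

theorem SPV_fs {a : K → C3} (h : ∀ i, RD (cst fun k => a k i)) : SPV fun x i => (fs (fun k => a k i) x).re := by
  refine ⟨contDiff_pi.2 fun i => fs_smooth (h i), fun x j => ?_⟩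
  funext i
  simp only [fs_per]

theorem dv_fs {a : K → C3} (h : ∀ i, RD (cst fun k => a k i)) (hd : ∀ k, dt k (a k) = 0) (x : V) :
    dv (fun x i => (fs (fun k => a k i) x).re) x = 0 := by
  unfold dv
  simp only [pd_fs (h _)]
  rw [← Complex.re_sum, ← fs_finsum Finset.univ (a := fun j k => fj k j * a k j)
    (fun j _ => RD_summ (RD_fj (h j) j))]
  have : (fun k => ∑ j, fj k j * a k j) = fun _ => 0 := by
    funext k
    have h1 := hd k
    unfold H356R3.NS.dt at h1
    unfold fj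
    calc ∑ j, 2 * Real.pi * Complex.I * (k j : ℂ) * a k j
        = 2 * Real.pi * Complex.I * ∑ j, (k j : ℂ) * a k j := by
          rw [Finset.mul_sum]; exact Finset.sum_congr rfl fun j _ => by ring
      _ = 0 := by rw [h1, mul_zero]
  rw [this]
  simp [fs]

theorem SPV_CF (hR : 2 ≤ R) {a : ℕ → ℝ} (h : Rap R a) : SPV (CF R a) := SPV_fs (RD_chf hR h)

theorem dv_CF (hR : 2 ≤ R) {a : ℕ → ℝ} (h : Rap R a) (x : V) : dv (CF R a) x = 0 :=
  dv_fs (RD_chf hR h) (dt_chf hR a) x

theorem ex_frq (n : ℕ) (x : V) :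
    ex (frq R n) x = Complex.exp (((2 * Real.pi * ((R : ℝ) ^ n * x 0) : ℝ) : ℂ) * Complex.I) := by
  unfold ex
  congr 1
  rw [Fin.sum_univ_three]
  simp only [frq, Matrix.cons_val_zero, Matrix.cons_val_one, Matrix.cons_val]
  push_cast
  ring

theorem ex_frq_re (n : ℕ) (x : V) : (ex (frq R n) x).re = Real.cos (2 * Real.pi * ((R : ℝ) ^ n * x 0)) := by
  rw [ex_frq, Complex.exp_ofReal_mul_I_re]

theorem ex_neg_frq_re (n : ℕ) (x : V) : (ex (-frq R n) x).re = Real.cos (2 * Real.pi * ((R : ℝ) ^ n * x 0)) := by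
  rw [H356R3.NS.ex_neg, Complex.star_def, Complex.conj_re, ex_frq_re]

theorem cc_pow (n : ℕ) (x : V) :
    cc (R ^ n) x = ![0, 0, Real.sqrt 2 * Real.cos (2 * Real.pi * ((R : ℝ) ^ n * x 0))] := by
  unfold cc
  push_cast
  rfl

/-- The field as a series. -/
theorem hasSum_CF (hR : 2 ≤ R) {a : ℕ → ℝ} (h : Rap R a) (x : V) :
    HasSum (fun n => a n • cc (R ^ n) x) (CF R a x) := by
  refine Pi.hasSum.2 fun i => ?_
  have hz : ∀ i : Fin 3, i ≠ 2 → HasSum (fun n => (a n • cc (R ^ n) x) i) (CF R a x i) := by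
    intro i hi
    have e1 : (fun n => (a n • cc (R ^ n) x) i) = fun _ => 0 := by
      funext n
      rw [Pi.smul_apply, cc_pow]
      fin_cases i <;> first | exact absurd rfl hi | simp
    have e2 : CF R a x i = 0 := by
      unfold CF fs
      have : ∀ k, chf R a k i = 0 := by
        intro k
        fin_cases i <;> first | exact absurd rfl hi | rfl
      simp [this]
    rw [e1, e2]
    exact hasSum_zero
  by_cases hi : i = 2
  · subst hi
    have hsum : Summable fun k => chf R a k 2 * ex k x := by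
      refine Summable.of_norm ?_
      refine (RD_summ (RD_chf hR h 2)).congr fun k => ?_
      rw [norm_mul, H356R3.NS.norm_ex, mul_one]
    have h1 := hasSum_lv hR hsum fun k hk => by
      show ((onl R (fun n => a n / Real.sqrt 2) k : ℝ) : ℂ) * ex k x = 0
      rw [onl_not _ hk]; simp
    have h2 := Complex.hasSum_re h1
    refine h2.congr_fun ?_
    intro n
    show ((a n • cc (R ^ n) x) 2) = (((onl R (fun n => a n / Real.sqrt 2) (frq R n) : ℝ) : ℂ) * ex (frq R n) x
      + ((onl R (fun n => a n / Real.sqrt 2) (-frq R n) : ℝ) : ℂ) * ex (-frq R n) x).re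
    rw [onl_neg hR, onl_frq hR, Complex.add_re, Complex.re_ofReal_mul, Complex.re_ofReal_mul, ex_frq_re,
      ex_neg_frq_re, Pi.smul_apply, cc_pow]
    simp only [Matrix.cons_val, smul_eq_mul]
    have h3 := sq2
    have h4 := sqrt2_pos
    field_simp
    rw [Real.sq_sqrt (by norm_num)]
    ring
  · exact hz i hi

theorem cc_cont (N : ℕ) : Continuous (cc N) := by
  unfold cc
  refine continuous_pi fun i => ?_
  fin_cases i
  · exact continuous_const
  · exact continuous_const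
  · show Continuous fun x : V => Real.sqrt 2 * Real.cos (2 * Real.pi * (N * x 0))
    fun_prop

/-- The coefficients on the chain. -/
theorem cx_eq {v : V → V} (hv : Continuous v) (n : ℕ) : cx (R ^ n) v = Real.sqrt 2 * (fco v (frq R n) 2).re := by
  unfold cx ip
  rw [fco_eq_ex]
  have hi : Integrable (fun x => ((v x 2 : ℝ) : ℂ) * ex (-frq R n) x) (volume.restrict cube) :=
    int_on_cube ((Complex.continuous_ofReal.comp ((continuous_apply 2).comp hv)).mul (H356R3.NS.ex_cont _))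
  have h1 := integral_re hi
  have h2 : (∫ x in cube, ((v x 2 : ℝ) : ℂ) * ex (-frq R n) x).re
      = ∫ x in cube, (((v x 2 : ℝ) : ℂ) * ex (-frq R n) x).re := h1.symm
  rw [h2, ← integral_const_mul]
  congr 1
  funext x
  rw [Complex.re_ofReal_mul, ex_neg_frq_re, Fin.sum_univ_three, cc_pow]
  simp only [Matrix.cons_val_zero, Matrix.cons_val_one, Matrix.cons_val, mul_zero, zero_add]
  ring

theorem cx_abs {v : V → V} (hv : Continuous v) (n : ℕ) : |cx (R ^ n) v| ≤ Real.sqrt 2 * ‖fco v (frq R n) 2‖ := by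
  rw [cx_eq hv, abs_mul, abs_of_pos sqrt2_pos]
  gcongr
  exact Complex.abs_re_le_norm _

/-- Rapid decay of the coefficients of a smooth field. -/
theorem Rap_cx (hR : 2 ≤ R) {v : V → V} (hv : SPV v) : Rap R fun n => cx (R ^ n) v := by
  intro m
  obtain ⟨b, hb, h⟩ := hv.rd 2 m
  have hb0 : ∀ k, 0 ≤ b k := fun k => le_trans (by have := H356R3.NS.pw_pos k; positivity) (h k 0)
  refine ⟨Real.sqrt 2 * ∑' k, b k, fun n => ?_⟩
  have h1 := h (frq R n) 0
  have h2 : b (frq R n) ≤ ∑' k, b k := hb.le_tsum _ fun k _ => hb0 k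
  have h3 : ((R : ℝ) ^ n) ^ m ≤ pw (frq R n) ^ m := by
    rw [pw_frq]
    have := R_pos hR n
    gcongr
    linarith
  have h4 := sqrt2_pos
  calc |cx (R ^ n) v| * ((R : ℝ) ^ n) ^ m
      ≤ (Real.sqrt 2 * ‖fco v (frq R n) 2‖) * pw (frq R n) ^ m := by
        gcongr
        exact cx_abs hv.cont n
    _ = Real.sqrt 2 * (pw (frq R n) ^ m * ‖fco v (frq R n) 2‖) := by ring
    _ ≤ Real.sqrt 2 * ∑' k, b k := by gcongr; exact h1.trans h2

/-- The inner product with a field carried by the chain. -/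
theorem ip_CF (hR : 2 ≤ R) {a : ℕ → ℝ} (h : Rap R a) {w : V → V} (hw : Continuous w) :
    HasSum (fun n => a n * cx (R ^ n) w) (ip (CF R a) w) := by
  have h1 : ip (CF R a) w = (∑' k, ∑ i, chf R a k i * star (fco w k i)).re := ip_fs (SN_chf hR h) (Sym_chf hR a) hw
  rw [h1]
  obtain ⟨B, hB⟩ : ∃ B, ∀ k, ‖fco w k 2‖ ≤ B := by
    refine ⟨∫ x in cube, |w x 2|, fun k => ?_⟩
    rw [fco_eq_ex]
    refine (norm_integral_le_integral_norm _).trans (le_of_eq ?_)
    congr 1
    funext x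
    rw [norm_mul, H356R3.NS.norm_ex, mul_one, Complex.norm_real, Real.norm_eq_abs]
  have hsum : Summable fun k => ∑ i, chf R a k i * star (fco w k i) := by
    have e : (fun k => ∑ i, chf R a k i * star (fco w k i)) = fun k => chf R a k 2 * star (fco w k 2) := by
      funext k
      rw [Fin.sum_univ_three]
      have e0 : chf R a k 0 = 0 := rfl
      have e1 : chf R a k 1 = 0 := rfl
      rw [e0, e1, zero_mul, zero_mul, zero_add, zero_add]
    rw [e]
    refine Summable.of_norm_bounded ((RD_summ (RD_chf hR h 2)).mul_right B) fun k => ?_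
    rw [norm_mul, norm_star]
    gcongr
    exact hB k
  have h2 := hasSum_lv hR hsum fun k hk => by
    rw [Fin.sum_univ_three]
    have e0 : chf R a k 0 = 0 := rfl
    have e1 : chf R a k 1 = 0 := rfl
    have e2 : chf R a k 2 = ((onl R (fun n => a n / Real.sqrt 2) k : ℝ) : ℂ) := rfl
    rw [e0, e1, e2, onl_not _ hk]
    simp
  have h3 := Complex.hasSum_re h2
  refine h3.congr_fun ?_
  intro n
  rw [Fin.sum_univ_three, Fin.sum_univ_three]
  have e0 : ∀ k, chf R a k 0 = 0 := fun _ => rfl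
  have e1 : ∀ k, chf R a k 1 = 0 := fun _ => rfl
  have e2 : ∀ k, chf R a k 2 = ((onl R (fun n => a n / Real.sqrt 2) k : ℝ) : ℂ) := fun _ => rfl
  rw [e0, e1, e2, e0, e1, e2, onl_neg hR, onl_frq hR, fco_sym w (frq R n) 2, star_star, cx_eq hw]
  simp only [zero_mul, zero_add]
  rw [Complex.add_re, Complex.re_ofReal_mul, Complex.re_ofReal_mul, Complex.star_def, Complex.conj_re]
  have h4 := sqrt2_pos
  field_simp
  rw [Real.sq_sqrt (by norm_num)]
  ring

end Pool.Agent.N980.CB
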