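import Pool.Agent.N980.CB.Red

/-!
The data.
-/

open MeasureTheory Set Filter Topology
open scoped ContDiff

set_option linter.unusedVariables false

namespace Pool.Agent.N980.CB

open Pool.Agent.N980.NU

variable {R : ℕ} {G σ ν : ℝ}

/-! ### closeness of the coefficients -/

theorem pd_sub' {f g : V → ℝ} (hf : H459R3.NS.SP f) (hg : H459R3.NS.SP g) (j : Fin 3) (x : V) :
    H459R3.NS.pd j (fun y => f y - g y) x = H459R3.NS.pd j f x - H459R3.NS.pd j g x := by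
  unfold H459R3.NS.pd
  have h : HasFDerivAt (fun y => f y - g y) _ x := (hf.diff x).hasFDerivAt.sub (hg.diff x).hasFDerivAt
  rw [h.fderiv]
  simp

theorem pd_add' {f g : V → ℝ} (hf : H459R3.NS.SP f) (hg : H459R3.NS.SP g) (j : Fin 3) (x : V) :
    H459R3.NS.pd j (fun y => f y + g y) x = H459R3.NS.pd j f x + H459R3.NS.pd j g x := by
  unfold H459R3.NS.pd
  have h : HasFDerivAt (fun y => f y + g y) _ x := (hf.diff x).hasFDerivAt.add (hg.diff x).hasFDerivAt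
  rw [h.fderiv]
  simp

theorem dv_add {v w : V → V} (hv : SPV v) (hw : SPV w) (x : V) : dv (v + w) x = dv v x + dv w x := by
  unfold dv
  rw [← Finset.sum_add_distrib]
  exact Finset.sum_congr rfl fun i _ => pd_add' (hv.sp i) (hw.sp i) i x

theorem cx_grad {v : V → V} (hv : SPV v) (N : ℕ) :
    (2 * Real.pi * N) ^ 2 * cx N v = ∫ x in H459R3.NS.cube, H459R3.NS.pd 0 (co N) x * H459R3.NS.pd 0 (fun y => v y 2) x := by
  have hc := sp_co N
  have h1 := H459R3.NS.int_lap_mul hc (hv.sp 2)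
  have e1 : ∫ x in H459R3.NS.cube, H459R3.NS.lap (co N) x * v x 2 = -((2 * Real.pi * N) ^ 2 * cx N v) := by
    rw [cx_co, ← integral_const_mul, ← integral_neg]
    congr 1
    funext x
    rw [lap_co]
    ring
  have e2 : ∀ j : Fin 3, j ≠ 0 → ∫ x in H459R3.NS.cube, H459R3.NS.pd j (co N) x * H459R3.NS.pd j (fun y => v y 2) x = 0 := by
    intro j hj
    have : ∀ x, H459R3.NS.pd j (co N) x * H459R3.NS.pd j (fun y => v y 2) x = 0 := fun x => by
      rw [pd_co, if_neg hj, zero_mul]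
    simp_rw [this]
    simp
  rw [e1, Fin.sum_univ_three, e2 1 (by decide), e2 2 (by decide)] at h1
  linarith

theorem cx_close {v w : V → V} (hv : SPV v) (hw : SPV w) {r : ℝ} (N : ℕ) (hN : 0 < N)
    (h : ∀ x, |pd 0 (fun y => v y 2) x - pd 0 (fun y => w y 2) x| ≤ r) : |cx N v - cx N w| ≤ r / N := by
  have hN' : (0 : ℝ) < N := by exact_mod_cast hN
  have hpi := Real.pi_gt_three
  have hc := sp_co N
  have hr : 0 ≤ r := (abs_nonneg _).trans (h 0)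
  have e2 : Real.sqrt 2 ≤ 2 := by
    rw [Real.sqrt_le_iff]; norm_num
  have i1 : IntegrableOn (fun x => H459R3.NS.pd 0 (co N) x * H459R3.NS.pd 0 (fun y => v y 2) x) H459R3.NS.cube :=
    ((hc.pd 0).mul ((hv.sp 2).pd 0)).int
  have i2 : IntegrableOn (fun x => H459R3.NS.pd 0 (co N) x * H459R3.NS.pd 0 (fun y => w y 2) x) H459R3.NS.cube :=
    ((hc.pd 0).mul ((hw.sp 2).pd 0)).int
  have h1 : (2 * Real.pi * N) ^ 2 * (cx N v - cx N w) = ∫ x in H459R3.NS.cube,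
      H459R3.NS.pd 0 (co N) x * (H459R3.NS.pd 0 (fun y => v y 2) x - H459R3.NS.pd 0 (fun y => w y 2) x) := by
    rw [mul_sub, cx_grad hv, cx_grad hw, ← integral_sub i1 i2]
    congr 1
    funext x
    ring
  have h2 : ‖∫ x in H459R3.NS.cube,
      H459R3.NS.pd 0 (co N) x * (H459R3.NS.pd 0 (fun y => v y 2) x - H459R3.NS.pd 0 (fun y => w y 2) x)‖
      ≤ (2 * Real.pi * N * 2 * r) * volume.real H459R3.NS.cube := by
    refine norm_setIntegral_le_of_norm_le_const ?_ fun x hx => ?_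
    · rw [H459R3.NS.volume_cube]; exact ENNReal.one_lt_top
    · rw [norm_mul, Real.norm_eq_abs, Real.norm_eq_abs]
      refine mul_le_mul ?_ (h x) (abs_nonneg _) (by positivity)
      rw [pd_co, if_pos rfl, abs_mul, abs_neg, abs_of_pos (by positivity : 0 < 2 * Real.pi * (N : ℝ)), abs_mul,
        abs_of_pos sqrt2_pos]
      have e3 := Real.abs_sin_le_one (2 * Real.pi * (N * x 0))
      calc 2 * Real.pi * (N : ℝ) * (Real.sqrt 2 * |Real.sin (2 * Real.pi * (N * x 0))|)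
          ≤ 2 * Real.pi * (N : ℝ) * (2 * 1) := by gcongr
        _ = 2 * Real.pi * N * 2 := by ring
  have h4 : volume.real H459R3.NS.cube = 1 := by
    rw [Measure.real, H459R3.NS.volume_cube]; simp
  rw [h4, mul_one, ← h1, Real.norm_eq_abs, abs_mul, abs_of_pos (by positivity)] at h2
  rw [le_div_iff₀ hN']
  have h5 : (2 * Real.pi * N) * |cx N v - cx N w| ≤ 2 * r := by
    have h6 : (2 * Real.pi * N) * ((2 * Real.pi * N) * |cx N v - cx N w|) ≤ (2 * Real.pi * N) * (2 * r) := by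
      calc (2 * Real.pi * N) * ((2 * Real.pi * N) * |cx N v - cx N w|)
          = (2 * Real.pi * N) ^ 2 * |cx N v - cx N w| := by ring
        _ ≤ 2 * Real.pi * N * 2 * r := h2
        _ = (2 * Real.pi * N) * (2 * r) := by ring
    exact le_of_mul_le_mul_left h6 (by positivity)
  have h7 : 0 ≤ |cx N v - cx N w| * N := by positivity
  nlinarith

theorem energy_bd {v : V → V} (hv : SPV v) {M : ℝ} (h : ∀ x i, |v x i| ≤ M) : energy v ≤ 3 * M ^ 2 := by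
  have hsp := fun i => hv.sp i
  have h2 : ‖∫ x in H459R3.NS.cube, ∑ i, v x i ^ 2‖ ≤ (3 * M ^ 2) * volume.real H459R3.NS.cube := by
    refine norm_setIntegral_le_of_norm_le_const ?_ fun x hx => ?_
    · rw [H459R3.NS.volume_cube]; exact ENNReal.one_lt_top
    · rw [Real.norm_eq_abs, abs_of_nonneg (Finset.sum_nonneg fun i _ => sq_nonneg _)]
      calc ∑ i, v x i ^ 2 ≤ ∑ i : Fin 3, M ^ 2 := Finset.sum_le_sum fun i _ => by
            rw [← sq_abs]; have := h x i; gcongr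
        _ = 3 * M ^ 2 := by simp
  have h4 : volume.real H459R3.NS.cube = 1 := by
    rw [Measure.real, H459R3.NS.volume_cube]; simp
  rw [h4, mul_one] at h2
  exact (le_abs_self _).trans h2

/-- Boundedness. -/
theorem SPV.bdd {v : V → V} (hv : SPV v) : ∃ M, 0 ≤ M ∧ ∀ x i, |v x i| ≤ M := by
  have h1 : ∀ i, ∃ M, ∀ x, |v x i| ≤ M := by
    intro i
    refine ⟨∑' k, ‖fco v k i‖, fun x => ?_⟩
    have h2 := hv.inv x i
    have h3 : ‖((v x i : ℝ) : ℂ)‖ ≤ ∑' k, ‖fco v k i‖ := by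
      rw [h2]
      unfold fs
      refine tsum_of_norm_bounded (RD_summ (hv.rd i)).hasSum fun k => ?_
      rw [norm_mul, H356R3.NS.norm_ex, mul_one]
    rwa [Complex.norm_real, Real.norm_eq_abs] at h3
  choose M hM using h1
  refine ⟨∑ i, |M i|, Finset.sum_nonneg fun i _ => abs_nonneg _, fun x i => ?_⟩
  exact ((hM i x).trans (le_abs_self _)).trans
    (Finset.single_le_sum (f := fun i => |M i|) (fun i _ => abs_nonneg _) (Finset.mem_univ i))

/-! ### the conditions on the first scale -/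

/-- The conditions on the first scale. -/
structure Good (R : ℕ) (Λ z G ℓ β b a T : ℝ) (y : ℕ → ℝ) (n : ℕ) : Prop where
  c1 : ∀ m, n ≤ m → |y m| ≤ z ^ 16 * qq * a / 40
  c2 : ∀ m, n ≤ m → |y m| * (R : ℝ) ^ m ≤ 1 / 2
  c3 : ∀ m, m < n → |y m| ≤ 10000 ^ (n - m) * a / 4
  c4 : 1000 * ℓ * ((R : ℝ) ^ (n + 2)) ^ 2 ≤ gG G Λ n * (a / 2)
  c5 : β * (R : ℝ) ^ (n + 3) ≤ z ^ 40 * (gG G Λ n * (a / 2) ^ 2)
  c6 : b / (R : ℝ) ^ (n + 3) ≤ z ^ 40 * (a / 2)
  c7 : ∀ k ≥ n, 64 * gG G Λ k * b ≤ ℓ * ((R : ℝ) ^ k) ^ 3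
  c8 : 10 / (gG G Λ n * (a / 2)) < T

theorem ev_pow {ρ c : ℝ} (hρ : 1 < ρ) (hc : 0 < c) (C : ℝ) : ∀ᶠ n : ℕ in atTop, C ≤ c * ρ ^ n := by
  have h1 : Tendsto (fun n : ℕ => ρ ^ n) atTop atTop := tendsto_pow_atTop_atTop_of_one_lt hρ
  filter_upwards [h1.eventually (eventually_ge_atTop (C / c))] with n hn
  rw [div_le_iff₀ hc] at hn
  linarith

theorem good_ev (hRC : RC R σ) {ℓ β b a T : ℝ} (hG : 0 < G) (hℓ : 0 < ℓ) (hb : 0 < b) (ha : 0 < a) (hT : 0 < T)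
    {y : ℕ → ℝ} (hy : Rap R y) :
    ∀ᶠ n in atTop, Good R ((R : ℝ) ^ σ) (zz ((R : ℝ) ^ σ)) G ℓ β b a T y n := by
  set Λ := (R : ℝ) ^ σ with hΛd
  set z := zz Λ with hzd
  have hpar : Par Λ z := hRC.par
  have hz := hpar.hz
  have hΛ0 := hpar.hΛ0
  have hqq := qq_pos
  have hR5 := hRC.R5'
  have hR0 : (0 : ℝ) < R := by linarith [show (0 : ℝ) < 10 ^ 5 by norm_num]
  have hR1 : (1 : ℝ) < R := by linarith [show (1 : ℝ) < 10 ^ 5 by norm_num]
  have hRΛ := hRC.RΛ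
  rw [← hΛd] at hRΛ
  obtain ⟨C, hC⟩ := hy 2
  have hC0 : 0 ≤ C := le_trans (by positivity) (hC 0)
  -- elementary form of the conditions
  have f1 := ev_pow (c := z ^ 16 * qq * a / 40) hR1 (by positivity) C
  have f2 := ev_pow (c := 1 / 2) hR1 (by norm_num) C
  have f3 := ev_pow (ρ := 10000) (c := a / 4) (by norm_num) (by positivity) C
  have f4 := ev_pow (ρ := 10 ^ 4) (c := G * (a / 2)) (by norm_num) (by positivity) (1000 * ℓ * (R : ℝ) ^ 4)
  have f5 := ev_pow (ρ := 10 ^ 4) (c := z ^ 40 * (G * (a / 2) ^ 2)) (by norm_num) (by positivity) (β * (R : ℝ) ^ 3)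
  have f6 := ev_pow (c := z ^ 40 * (a / 2)) hR1 (by positivity) b
  have hr3 : 1 < (R : ℝ) ^ 3 / Λ := by
    rw [one_lt_div hΛ0, hΛd, ← Real.rpow_natCast (R : ℝ) 3]
    exact Real.rpow_lt_rpow_of_exponent_lt hR1 (by push_cast; exact hRC.s3)
  have f7 := ev_pow hr3 hℓ (64 * G * b)
  have f8 := ev_pow (ρ := Λ) (c := G * (a / 2)) (by have := hRC.hΛ; linarith [show (1 : ℝ) < 10 ^ 14 by norm_num]) (by positivity) (10 / T + 1)
  obtain ⟨n1, hn1⟩ := f1.exists_forall_of_atTop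
  obtain ⟨n2, hn2⟩ := f2.exists_forall_of_atTop
  obtain ⟨n7, hn7⟩ := f7.exists_forall_of_atTop
  filter_upwards [f3, f4, f5, f6, f8, eventually_ge_atTop n1, eventually_ge_atTop n2, eventually_ge_atTop n7] with
    n g3 g4 g5 g6 g8 k1 k2 k7
  have hpR : ∀ m : ℕ, (0 : ℝ) < (R : ℝ) ^ m := fun m => pow_pos hR0 m
  have hpR1 : ∀ m : ℕ, (1 : ℝ) ≤ (R : ℝ) ^ m := fun m => one_le_pow₀ hR1.le
  refine ⟨?_, ?_, ?_, ?_, ?_, ?_, ?_, ?_⟩
  · intro m hm
    have h1 := hC m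
    have h2 := hn1 m (k1.trans hm)
    have h3 : |y m| * (R : ℝ) ^ m ≤ z ^ 16 * qq * a / 40 * (R : ℝ) ^ m := by
      refine le_trans ?_ h2
      refine le_trans ?_ h1
      have : (R : ℝ) ^ m ≤ ((R : ℝ) ^ m) ^ 2 := by nlinarith [hpR1 m]
      gcongr
    exact le_of_mul_le_mul_right h3 (hpR m)
  · intro m hm
    have h1 := hC m
    have h2 := hn2 m (k2.trans hm)
    have h3 : (|y m| * (R : ℝ) ^ m) * (R : ℝ) ^ m ≤ 1 / 2 * (R : ℝ) ^ m := by
      refine le_trans (le_of_eq ?_) (h1.trans h2)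
      ring
    exact le_of_mul_le_mul_right h3 (hpR m)
  · intro m hm
    have h1 := hC m
    have h2 : (10000 : ℝ) ^ m ≤ ((R : ℝ) ^ m) ^ 2 := by
      have e1 : (10000 : ℝ) ≤ R := by linarith [show (10000 : ℝ) ≤ 10 ^ 5 by norm_num]
      have e2 : (10000 : ℝ) ^ m ≤ (R : ℝ) ^ m := by gcongr
      nlinarith [hpR1 m]
    have h3 : |y m| * 10000 ^ m ≤ (10000 ^ (n - m) * a / 4) * 10000 ^ m := by
      calc |y m| * 10000 ^ m ≤ |y m| * ((R : ℝ) ^ m) ^ 2 := by gcongr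
        _ ≤ C := h1
        _ ≤ a / 4 * 10000 ^ n := g3
        _ = (10000 ^ (n - m) * a / 4) * 10000 ^ m := by
          have : (10000 : ℝ) ^ n = 10000 ^ (n - m) * 10000 ^ m := by
            rw [← pow_add, Nat.sub_add_cancel hm.le]
          rw [this]; ring
    exact le_of_mul_le_mul_right h3 (by positivity)
  · have h1 : (10 ^ 4 : ℝ) ^ n * ((R : ℝ) ^ n) ^ 2 ≤ Λ ^ n := by
      calc (10 ^ 4 : ℝ) ^ n * ((R : ℝ) ^ n) ^ 2 = (10 ^ 4 * (R : ℝ) ^ 2) ^ n := by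
            rw [mul_pow, ← pow_mul, ← pow_mul (R : ℝ) n 2, mul_comm n 2, pow_mul (R : ℝ) 2 n, pow_mul]
        _ ≤ Λ ^ n := by gcongr
    unfold gG
    calc 1000 * ℓ * ((R : ℝ) ^ (n + 2)) ^ 2 = (1000 * ℓ * (R : ℝ) ^ 4) * ((R : ℝ) ^ n) ^ 2 := by
          rw [pow_add, mul_pow]; ring
      _ ≤ (G * (a / 2) * (10 ^ 4) ^ n) * ((R : ℝ) ^ n) ^ 2 := by gcongr
      _ = G * (a / 2) * ((10 ^ 4) ^ n * ((R : ℝ) ^ n) ^ 2) := by ring
      _ ≤ G * (a / 2) * Λ ^ n := by gcongr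
      _ = G * Λ ^ n * (a / 2) := by ring
  · have h1 : (10 ^ 4 : ℝ) ^ n * (R : ℝ) ^ n ≤ Λ ^ n := by
      calc (10 ^ 4 : ℝ) ^ n * (R : ℝ) ^ n = (10 ^ 4 * (R : ℝ)) ^ n := by rw [mul_pow]
        _ ≤ Λ ^ n := by
          have : 10 ^ 4 * (R : ℝ) ≤ Λ := by nlinarith
          gcongr
    unfold gG
    calc β * (R : ℝ) ^ (n + 3) = (β * (R : ℝ) ^ 3) * (R : ℝ) ^ n := by rw [pow_add]; ring
      _ ≤ (z ^ 40 * (G * (a / 2) ^ 2) * (10 ^ 4) ^ n) * (R : ℝ) ^ n := by gcongr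
      _ = z ^ 40 * (G * (a / 2) ^ 2) * ((10 ^ 4) ^ n * (R : ℝ) ^ n) := by ring
      _ ≤ z ^ 40 * (G * (a / 2) ^ 2) * Λ ^ n := by gcongr
      _ = z ^ 40 * (G * Λ ^ n * (a / 2) ^ 2) := by ring
  · rw [div_le_iff₀ (hpR _)]
    refine g6.trans ?_
    have : (R : ℝ) ^ n ≤ (R : ℝ) ^ (n + 3) := pow_le_pow_right₀ hR1.le (by omega)
    gcongr
  · intro k hk
    have h1 := hn7 k (k7.trans hk)
    unfold gG
    have h2 : (64 * G * b) * Λ ^ k ≤ (ℓ * ((R : ℝ) ^ 3 / Λ) ^ k) * Λ ^ k := by gcongr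
    calc 64 * (G * Λ ^ k) * b = (64 * G * b) * Λ ^ k := by ring
      _ ≤ (ℓ * ((R : ℝ) ^ 3 / Λ) ^ k) * Λ ^ k := h2
      _ = ℓ * ((R : ℝ) ^ k) ^ 3 := by
        rw [mul_assoc, ← mul_pow, div_mul_cancel₀ _ hΛ0.ne', ← pow_mul, ← pow_mul, mul_comm 3 k]
  · have h0 : 0 < gG G Λ n * (a / 2) := by unfold gG; positivity
    rw [div_lt_iff₀ h0]
    have h1 : 10 / T + 1 ≤ gG G Λ n * (a / 2) := by
      refine g8.trans (le_of_eq ?_)
      unfold gG; ring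
    calc (10 : ℝ) = T * (10 / T) := by field_simp
      _ < T * (10 / T + 1) := by nlinarith
      _ ≤ T * (gG G Λ n * (a / 2)) := by gcongr

/-- The state of the data. -/
theorem Good.st {Λ z ℓ β b a T r : ℝ} {n : ℕ} {y x0 : ℕ → ℝ} (hpar : Par Λ z) (hR5 : (10 : ℝ) ^ 5 ≤ R)
    (h : Good R Λ z G ℓ β b a T y n) (hG : 0 < G) (ha : 0 < a) (hb : 1 ≤ b) (hr : 0 < r) (hr1 : r ≤ 1 / 2)
    (hr2 : r ≤ z ^ 16 * qq * a / 40)
    (hn0 : |x0 n - a| ≤ r) (hn1 : |x0 (n + 1) - qq * a| ≤ r)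
    (hm : ∀ m, m ≠ n → m ≠ n + 1 → |x0 m - y m| ≤ r / (R : ℝ) ^ m) :
    a / 2 ≤ x0 n ∧ (∀ x : ℕ → ℝ → ℝ, (∀ m, x m 0 = x0 m) → St R z b x n 0 (x0 n)) ∧
      Cond R Λ z G ℓ β b n (x0 n) ∧ 10 / (gG G Λ n * x0 n) < T := by
  have hqq := qq_pos
  have hqv : qq = 1 / 5000 := rfl
  have hz := hpar.hz
  have hz1 := hpar.z1
  have hΛ0 := hpar.hΛ0
  have hR0 : (0 : ℝ) < R := by linarith [show (0 : ℝ) < 10 ^ 5 by norm_num]
  have hR1 : (1 : ℝ) < R := by linarith [show (1 : ℝ) < 10 ^ 5 by norm_num]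
  have hpR : ∀ m : ℕ, (0 : ℝ) < (R : ℝ) ^ m := fun m => pow_pos hR0 m
  have hpR1 : ∀ m : ℕ, (1 : ℝ) ≤ (R : ℝ) ^ m := fun m => one_le_pow₀ hR1.le
  have hz16 : 0 < z ^ 16 := pow_pos hz 16
  have hz16' : z ^ 16 ≤ 1 := pow_le_one₀ hz.le hz1
  have hra : r ≤ qq * a / 40 := by
    refine hr2.trans ?_
    have : z ^ 16 * qq * a ≤ 1 * qq * a := by gcongr
    linarith
  have hra' : r ≤ a / 1000 := by
    rw [hqv] at hra; linarith
  have hrm : ∀ m : ℕ, r / (R : ℝ) ^ m ≤ r := fun m => div_le_self hr.le (hpR1 m)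
  obtain ⟨a1, a2⟩ := abs_le.1 hn0
  obtain ⟨b1, b2⟩ := abs_le.1 hn1
  set A := x0 n with hA
  have hA1 : a / 2 ≤ A := by linarith
  have hA0 : 0 < A := by linarith
  have hA2 : A ≤ a + r := by linarith
  have hA3 : a - r ≤ A := by linarith
  have hg0 : 0 < gG G Λ n := by unfold gG; positivity
  refine ⟨hA1, fun x hx => ⟨hA0, le_rfl, hx n, ?_, ?_, ?_, ?_, ?_, ?_⟩, ⟨?_, ?_, ?_, h.c7⟩, ?_⟩
  · rw [hx]
    rw [hqv] at hra b1 ⊢
    linarith
  · rw [hx]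
    rw [hqv] at hra b2 ⊢
    linarith
  · rw [hx]
    have h1 := hm (n + 2) (by omega) (by omega)
    have h2 := h.c1 (n + 2) (by omega)
    have h3 := hrm (n + 2)
    obtain ⟨d1, d2⟩ := abs_le.1 h1
    obtain ⟨e1, e2⟩ := abs_le.1 h2
    have h4 : z ^ 16 * qq * a / 20 ≤ z ^ 16 * qq / 10 * A := by
      calc z ^ 16 * qq * a / 20 = z ^ 16 * qq / 10 * (a / 2) := by ring
        _ ≤ _ := by gcongr
    linarith
  · rw [hx]
    have h1 := hm (n + 2) (by omega) (by omega)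
    have h2 := h.c1 (n + 2) (by omega)
    have h3 := hrm (n + 2)
    obtain ⟨d1, d2⟩ := abs_le.1 h1
    obtain ⟨e1, e2⟩ := abs_le.1 h2
    have h4 : z ^ 16 * qq * a / 20 ≤ z ^ 10 * A := by
      have h5 : z ^ 16 ≤ z ^ 10 := hpar.zpow_le (by norm_num)
      have h6 : z ^ 16 * qq / 10 ≤ z ^ 10 := by
        rw [hqv]; linarith
      calc z ^ 16 * qq * a / 20 = z ^ 16 * qq / 10 * (a / 2) := by ring
        _ ≤ z ^ 10 * A := by
          apply mul_le_mul h6 hA1 (by positivity) (by positivity)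
    linarith
  · intro j
    rw [hx]
    set m := n + 3 + j with hmd
    have h1 := hm m (by omega) (by omega)
    have h2 := h.c2 m (by omega)
    have h3 : |y m| ≤ 1 / 2 / (R : ℝ) ^ m := by
      rw [le_div_iff₀ (hpR m)]; exact h2
    have h4 : |x0 m| ≤ |y m| + |x0 m - y m| := by
      have := abs_add_le (y m) (x0 m - y m)
      simpa using this
    have h5 : |x0 m| ≤ 1 / (R : ℝ) ^ m := by
      calc |x0 m| ≤ |y m| + |x0 m - y m| := h4
        _ ≤ 1 / 2 / (R : ℝ) ^ m + r / (R : ℝ) ^ m := add_le_add h3 h1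
        _ = (1 / 2 + r) / (R : ℝ) ^ m := by ring
        _ ≤ 1 / (R : ℝ) ^ m := by
          have : 1 / 2 + r ≤ 1 := by linarith
          have := hpR m
          gcongr
    have h6 : 1 / (R : ℝ) ^ m ≤ b / (R : ℝ) ^ m := by
      have := hpR m
      gcongr
    have h7 : (0 : ℝ) ≤ (1 / 2) ^ (j + 1) := by positivity
    have h8 : 0 ≤ b / (R : ℝ) ^ m := by have := hpR m; positivity
    have h9 : 0 ≤ z ^ (24 + 14 * j) * A := by positivity
    nlinarith [mul_nonneg h7 h8]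
  · intro m hmn
    rw [hx]
    have h1 := hm m (by omega) (by omega)
    have h2 := h.c3 m hmn
    have h3 := hrm m
    have h4 : |x0 m| ≤ |y m| + |x0 m - y m| := by
      have := abs_add_le (y m) (x0 m - y m)
      simpa using this
    have h5 : (1 : ℝ) ≤ 10000 ^ (n - m) := one_le_pow₀ (by norm_num)
    calc |x0 m| ≤ 10000 ^ (n - m) * a / 4 + r := by linarith
      _ ≤ 10000 ^ (n - m) * a / 4 + 10000 ^ (n - m) * (a / 1000) := by nlinarith
      _ ≤ 10000 ^ (n - m) * (a / 2) := by nlinarith [mul_pos (lt_of_lt_of_le one_pos h5) ha]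
      _ ≤ 10000 ^ (n - m) * A := by gcongr
  · exact h.c4.trans (by gcongr)
  · exact h.c5.trans (by gcongr)
  · exact h.c6.trans (by gcongr)
  · refine lt_of_le_of_lt ?_ h.c8
    gcongr

end Pool.Agent.N980.CB
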