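import Pool.Agent.N980.CB.Fin
import Pool.Agent.N980.NU.Tim

/-!
The operator on the Fourier side: bounds, continuity and regularity in time.
-/

open MeasureTheory Set Filter Topology
open scoped ContDiff

set_option linter.unusedVariables false

namespace Pool.Agent.N980.CB

open Pool.Agent.N980.NU
open Pool.Agent.H356R3.NS (K C3 E3 R3 ex SN Sym RD TT SF SFam Fam cf' at' nk pw fj dS Bf dt)

variable {R : ℕ} {G σ : ℝ}

/-- The coefficients on the chain of a sequence of Fourier coefficients. -/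
noncomputable def yn (R : ℕ) (x : K → C3) (n : ℕ) : ℝ := Real.sqrt 2 * (x (frq R n) 2).re

/-- The operator on the Fourier side. -/
noncomputable def KT (G σ : ℝ) (R : ℕ) (x y : K → C3) : K → C3 :=
  chf R (kq (rt G σ R (yn R x)) (yn R y))

theorem chf_lv (hR : 2 ≤ R) (a : ℕ → ℝ) {k : K} {n : ℕ} (hk : k = frq R n ∨ k = -frq R n) :
    chf R a k = ![0, 0, ((a n / Real.sqrt 2 : ℝ) : ℂ)] := by
  unfold chf
  rw [onl_lv hR _ hk]

theorem chf_not (a : ℕ → ℝ) {k : K} (h : ¬lv R k) : chf R a k = 0 := by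
  unfold chf
  rw [onl_not _ h]
  funext i
  fin_cases i <;> simp

theorem norm_chf (hR : 2 ≤ R) (a : ℕ → ℝ) {k : K} {n : ℕ} (hk : k = frq R n ∨ k = -frq R n) :
    ‖chf R a k‖ = |a n| / Real.sqrt 2 := by
  rw [chf_lv hR a hk]
  have h2 := sqrt2_pos
  apply le_antisymm
  · rw [pi_norm_le_iff_of_nonneg (by positivity)]
    intro i
    fin_cases i
    · simp; positivity
    · simp; positivity
    · show ‖((a n / Real.sqrt 2 : ℝ) : ℂ)‖ ≤ _
      rw [Complex.norm_real, Real.norm_eq_abs, abs_div, abs_of_pos h2]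
  · have := norm_le_pi_norm (![0, 0, ((a n / Real.sqrt 2 : ℝ) : ℂ)] : C3) 2
    refine le_trans (le_of_eq ?_) this
    show _ = ‖((a n / Real.sqrt 2 : ℝ) : ℂ)‖
    rw [Complex.norm_real, Real.norm_eq_abs, abs_div, abs_of_pos h2]

theorem yn_abs (x : K → C3) (n : ℕ) : |yn R x n| ≤ Real.sqrt 2 * ‖x (frq R n)‖ := by
  unfold yn
  rw [abs_mul, abs_of_pos sqrt2_pos]
  gcongr
  exact (Complex.abs_re_le_norm _).trans (norm_le_pi_norm _ 2)

theorem pw_neg (k : K) : pw (-k) = pw k := by simp [pw, H356R3.NS.l1]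

theorem Rn_le_pw (n : ℕ) : (R : ℝ) ^ n ≤ pw (frq R n) := by rw [pw_frq]; linarith

theorem pw_frq_succ (hR : 2 ≤ R) (n : ℕ) : pw (frq R (n + 1)) ≤ R * pw (frq R n) := by
  rw [pw_frq, pw_frq, pow_succ]
  have : (2 : ℝ) ≤ R := by exact_mod_cast hR
  nlinarith [R_pos hR n]

theorem pw_frq_mono (hR : 2 ≤ R) (n : ℕ) : pw (frq R n) ≤ pw (frq R (n + 1)) := by
  rw [pw_frq, pw_frq, pow_succ]
  have : (2 : ℝ) ≤ R := by exact_mod_cast hR
  nlinarith [R_pos hR n]

/-- The sum of the values at the neighbouring frequencies. -/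
noncomputable def nb (R : ℕ) (b : K → ℝ) (n : ℕ) : ℝ :=
  pre (fun _ => 1) (fun n => b (frq R n)) n + b (frq R (n + 1))

theorem nb_nonneg {b : K → ℝ} (b0 : ∀ k, 0 ≤ b k) (n : ℕ) : 0 ≤ nb R b n := by
  unfold nb
  cases n with
  | zero => simp only [pre]; linarith [b0 (frq R (0 + 1))]
  | succ n => simp only [pre]; linarith [b0 (frq R n), b0 (frq R (n + 1 + 1))]

/-- The weighted sum. -/
noncomputable def Sm (m : ℕ) (b : K → ℝ) : ℝ := ∑' k, pw k ^ m * b k

theorem Sm_nonneg (m : ℕ) {b : K → ℝ} (b0 : ∀ k, 0 ≤ b k) : 0 ≤ Sm m b :=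
  tsum_nonneg fun k => mul_nonneg (pow_pos (H356R3.NS.pw_pos k) m).le (b0 k)

theorem le_Sm {m : ℕ} {b : K → ℝ} (b0 : ∀ k, 0 ≤ b k) (hb : Summable fun k => pw k ^ m * b k) (k : K) :
    pw k ^ m * b k ≤ Sm m b :=
  hb.le_tsum k fun k _ => mul_nonneg (pow_pos (H356R3.NS.pw_pos k) m).le (b0 k)

/-- The rates are bounded. -/
theorem rt_le (hR : 2 ≤ R) (hσ : σ ≤ 3) {x : K → C3} {b : K → ℝ} (b0 : ∀ k, 0 ≤ b k)
    (hb : Summable fun k => pw k ^ 3 * b k) (hx : ∀ k, ‖x k‖ ≤ b k) (n : ℕ) :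
    |rt G σ R (yn R x) n| ≤ 4 * |G| * Sm 3 b := by
  have r1 := one_le_R hR n
  have r0 := R_pos hR n
  have h2 : Real.sqrt 2 ≤ 2 := by
    rw [Real.sqrt_le_iff]; norm_num
  have h20 := sqrt2_pos
  have e1 : ((R : ℝ) ^ n) ^ σ ≤ ((R : ℝ) ^ n) ^ 3 := by
    rw [← Real.rpow_natCast ((R : ℝ) ^ n) 3]
    exact Real.rpow_le_rpow_of_exponent_le r1 (by push_cast; exact hσ)
  have hm : ∀ m, n ≤ m → ((R : ℝ) ^ n) ^ σ * |yn R x m| ≤ 2 * Sm 3 b := by
    intro m hm
    have h3 : (R : ℝ) ^ n ≤ (R : ℝ) ^ m :=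
      pow_le_pow_right₀ (by exact_mod_cast (by omega : 1 ≤ R)) hm
    have h4 : ((R : ℝ) ^ n) ^ 3 ≤ pw (frq R m) ^ 3 := by
      have := h3.trans (Rn_le_pw m)
      gcongr
    calc ((R : ℝ) ^ n) ^ σ * |yn R x m| ≤ pw (frq R m) ^ 3 * (2 * b (frq R m)) := by
          refine mul_le_mul (e1.trans h4) ?_ (abs_nonneg _) (pow_pos (H356R3.NS.pw_pos _) 3).le
          refine (yn_abs x m).trans ?_
          have := hx (frq R m)
          gcongr
      _ = 2 * (pw (frq R m) ^ 3 * b (frq R m)) := by ring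
      _ ≤ 2 * Sm 3 b := by
          have := le_Sm b0 hb (frq R m)
          linarith
  have h4 : Real.exp (-((R : ℝ) ^ σ / 1250)) ≤ 1 := Real.exp_le_one_iff.2 (by
    have : 0 ≤ (R : ℝ) ^ σ := by positivity
    linarith)
  have e2 : |Real.exp (-((R : ℝ) ^ σ / 1250)) * yn R x n + yn R x (n + 1)| ≤ |yn R x n| + |yn R x (n + 1)| := by
    refine (abs_add_le _ _).trans ?_
    rw [abs_mul, abs_of_pos (Real.exp_pos _)]
    have : Real.exp (-((R : ℝ) ^ σ / 1250)) * |yn R x n| ≤ 1 * |yn R x n| := by gcongr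
    linarith
  have p0 : 0 ≤ ((R : ℝ) ^ n) ^ σ := by positivity
  unfold rt
  rw [abs_mul, abs_mul, abs_of_nonneg p0]
  calc |G| * ((R : ℝ) ^ n) ^ σ * |Real.exp (-((R : ℝ) ^ σ / 1250)) * yn R x n + yn R x (n + 1)|
      ≤ |G| * ((R : ℝ) ^ n) ^ σ * (|yn R x n| + |yn R x (n + 1)|) := by gcongr
    _ = |G| * (((R : ℝ) ^ n) ^ σ * |yn R x n| + ((R : ℝ) ^ n) ^ σ * |yn R x (n + 1)|) := by ring
    _ ≤ |G| * (2 * Sm 3 b + 2 * Sm 3 b) := by
        have := hm n le_rfl
        have := hm (n + 1) (by omega)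
        gcongr
    _ = _ := by ring

theorem KT_le (hR : 2 ≤ R) (hσ : σ ≤ 3) {x y : K → C3} {b b' : K → ℝ} (b0 : ∀ k, 0 ≤ b k)
    (hb : Summable fun k => pw k ^ 3 * b k) (hx : ∀ k, ‖x k‖ ≤ b k) (hy : ∀ k, ‖y k‖ ≤ b' k) (k : K) :
    ‖KT G σ R x y k‖ ≤ onl R (fun n => 4 * |G| * Sm 3 b * nb R b' n) k := by
  have h20 := sqrt2_pos
  by_cases hk : lv R k
  · obtain ⟨n, hn⟩ := hk
    unfold KT
    rw [norm_chf hR _ hn, onl_lv hR _ hn, div_le_iff₀ h20]
    have hF := rt_le (G := G) hR hσ b0 hb hx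
    have hS := Sm_nonneg 3 b0
    have hY : ∀ n, |yn R y n| ≤ Real.sqrt 2 * b' (frq R n) := fun n => (yn_abs y n).trans (by
      have := hy (frq R n)
      gcongr)
    have h1 : |kq (rt G σ R (yn R x)) (yn R y) n| ≤ |pre (rt G σ R (yn R x)) (yn R y) n|
        + |rt G σ R (yn R x) n| * |yn R y (n + 1)| := by
      unfold kq
      refine (abs_sub _ _).trans ?_
      rw [abs_mul]
    have h2 : |pre (rt G σ R (yn R x)) (yn R y) n| ≤
        4 * |G| * Sm 3 b * (Real.sqrt 2 * pre (fun _ => 1) (fun n => b' (frq R n)) n) := by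
      cases n with
      | zero => simp [pre]
      | succ n =>
        simp only [pre, one_mul]
        rw [abs_mul]
        exact mul_le_mul (hF n) (hY n) (abs_nonneg _) ((abs_nonneg _).trans (hF n))
    have h3 : |rt G σ R (yn R x) n| * |yn R y (n + 1)| ≤ 4 * |G| * Sm 3 b * (Real.sqrt 2 * b' (frq R (n + 1))) :=
      mul_le_mul (hF n) (hY (n + 1)) (abs_nonneg _) ((abs_nonneg _).trans (hF n))
    calc _ ≤ _ := h1
      _ ≤ _ := add_le_add h2 h3
      _ = _ := by unfold nb; ring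
  · unfold KT
    rw [chf_not _ hk, onl_not _ hk, norm_zero]

theorem pw_onl (hR : 2 ≤ R) (m : ℕ) (g : ℕ → ℝ) (k : K) :
    pw k ^ m * onl R g k = onl R (fun n => pw (frq R n) ^ m * g n) k := by
  by_cases hk : lv R k
  · obtain ⟨n, hn⟩ := hk
    rw [onl_lv hR _ hn, onl_lv hR _ hn]
    rcases hn with hn | hn
    · rw [hn]
    · rw [hn, pw_neg]
  · rw [onl_not _ hk, onl_not _ hk, mul_zero]

theorem tsum_onl (hR : 2 ≤ R) {g : ℕ → ℝ} (hg : Summable g) : ∑' k, onl R g k = 2 * ∑' n, g n := by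
  have h1 := hasSum_lv hR (summable_onl hR hg) fun k hk => onl_not g hk
  have h2 : HasSum (fun n => onl R g (frq R n) + onl R g (-frq R n)) (2 * ∑' n, g n) := by
    have h3 := hg.hasSum.mul_left 2
    refine h3.congr_fun fun n => ?_
    rw [onl_neg hR, onl_frq hR]
    ring
  exact h1.unique h2

theorem nb_summ (hR : 2 ≤ R) (m : ℕ) {b : K → ℝ} (b0 : ∀ k, 0 ≤ b k) (hb : Summable fun k => pw k ^ m * b k) :
    (Summable fun n => pw (frq R n) ^ m * nb R b n) ∧
      ∑' n, pw (frq R n) ^ m * nb R b n ≤ ((R : ℝ) ^ m + 1) * Sm m b := by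
  have i1 : Function.Injective (frq R) := fun n m h => frq_inj hR h
  have hpw := H356R3.NS.pw_pos
  set f : ℕ → ℝ := fun n => pw (frq R n) ^ m * b (frq R n) with hf
  have f0 : ∀ n, 0 ≤ f n := fun n => mul_nonneg (pow_pos (hpw _) m).le (b0 _)
  have s0 : Summable f := hb.comp_injective i1
  have t0 : ∑' n, f n ≤ Sm m b := by
    exact tsum_comp_le_tsum_of_inj hb (fun k => mul_nonneg (pow_pos (hpw k) m).le (b0 k)) i1
  have s1 : Summable fun n => f (n + 1) := (summable_nat_add_iff 1).2 s0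
  have t1 : ∑' n, f (n + 1) ≤ ∑' n, f n := by
    have := s0.tsum_eq_zero_add
    rw [this]
    linarith [f0 0]
  -- the part from the lower neighbour
  set g : ℕ → ℝ := fun n => pw (frq R n) ^ m * pre (fun _ => 1) (fun n => b (frq R n)) n with hg
  have g0 : ∀ n, 0 ≤ g n := by
    intro n
    cases n with
    | zero => simp [hg, pre]
    | succ n =>
      simp only [hg, pre, one_mul]
      exact mul_nonneg (pow_pos (hpw _) m).le (b0 _)
  have gs1 : ∀ n, g (n + 1) ≤ (R : ℝ) ^ m * f n := by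
    intro n
    simp only [hg, pre, one_mul, hf]
    rw [← mul_assoc, ← mul_pow]
    have := pw_frq_succ hR n
    have := b0 (frq R n)
    have := (hpw (frq R (n + 1))).le
    gcongr
  have sg1 : Summable fun n => g (n + 1) := (s0.mul_left _).of_nonneg_of_le (fun n => g0 _) gs1
  have sg : Summable g := (summable_nat_add_iff 1).1 sg1
  have tg : ∑' n, g n ≤ (R : ℝ) ^ m * ∑' n, f n := by
    rw [sg.tsum_eq_zero_add, ← tsum_mul_left]
    have hg00 : g 0 = 0 := by simp [hg, pre]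
    rw [hg00, zero_add]
    exact sg1.tsum_le_tsum gs1 (s0.mul_left _)
  have hh : ∀ n, pw (frq R n) ^ m * b (frq R (n + 1)) ≤ f (n + 1) := by
    intro n
    simp only [hf]
    have := pw_frq_mono hR n
    have := b0 (frq R (n + 1))
    have := (hpw (frq R n)).le
    gcongr
  have sh : Summable fun n => pw (frq R n) ^ m * b (frq R (n + 1)) :=
    s1.of_nonneg_of_le (fun n => mul_nonneg (pow_pos (hpw _) m).le (b0 _)) hh
  have e : (fun n => pw (frq R n) ^ m * nb R b n) = fun n => g n + pw (frq R n) ^ m * b (frq R (n + 1)) := by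
    funext n
    simp only [hg]
    unfold nb
    ring
  rw [e]
  refine ⟨sg.add sh, ?_⟩
  rw [sg.tsum_add sh]
  have th : ∑' n, pw (frq R n) ^ m * b (frq R (n + 1)) ≤ ∑' n, f n :=
    (sh.tsum_le_tsum hh s1).trans t1
  have hRm : (0 : ℝ) ≤ (R : ℝ) ^ m := by positivity
  have t2 : ((R : ℝ) ^ m + 1) * ∑' n, f n ≤ ((R : ℝ) ^ m + 1) * Sm m b := by gcongr
  linarith

/-- The majorant of the operator. -/
theorem kmaj (hR : 2 ≤ R) (m : ℕ) {b : K → ℝ} (b0 : ∀ k, 0 ≤ b k) (hb : Summable fun k => pw k ^ m * b k)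
    {C : ℝ} (hC : 0 ≤ C) :
    (Summable fun k => pw k ^ m * onl R (fun n => C * nb R b n) k) ∧
      Sm m (onl R fun n => C * nb R b n) ≤ 2 * C * ((R : ℝ) ^ m + 1) * Sm m b := by
  obtain ⟨h1, h2⟩ := nb_summ hR m b0 hb
  have e : (fun k => pw k ^ m * onl R (fun n => C * nb R b n) k)
      = onl R fun n => C * (pw (frq R n) ^ m * nb R b n) := by
    funext k
    rw [pw_onl hR]
    congr 1
    funext n
    ring
  have h3 : Summable fun n => C * (pw (frq R n) ^ m * nb R b n) := h1.mul_left C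
  constructor
  · rw [e]; exact summable_onl hR h3
  · unfold Sm
    rw [e, tsum_onl hR h3, tsum_mul_left]
    calc 2 * (C * ∑' n, pw (frq R n) ^ m * nb R b n) = 2 * C * ∑' n, pw (frq R n) ^ m * nb R b n := by ring
      _ ≤ 2 * C * (((R : ℝ) ^ m + 1) * Sm m b) := by gcongr
      _ = _ := by unfold Sm; ring

theorem onl_nonneg (hR : 2 ≤ R) {g : ℕ → ℝ} (g0 : ∀ n, 0 ≤ g n) (k : K) : 0 ≤ onl R g k := by
  by_cases hk : lv R k
  · obtain ⟨n, hn⟩ := hk
    rw [onl_lv hR _ hn]; exact g0 n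
  · rw [onl_not _ hk]

/-! ### linearity -/

theorem yn_sub (x y : K → C3) (n : ℕ) : yn R (x - y) n = yn R x n - yn R y n := by
  unfold yn; simp; ring

theorem rt_sub (y y' : ℕ → ℝ) (n : ℕ) : rt G σ R (fun n => y n - y' n) n = rt G σ R y n - rt G σ R y' n := by
  unfold rt; ring

theorem chf_sub (hR : 2 ≤ R) (a a' : ℕ → ℝ) (k : K) : chf R (fun n => a n - a' n) k = chf R a k - chf R a' k := by
  by_cases hk : lv R k
  · obtain ⟨n, hn⟩ := hk
    rw [chf_lv hR _ hn, chf_lv hR _ hn, chf_lv hR _ hn]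
    funext i
    fin_cases i
    · simp
    · simp
    · show (((a n - a' n) / Real.sqrt 2 : ℝ) : ℂ) = ((a n / Real.sqrt 2 : ℝ) : ℂ) - ((a' n / Real.sqrt 2 : ℝ) : ℂ)
      rw [sub_div]; push_cast; ring
  · rw [chf_not _ hk, chf_not _ hk, chf_not _ hk, sub_zero]

theorem KT_diff (hR : 2 ≤ R) (x y : K → C3) :
    KT G σ R x x - KT G σ R y y = KT G σ R (x - y) x + KT G σ R y (x - y) := by
  funext k
  rw [Pi.sub_apply, Pi.add_apply]
  unfold KT
  have e1 : kq (rt G σ R (yn R (x - y))) (yn R x)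
      = fun n => kq (rt G σ R (yn R x)) (yn R x) n - kq (rt G σ R (yn R y)) (yn R x) n := by
    have h1 : yn R (x - y) = fun n => yn R x n - yn R y n := funext fun n => yn_sub x y n
    funext n
    rw [h1]
    cases n with
    | zero => simp only [kq, pre, rt_sub]; ring
    | succ n => simp only [kq, pre, rt_sub]; ring
  have e2 : kq (rt G σ R (yn R y)) (yn R (x - y))
      = fun n => kq (rt G σ R (yn R y)) (yn R x) n - kq (rt G σ R (yn R y)) (yn R y) n := by
    have h1 : yn R (x - y) = fun n => yn R x n - yn R y n := funext fun n => yn_sub x y n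
    funext n
    rw [h1]
    cases n with
    | zero => simp only [kq, pre]; ring
    | succ n => simp only [kq, pre]; ring
  rw [e1, e2, chf_sub hR, chf_sub hR]
  abel

/-! ### continuity -/

theorem yn_cont {u : Fam} (hu : H356R3.NS.CF u) (n : ℕ) : Continuous fun t => yn R (at' u t) n := by
  unfold yn
  exact continuous_const.mul (Complex.continuous_re.comp ((continuous_apply 2).comp (hu (frq R n))))

theorem kq_cont {u v : Fam} (hu : H356R3.NS.CF u) (hv : H356R3.NS.CF v) (n : ℕ) :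
    Continuous fun t => kq (rt G σ R (yn R (at' u t))) (yn R (at' v t)) n := by
  have h1 : ∀ n, Continuous fun t => rt G σ R (yn R (at' u t)) n := by
    intro n
    unfold rt
    exact continuous_const.mul ((continuous_const.mul (yn_cont hu n)).add (yn_cont hu (n + 1)))
  cases n with
  | zero =>
    simp only [kq, pre]
    exact continuous_const.sub ((h1 0).mul (yn_cont hv _))
  | succ n =>
    simp only [kq, pre]
    exact ((h1 n).mul (yn_cont hv n)).sub ((h1 (n + 1)).mul (yn_cont hv _))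

theorem KT_cont (hR : 2 ≤ R) {u v : Fam} (hu : H356R3.NS.CF u) (hv : H356R3.NS.CF v) :
    H356R3.NS.CF fun k t => KT G σ R (at' u t) (at' v t) k := by
  intro k
  by_cases hk : lv R k
  · obtain ⟨n, hn⟩ := hk
    have e : (fun t => KT G σ R (at' u t) (at' v t) k)
        = fun t => ![0, 0, ((kq (rt G σ R (yn R (at' u t))) (yn R (at' v t)) n / Real.sqrt 2 : ℝ) : ℂ)] := by
      funext t
      unfold KT
      rw [chf_lv hR _ hn]
    show Continuous fun t => KT G σ R (at' u t) (at' v t) k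
    rw [e]
    refine continuous_pi fun i => ?_
    fin_cases i
    · exact continuous_const
    · exact continuous_const
    · show Continuous fun t => ((kq (rt G σ R (yn R (at' u t))) (yn R (at' v t)) n / Real.sqrt 2 : ℝ) : ℂ)
      exact Complex.continuous_ofReal.comp ((kq_cont hu hv n).div_const _)
  · have e : (fun t => KT G σ R (at' u t) (at' v t) k) = fun t => 0 := by
      funext t
      unfold KT
      rw [chf_not _ hk]
    show Continuous fun t => KT G σ R (at' u t) (at' v t) k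
    rw [e]
    exact continuous_const

end Pool.Agent.N980.CB
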