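import Pool.Agent.N980.CB.Ex1
import Pool.Agent.H356R3.NS.Fix

/-!
The quadratic integral equation in a weighted space.
-/

open MeasureTheory Set Filter Topology
open scoped ContDiff

set_option linter.unusedVariables false

namespace Pool.Agent.N980.CB

open Pool.Agent.N980.NU
open Pool.Agent.H356R3.NS (K C3 E3 R3 ex SN Sym RD TT SF SFam Fam cf' at' nk pw fj dS Bf dt Duh Dom C0)

variable {R : ℕ} {G σ c T : ℝ}

/-! ### the weighted bound -/

/-- `u` is continuous and dominated by a sequence of weighted size at most `M`. -/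
def WB (u : Fam) (M : ℝ) : Prop :=
  H356R3.NS.CF u ∧ ∃ b : K → ℝ, (∀ k, 0 ≤ b k) ∧ (Summable fun k => pw k ^ 3 * b k) ∧ Sm 3 b ≤ M ∧
    ∀ k t, ‖u k t‖ ≤ b k

theorem one_le_pw3 (m : ℕ) (k : K) : 1 ≤ pw k ^ m := one_le_pow₀ (H356R3.NS.one_le_pw k)

theorem summ_of_w {m : ℕ} {b : K → ℝ} (b0 : ∀ k, 0 ≤ b k) (hb : Summable fun k => pw k ^ m * b k) : Summable b :=
  hb.of_nonneg_of_le b0 fun k => le_mul_of_one_le_left (b0 k) (one_le_pw3 m k)

theorem WB.M0 {u : Fam} {M : ℝ} (h : WB u M) : 0 ≤ M := by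
  obtain ⟨_, b, b0, _, hM, _⟩ := h
  exact (Sm_nonneg 3 b0).trans hM

theorem WB.le {u : Fam} {M : ℝ} (h : WB u M) (k : K) (t : ℝ) : ‖u k t‖ ≤ M := by
  obtain ⟨_, b, b0, hb, hM, hu⟩ := h
  calc ‖u k t‖ ≤ b k := hu k t
    _ ≤ pw k ^ 3 * b k := le_mul_of_one_le_left (b0 k) (one_le_pw3 3 k)
    _ ≤ Sm 3 b := le_Sm b0 hb k
    _ ≤ M := hM

theorem WB.dom {u : Fam} {M : ℝ} (h : WB u M) : Dom u := by
  obtain ⟨_, b, b0, hb, hM, hu⟩ := h
  exact ⟨b, summ_of_w b0 hb, hu⟩

theorem WB.mono {u : Fam} {M M' : ℝ} (h : WB u M) (hM : M ≤ M') : WB u M' := by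
  obtain ⟨hc, b, b0, hb, h1, hu⟩ := h
  exact ⟨hc, b, b0, hb, h1.trans hM, hu⟩

theorem WB.add {u v : Fam} {M M' : ℝ} (h : WB u M) (h' : WB v M') : WB (u + v) (M + M') := by
  obtain ⟨hc, b, b0, hb, h1, hu⟩ := h
  obtain ⟨hc', b', b0', hb', h1', hu'⟩ := h'
  refine ⟨fun k => (hc k).add (hc' k), fun k => b k + b' k, fun k => add_nonneg (b0 k) (b0' k), ?_, ?_, ?_⟩
  · simp only [mul_add]; exact hb.add hb'
  · unfold Sm
    simp only [mul_add]
    rw [hb.tsum_add hb']
    exact add_le_add h1 h1'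
  · intro k t
    exact (norm_add_le _ _).trans (add_le_add (hu k t) (hu' k t))

theorem WB.neg {u : Fam} {M : ℝ} (h : WB u M) : WB (-u) M := by
  obtain ⟨hc, b, b0, hb, h1, hu⟩ := h
  refine ⟨fun k => (hc k).neg, b, b0, hb, h1, fun k t => ?_⟩
  rw [Pi.neg_apply, Pi.neg_apply, norm_neg]
  exact hu k t

theorem WB.sub {u v : Fam} {M M' : ℝ} (h : WB u M) (h' : WB v M') : WB (u - v) (M + M') := by
  rw [sub_eq_add_neg]; exact h.add h'.neg

theorem WB.eq_zero {u : Fam} (h : WB u 0) : u = 0 := by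
  funext k t
  exact norm_le_zero_iff.1 (h.le k t)

theorem WB_zero : WB (0 : Fam) 0 :=
  ⟨fun k => continuous_const, fun _ => 0, fun _ => le_rfl, by simp [summable_zero], by simp [Sm], fun k t => by simp⟩

/-- Series. -/
theorem WB.series {d : ℕ → Fam} {m : ℕ → ℝ} (hd : ∀ n, WB (d n) (m n)) (hm : Summable m) :
    WB (fun k t => ∑' n, d n k t) (∑' n, m n) ∧ ∀ k t, Summable fun n => d n k t := by
  choose hc b b0 hb h1 hu using hd
  have hbm : ∀ n k, pw k ^ 3 * b n k ≤ m n := fun n k => (le_Sm (b0 n) (hb n) k).trans (h1 n)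
  have hbm' : ∀ n k, b n k ≤ m n := fun n k =>
    (le_mul_of_one_le_left (b0 n k) (one_le_pw3 3 k)).trans (hbm n k)
  have hs : ∀ k, Summable fun n => b n k := fun k => hm.of_nonneg_of_le (fun n => b0 n k) fun n => hbm' n k
  have hsd : ∀ k t, Summable fun n => d n k t := fun k t => Summable.of_norm_bounded (hs k) fun n => hu n k t
  refine ⟨⟨fun k => ?_, fun k => ∑' n, b n k, fun k => tsum_nonneg fun n => b0 n k, ?_, ?_, ?_⟩, hsd⟩
  · exact continuous_tsum (fun n => hc n k) (hs k) fun n t => hu n k t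
  · refine summable_of_sum_le (c := ∑' n, m n)
      (fun k => mul_nonneg (pow_pos (H356R3.NS.pw_pos k) 3).le (tsum_nonneg fun n => b0 n k)) fun S => ?_
    have e : ∑ k ∈ S, pw k ^ 3 * ∑' n, b n k = ∑' n, ∑ k ∈ S, pw k ^ 3 * b n k := by
      rw [Summable.tsum_finsetSum fun k _ => (hs k).mul_left _]
      exact Finset.sum_congr rfl fun k _ => tsum_mul_left.symm
    rw [e]
    refine Summable.tsum_le_tsum (fun n => ?_) (summable_sum fun k _ => (hs k).mul_left _) hm
    exact ((hb n).sum_le_tsum S fun k _ => mul_nonneg (pow_pos (H356R3.NS.pw_pos k) 3).le (b0 n k)).trans (h1 n)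
  · unfold Sm
    refine Real.tsum_le_of_sum_le
      (fun k => mul_nonneg (pow_pos (H356R3.NS.pw_pos k) 3).le (tsum_nonneg fun n => b0 n k)) fun S => ?_
    have e : ∑ k ∈ S, pw k ^ 3 * ∑' n, b n k = ∑' n, ∑ k ∈ S, pw k ^ 3 * b n k := by
      rw [Summable.tsum_finsetSum fun k _ => (hs k).mul_left _]
      exact Finset.sum_congr rfl fun k _ => tsum_mul_left.symm
    rw [e]
    refine Summable.tsum_le_tsum (fun n => ?_) (summable_sum fun k _ => (hs k).mul_left _) hm
    exact ((hb n).sum_le_tsum S fun k _ => mul_nonneg (pow_pos (H356R3.NS.pw_pos k) 3).le (b0 n k)).trans (h1 n)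
  · intro k t
    exact tsum_of_norm_bounded (hs k).hasSum fun n => hu n k t

/-! ### convolution with weights -/

theorem cc_pw2 {m : ℕ} {b b' : K → ℝ} (b0 : ∀ k, 0 ≤ b k) (b0' : ∀ k, 0 ≤ b' k)
    (hb : Summable fun k => pw k ^ m * b k) (hb' : Summable fun k => pw k ^ m * b' k) (k : K) :
    pw k ^ m * NU.cc b b' k ≤ NU.cc (fun k => pw k ^ m * b k) (fun k => pw k ^ m * b' k) k := by
  have hp : ∀ k, 0 < pw k ^ m := fun k => pow_pos (H356R3.NS.pw_pos k) m
  unfold NU.cc
  rw [← tsum_mul_left]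
  refine Summable.tsum_le_tsum (fun l => ?_)
    ((cc_term_summ (summ_of_w b0 hb) (summ_of_w b0' hb') b0 b0' k).mul_left _)
    (cc_term_summ hb hb' (fun k => mul_nonneg (hp k).le (b0 k)) (fun k => mul_nonneg (hp k).le (b0' k)) k)
  have h1 : pw k ^ m ≤ pw l ^ m * pw (k - l) ^ m := by
    rw [← mul_pow]; exact pow_le_pow_left₀ (H356R3.NS.pw_pos k).le (H356R3.NS.pw_sub k l) m
  calc pw k ^ m * (b l * b' (k - l)) ≤ (pw l ^ m * pw (k - l) ^ m) * (b l * b' (k - l)) :=
        mul_le_mul_of_nonneg_right h1 (mul_nonneg (b0 _) (b0' _))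
    _ = _ := by ring

theorem cc_w {m : ℕ} {b b' : K → ℝ} (b0 : ∀ k, 0 ≤ b k) (b0' : ∀ k, 0 ≤ b' k)
    (hb : Summable fun k => pw k ^ m * b k) (hb' : Summable fun k => pw k ^ m * b' k) :
    (Summable fun k => pw k ^ m * NU.cc b b' k) ∧ Sm m (NU.cc b b') ≤ Sm m b * Sm m b' := by
  have hp : ∀ k, 0 < pw k ^ m := fun k => pow_pos (H356R3.NS.pw_pos k) m
  have w0 : ∀ k, 0 ≤ pw k ^ m * b k := fun k => mul_nonneg (hp k).le (b0 k)
  have w0' : ∀ k, 0 ≤ pw k ^ m * b' k := fun k => mul_nonneg (hp k).le (b0' k)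
  have h1 := cc_summ hb hb' w0 w0'
  have h2 := cc_pw2 b0 b0' hb hb'
  have h3 : Summable fun k => pw k ^ m * NU.cc b b' k :=
    h1.of_nonneg_of_le (fun k => mul_nonneg (hp k).le (cc_nonneg b0 b0' k)) h2
  refine ⟨h3, ?_⟩
  unfold Sm
  rw [← cc_tsum hb hb' w0 w0']
  exact h3.tsum_le_tsum h2 h1

/-! ### the quadratic operator -/

/-- The nonlinear term. -/
noncomputable def NN (G σ : ℝ) (R : ℕ) (x y : Fam) : Fam := fun k t =>
  Bf (at' x t) (at' y t) k + KT G σ R (at' x t) (at' y t) k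

theorem NN_cf (hR : 2 ≤ R) {x y : Fam} {M M' : ℝ} (hx : WB x M) (hy : WB y M') :
    H356R3.NS.CF (NN G σ R x y) := fun k =>
  (H356R3.NS.BB_cont hx.1 hy.1 hx.dom hy.dom k).add (KT_cont hR hx.1 hy.1 k)

theorem NN_diff (hR : 2 ≤ R) {x y : Fam} {M M' : ℝ} (hx : WB x M) (hy : WB y M') :
    NN G σ R x x - NN G σ R y y = NN G σ R (x - y) x + NN G σ R y (x - y) := by
  funext k t
  have h1 := congrFun (H356R3.NS.Bf_diff (hx.dom.sn t) (hy.dom.sn t)) k
  have h2 := congrFun (KT_diff (G := G) (σ := σ) hR (at' x t) (at' y t)) k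
  have e : at' (x - y) t = at' x t - at' y t := rfl
  simp only [Pi.sub_apply, Pi.add_apply] at h1 h2 ⊢
  unfold NN
  rw [e]
  calc _ = (Bf (at' x t) (at' x t) k - Bf (at' y t) (at' y t) k)
        + (KT G σ R (at' x t) (at' x t) k - KT G σ R (at' y t) (at' y t) k) := by abel
    _ = _ := by rw [h1, h2]; abel

/-- The integral operator. -/
noncomputable def Qo (c T G σ : ℝ) (R : ℕ) (x y : Fam) : Fam := fun k t => Duh c (NN G σ R x y) k (min t T)

theorem Qo_diff (hR : 2 ≤ R) {x y : Fam} {M M' : ℝ} (hx : WB x M) (hy : WB y M') :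
    Qo c T G σ R x x - Qo c T G σ R y y = Qo c T G σ R (x - y) x + Qo c T G σ R y (x - y) := by
  have h1 := NN_diff (G := G) (σ := σ) hR hx hy
  have h2 := H356R3.NS.Duh_sub (c := c) (NN_cf (G := G) (σ := σ) hR hx hx) (NN_cf (G := G) (σ := σ) hR hy hy)
  have h3 := H356R3.NS.Duh_add (c := c) (NN_cf (G := G) (σ := σ) hR (hx.sub hy) hx)
    (NN_cf (G := G) (σ := σ) hR hy (hx.sub hy))
  rw [h1, h3] at h2
  funext k t
  have := congrFun (congrFun h2 k) (min t T)
  simp only [Pi.sub_apply, Pi.add_apply] at this ⊢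
  unfold Qo
  rw [this]

/-- The integral of the decaying factor. -/
theorem dint {μ t : ℝ} (hμ : 0 ≤ μ) (ht : 0 ≤ t) :
    0 ≤ ∫ s in (0 : ℝ)..t, Real.exp (-(μ * (t - s))) ∧ ∫ s in (0 : ℝ)..t, Real.exp (-(μ * (t - s))) ≤ t ∧
      μ * ∫ s in (0 : ℝ)..t, Real.exp (-(μ * (t - s))) ≤ 1 := by
  refine ⟨intervalIntegral.integral_nonneg ht fun s _ => (Real.exp_pos _).le, ?_, ?_⟩
  · have h1 : ∫ s in (0 : ℝ)..t, Real.exp (-(μ * (t - s))) ≤ ∫ s in (0 : ℝ)..t, (1 : ℝ) := by
      refine intervalIntegral.integral_mono_on ht ?_ intervalIntegrable_const fun s hs => ?_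
      · exact (by fun_prop : Continuous fun s => Real.exp (-(μ * (t - s)))).intervalIntegrable _ _
      · rw [Real.exp_le_one_iff]
        have := mul_nonneg hμ (sub_nonneg.2 hs.2)
        linarith
    simpa using h1
  · rw [← intervalIntegral.integral_const_mul]
    have h2 : ∀ s ∈ uIcc 0 t, HasDerivAt (fun s => Real.exp (-(μ * (t - s)))) (μ * Real.exp (-(μ * (t - s)))) s := by
      intro s _
      have h3 : HasDerivAt (fun s : ℝ => -(μ * (t - s))) μ s := by
        have := (((hasDerivAt_id' s).const_sub t).const_mul μ).fun_neg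
        refine this.congr_deriv ?_
        ring
      refine h3.exp.congr_deriv ?_
      ring
    rw [intervalIntegral.integral_eq_sub_of_hasDerivAt h2
      ((by fun_prop : Continuous fun s => μ * Real.exp (-(μ * (t - s)))).intervalIntegrable _ _)]
    have := Real.exp_pos (-(μ * (t - 0)))
    simp only [sub_self, mul_zero, neg_zero, Real.exp_zero]
    linarith

/-- The Duhamel integral of a bounded family. -/
theorem Duh_norm_le (hc : 0 < c) (hT : 0 ≤ T) {F : Fam} (hF : H356R3.NS.CF F) (k : K) {A B : ℝ} (hA : 0 ≤ A)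
    (hB : 0 ≤ B) (h : ∀ s, ‖F k s‖ ≤ nk k * A + B) {t : ℝ} (ht : t ≤ T) :
    ‖Duh c F k t‖ ≤ Real.sqrt (T / c) * A + T * B := by
  have hs0 := Real.sqrt_nonneg (T / c)
  rcases le_or_gt t 0 with h0 | h0
  · have : Duh c F k t = 0 := by
      unfold H356R3.NS.Duh
      rw [max_eq_right h0]
      simp
    rw [this, norm_zero]
    positivity
  · have hn := H356R3.NS.nk_nonneg k
    set μ := c * H356R3.NS.sq k with hμd
    have hμ : 0 ≤ μ := mul_nonneg hc.le (H356R3.NS.sq_nonneg' k)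
    obtain ⟨i0, i1, i2⟩ := dint hμ h0.le
    set I := ∫ s in (0 : ℝ)..t, Real.exp (-(μ * (t - s))) with hI
    have h1 : ‖Duh c F k t‖ ≤ ∫ s in (0 : ℝ)..t, (nk k * A + B) * Real.exp (-(μ * (t - s))) := by
      unfold H356R3.NS.Duh
      rw [max_eq_left h0.le]
      refine intervalIntegral.norm_integral_le_of_norm_le h0.le (Eventually.of_forall fun s hs => ?_) ?_
      · rw [norm_smul, Real.norm_of_nonneg (Real.exp_pos _).le, mul_comm]
        exact mul_le_mul_of_nonneg_right (h s) (Real.exp_pos _).le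
      · exact (by fun_prop : Continuous fun s => (nk k * A + B) * Real.exp (-(μ * (t - s)))).intervalIntegrable _ _
    rw [intervalIntegral.integral_const_mul] at h1
    have h2 : nk k * I ≤ Real.sqrt (T / c) := by
      apply Real.le_sqrt_of_sq_le
      have h3 : nk k ^ 2 * I ≤ 1 / c := by
        rw [le_div_iff₀ hc, H356R3.NS.nk_sq]
        calc H356R3.NS.sq k * I * c = μ * I := by rw [hμd]; ring
          _ ≤ 1 := i2
      calc (nk k * I) ^ 2 = (nk k ^ 2 * I) * I := by ring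
        _ ≤ (1 / c) * T := by
          apply mul_le_mul h3 (i1.trans ht) i0 (by positivity)
        _ = T / c := by ring
    calc ‖Duh c F k t‖ ≤ (nk k * A + B) * I := h1
      _ = (nk k * I) * A + I * B := by ring
      _ ≤ Real.sqrt (T / c) * A + T * B := by
        have := i1.trans ht
        gcongr

/-- The constant of the quadratic operator. -/
noncomputable def gam (c T G : ℝ) (R : ℕ) : ℝ := C0 * Real.sqrt (T / c) + 8 * |G| * ((R : ℝ) ^ 3 + 1) * T

theorem gam_nonneg (hT : 0 ≤ T) : 0 ≤ gam c T G R := by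
  unfold gam
  have := H356R3.NS.C0_pos
  positivity

theorem WB.Q (hR : 2 ≤ R) (hσ : σ ≤ 3) (hc : 0 < c) (hT : 0 ≤ T) {x y : Fam} {M M' : ℝ} (hx : WB x M)
    (hy : WB y M') : WB (Qo c T G σ R x y) (gam c T G R * M * M') := by
  have hcf := NN_cf (G := G) (σ := σ) hR hx hy
  have hM := hx.M0
  have hM' := hy.M0
  have hxd := hx.dom
  have hyd := hy.dom
  obtain ⟨hcx, b, b0, hb, h1, hu⟩ := hx
  obtain ⟨hcy, b', b0', hb', h1', hu'⟩ := hy
  have hC0 := H356R3.NS.C0_pos
  have hS := Sm_nonneg 3 b0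
  have hS' := Sm_nonneg 3 b0'
  set kb : K → ℝ := onl R fun n => 4 * |G| * Sm 3 b * nb R b' n with hkb
  have kb0 : ∀ k, 0 ≤ kb k := onl_nonneg hR fun n => mul_nonneg (by positivity) (nb_nonneg b0' n)
  obtain ⟨k1, k2⟩ := kmaj hR 3 b0' hb' (C := 4 * |G| * Sm 3 b) (by positivity)
  obtain ⟨w1, w2⟩ := cc_w b0 b0' hb hb'
  have ccn := cc_nonneg b0 b0'
  have hs0 := Real.sqrt_nonneg (T / c)
  refine ⟨fun k => ?_, fun k => Real.sqrt (T / c) * (C0 * NU.cc b b' k) + T * kb k, fun k => ?_, ?_, ?_, ?_⟩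
  · exact (H356R3.NS.Duh_cont hcf c k).comp (by fun_prop : Continuous fun t : ℝ => min t T)
  · have := ccn k
    have := kb0 k
    positivity
  · have := ((w1.mul_left (Real.sqrt (T / c) * C0)).add (k1.mul_left T))
    refine this.congr fun k => ?_
    rw [hkb]; ring
  · have e : Sm 3 (fun k => Real.sqrt (T / c) * (C0 * NU.cc b b' k) + T * kb k)
        = Real.sqrt (T / c) * C0 * Sm 3 (NU.cc b b') + T * Sm 3 kb := by
      unfold Sm
      rw [← tsum_mul_left, ← tsum_mul_left, ← (w1.mul_left _).tsum_add (k1.mul_left _)]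
      refine tsum_congr fun k => ?_
      rw [hkb]; ring
    rw [e]
    have hRR : (0 : ℝ) ≤ (R : ℝ) ^ 3 + 1 := by positivity
    calc Real.sqrt (T / c) * C0 * Sm 3 (NU.cc b b') + T * Sm 3 kb
        ≤ Real.sqrt (T / c) * C0 * (Sm 3 b * Sm 3 b')
          + T * (2 * (4 * |G| * Sm 3 b) * ((R : ℝ) ^ 3 + 1) * Sm 3 b') := by gcongr
      _ = gam c T G R * (Sm 3 b * Sm 3 b') := by unfold gam; ring
      _ ≤ gam c T G R * (M * M') := by
        have := gam_nonneg (c := c) (G := G) (R := R) hT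
        gcongr
      _ = _ := by ring
  · intro k t
    unfold Qo
    refine Duh_norm_le hc hT hcf k (mul_nonneg hC0.le (ccn k)) (kb0 k) (fun s => ?_) (min_le_right _ _)
    unfold NN
    have hxs : SN (at' x s) := hxd.sn s
    have hys : SN (at' y s) := hyd.sn s
    have e1 := norm_Bf_le hxs hys k
    have e2 := cc_mono (summ_of_w b0 hb) (summ_of_w b0' hb') (fun _ => norm_nonneg _) (fun _ => norm_nonneg _)
      (fun k => hu k s) (fun k => hu' k s) k
    have e3 := KT_le (G := G) hR hσ b0 hb (fun k => hu k s) (fun k => hu' k s) k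
    have hn := H356R3.NS.nk_nonneg k
    calc ‖Bf (at' x s) (at' y s) k + KT G σ R (at' x s) (at' y s) k‖
        ≤ ‖Bf (at' x s) (at' y s) k‖ + ‖KT G σ R (at' x s) (at' y s) k‖ := norm_add_le _ _
      _ ≤ C0 * nk k * NU.cc b b' k + kb k := by
        refine add_le_add (e1.trans ?_) e3
        exact mul_le_mul_of_nonneg_left e2 (mul_nonneg hC0.le hn)
      _ = nk k * (C0 * NU.cc b b' k) + kb k := by ring

/-! ### the fixed point -/

/-- The iteration. -/
noncomputable def itr (c T G σ : ℝ) (R : ℕ) (e : Fam) : ℕ → Fam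
  | 0 => 0
  | n + 1 => e + Qo c T G σ R (itr c T G σ R e n) (itr c T G σ R e n)

theorem fixp (hR : 2 ≤ R) (hσ : σ ≤ 3) (hc : 0 < c) (hT : 0 ≤ T) {e : Fam} {M0 : ℝ} (he : WB e M0)
    (hγ : 8 * gam c T G R * M0 ≤ 1) : ∃ u : Fam, WB u (2 * M0) ∧ u = e + Qo c T G σ R u u ∧
      (∀ n, WB (itr c T G σ R e n) (2 * M0)) ∧
      ∀ k t, Tendsto (fun n => itr c T G σ R e n k t) atTop (𝓝 (u k t)) := by
  have hM0 := he.M0
  have hγ0 := gam_nonneg (c := c) (G := G) (R := R) hT
  set γ := gam c T G R with hγd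
  set U := itr c T G σ R e with hU
  have hP : ∀ n, WB (U n) (2 * M0) := by
    intro n
    induction n with
    | zero => exact WB_zero.mono (by positivity)
    | succ n ih =>
      have h1 := he.add (WB.Q (G := G) hR hσ hc hT ih ih)
      refine h1.mono ?_
      nlinarith
  have hstep : ∀ n, U (n + 1 + 1) - U (n + 1) = Qo c T G σ R (U (n + 1) - U n) (U (n + 1))
      + Qo c T G σ R (U n) (U (n + 1) - U n) := by
    intro n
    rw [← Qo_diff hR (hP (n + 1)) (hP n)]
    show (e + Qo c T G σ R (U (n + 1)) (U (n + 1))) - (e + Qo c T G σ R (U n) (U n)) = _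
    abel
  have hD : ∀ n, WB (U (n + 1) - U n) (M0 * (1 / 2) ^ n) := by
    intro n
    induction n with
    | zero =>
      have h1 : U (0 + 1) - U 0 = e + Qo c T G σ R 0 0 := by
        show (e + Qo c T G σ R 0 0) - 0 = _
        rw [sub_zero]
      have h2 := WB.Q (G := G) hR hσ hc hT WB_zero WB_zero
      rw [h1]
      have h3 := he.add h2
      refine h3.mono ?_
      simp
    | succ n ih =>
      rw [hstep n]
      have h1 := (WB.Q (G := G) hR hσ hc hT ih (hP (n + 1))).add (WB.Q (G := G) hR hσ hc hT (hP n) ih)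
      refine h1.mono ?_
      have hp : (0 : ℝ) < (1 / 2) ^ n := by positivity
      rw [← hγd, pow_succ]
      have h2 : (8 * γ * M0) * (M0 * (1 / 2) ^ n) ≤ 1 * (M0 * (1 / 2) ^ n) := by gcongr
      nlinarith
  have hgs : Summable fun n : ℕ => M0 * (1 / 2 : ℝ) ^ n :=
    (summable_geometric_of_lt_one (by norm_num) (by norm_num)).mul_left _
  obtain ⟨hu, hus⟩ := WB.series hD hgs
  set u : Fam := fun k t => ∑' n, (U (n + 1) - U n) k t with hud
  have hsum2 : ∑' n : ℕ, M0 * (1 / 2 : ℝ) ^ n = 2 * M0 := by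
    rw [tsum_mul_left, tsum_geometric_two]; ring
  rw [hsum2] at hu
  -- the remainders
  have hrem : ∀ N, WB (u - U N) (2 * M0 * (1 / 2) ^ N) := by
    intro N
    have hgs' : Summable fun n : ℕ => M0 * (1 / 2 : ℝ) ^ (n + N) := (summable_nat_add_iff N).2 hgs
    obtain ⟨hv, -⟩ := WB.series (d := fun n => U (n + N + 1) - U (n + N)) (fun n => hD (n + N)) hgs'
    have e1 : (fun k t => ∑' n, (U (n + N + 1) - U (n + N)) k t) = u - U N := by
      funext k t
      have h1 := (hus k t).sum_add_tsum_nat_add N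
      have h2 : ∑ i ∈ Finset.range N, (U (i + 1) - U i) k t = U N k t := by
        have := Finset.sum_range_sub (fun i => U i k t) N
        simp only [Pi.sub_apply]
        rw [this]
        show U N k t - (0 : Fam) k t = _
        simp
      rw [h2] at h1
      show _ = u k t - U N k t
      rw [hud]
      simp only
      rw [← h1]
      simp
    have e2 : ∑' n : ℕ, M0 * (1 / 2 : ℝ) ^ (n + N) = 2 * M0 * (1 / 2) ^ N := by
      have : (fun n : ℕ => M0 * (1 / 2 : ℝ) ^ (n + N)) = fun n => (M0 * (1 / 2) ^ N) * (1 / 2) ^ n := by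
        funext n; rw [pow_add]; ring
      rw [this, tsum_mul_left, tsum_geometric_two]; ring
    rw [e1, e2] at hv
    exact hv
  -- the equation
  have hall : ∀ N, WB (u - (e + Qo c T G σ R u u)) (4 * M0 * (1 / 2) ^ N) := by
    intro N
    have e1 : u - (e + Qo c T G σ R u u) = (u - U (N + 1)) - (Qo c T G σ R u u - Qo c T G σ R (U N) (U N)) := by
      show _ = (u - (e + Qo c T G σ R (U N) (U N))) - _
      abel
    rw [e1, Qo_diff hR hu (hP N)]
    have h1 := (WB.Q (G := G) hR hσ hc hT (hrem N) hu).add (WB.Q (G := G) hR hσ hc hT (hP N) (hrem N))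
    refine ((hrem (N + 1)).sub h1).mono ?_
    have hp : (0 : ℝ) < (1 / 2) ^ N := by positivity
    rw [← hγd, pow_succ]
    have h2 : (8 * γ * M0) * (M0 * (1 / 2) ^ N) ≤ 1 * (M0 * (1 / 2) ^ N) := by gcongr
    nlinarith
  have hz : u - (e + Qo c T G σ R u u) = 0 := by
    funext k t
    have h1 : Tendsto (fun N : ℕ => 4 * M0 * (1 / 2 : ℝ) ^ N) atTop (𝓝 (4 * M0 * 0)) :=
      (tendsto_pow_atTop_nhds_zero_of_lt_one (by norm_num) (by norm_num)).const_mul _
    rw [mul_zero] at h1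
    exact norm_le_zero_iff.1 (ge_of_tendsto' h1 fun N => (hall N).le k t)
  refine ⟨u, hu, sub_eq_zero.1 hz, hP, fun k t => ?_⟩
  rw [tendsto_iff_norm_sub_tendsto_zero]
  have h1 : Tendsto (fun N : ℕ => 2 * M0 * (1 / 2 : ℝ) ^ N) atTop (𝓝 (2 * M0 * 0)) :=
    (tendsto_pow_atTop_nhds_zero_of_lt_one (by norm_num) (by norm_num)).const_mul _
  rw [mul_zero] at h1
  refine squeeze_zero (fun _ => norm_nonneg _) (fun N => ?_) h1
  rw [norm_sub_rev]
  exact (hrem N).le k t

end Pool.Agent.N980.CB
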