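import Pool.Agent.N980.CB.Ex2

/-!
Solutions on the Fourier side with rapid decay.
-/

open MeasureTheory Set Filter Topology
open scoped ContDiff

set_option linter.unusedVariables false

namespace Pool.Agent.N980.CB

open Pool.Agent.N980.NU
open Pool.Agent.H356R3.NS (K C3 E3 R3 ex SN Sym RD TT SF SFam Fam cf' at' nk pw fj dS Bf dt Duh Dom C0 SymF)

variable {R : ℕ} {G σ c T : ℝ}

/-- Rapidly decaying sequences of vectors. -/
def RV (a : K → C3) : Prop := ∀ m : ℕ, Summable fun k => pw k ^ m * ‖a k‖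

/-- The right hand side. -/
noncomputable def RK (c G σ : ℝ) (R : ℕ) (x : K → C3) (k : K) : C3 :=
  -(c * nk k ^ 2) • x k + Bf x x k + KT G σ R x x k

/-- Solutions on the Fourier side. -/
structure KSol (c G σ : ℝ) (R : ℕ) (T : ℝ) (a : K → C3) (u : Fam) : Prop where
  init : ∀ k, u k 0 = a k
  cont : ∀ k, Continuous (u k)
  dom : ∀ m : ℕ, ∃ b : K → ℝ, (∀ k, 0 ≤ b k) ∧ (Summable fun k => pw k ^ m * b k) ∧ ∀ k t, ‖u k t‖ ≤ b k
  ode : ∀ k, ∀ t ∈ Ioo 0 T, HasDerivAt (u k) (RK c G σ R (at' u t) k) t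
  sym : ∀ t, Sym (at' u t)
  div : ∀ k t, dt k (u k t) = 0

/-- The free evolution. -/
noncomputable def fe (c T : ℝ) (a : K → C3) : Fam := fun k t =>
  Real.exp (-(c * H356R3.NS.sq k * max (min t T) 0)) • a k

theorem fe_le (hc : 0 < c) (a : K → C3) (k : K) (t : ℝ) : ‖fe c T a k t‖ ≤ ‖a k‖ := by
  unfold fe
  rw [norm_smul, Real.norm_of_nonneg (Real.exp_pos _).le]
  refine mul_le_of_le_one_left (norm_nonneg _) ?_
  rw [Real.exp_le_one_iff]
  have h1 := H356R3.NS.sq_nonneg' k
  have h2 : 0 ≤ max (min t T) 0 := le_max_right _ _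
  have : 0 ≤ c * H356R3.NS.sq k * max (min t T) 0 := by positivity
  linarith

theorem fe_WB (hc : 0 < c) {a : K → C3} (ha : RV a) : WB (fe c T a) (Sm 3 fun k => ‖a k‖) := by
  refine ⟨fun k => ?_, fun k => ‖a k‖, fun k => norm_nonneg _, ha 3, le_rfl, fun k t => fe_le hc a k t⟩
  unfold fe
  fun_prop

theorem KT_zero (hR : 2 ≤ R) (x y : K → C3) : KT G σ R x y 0 = 0 := by
  unfold KT
  refine chf_not _ ?_
  rintro ⟨n, h | h⟩
  · exact frq_ne_zero hR n h.symm
  · exact frq_ne_zero hR n (neg_eq_zero.1 h.symm)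

theorem KT_sym (hR : 2 ≤ R) (x y : K → C3) : Sym (KT G σ R x y) := Sym_chf hR _

theorem KT_div (hR : 2 ≤ R) (x y : K → C3) (k : K) : dt k (KT G σ R x y k) = 0 := dt_chf hR _ k

theorem NN_sym (hR : 2 ≤ R) {x : Fam} (h : SymF x) : SymF (NN G σ R x x) := by
  intro t
  have h1 := (H356R3.NS.Bf_sym (h t) (h t)).add (KT_sym (G := G) (σ := σ) hR (at' x t) (at' x t))
  exact h1

theorem dt_Duh {F : Fam} (hF : H356R3.NS.CF F) (h : ∀ k s, dt k (F k s) = 0) (k : K) (t : ℝ) : dt k (Duh c F k t) = 0 := by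
  let L : C3 →L[ℝ] ℂ := ∑ j, ((k j : ℝ) • (ContinuousLinearMap.proj (R := ℝ) (φ := fun _ : Fin 3 => ℂ) j))
  have hL : ∀ v, L v = dt k v := by
    intro v
    simp [L, H356R3.NS.dt]
  rw [← hL]
  unfold H356R3.NS.Duh
  rw [← ContinuousLinearMap.intervalIntegral_comp_comm]
  · have : ∀ s, L (Real.exp (-(c * H356R3.NS.sq k * (max t 0 - s))) • F k s) = 0 := by
      intro s
      rw [map_smul, hL, h, smul_zero]
    simp [this]
  · have := hF k
    exact (by fun_prop : Continuous fun s => Real.exp (-(c * H356R3.NS.sq k * (max t 0 - s))) • F k s).intervalIntegrable _ _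

theorem fe_sym {a : K → C3} (ha : Sym a) : SymF (fe c T a) := by
  intro t k i
  show (Real.exp (-(c * H356R3.NS.sq (-k) * max (min t T) 0)) • a (-k)) i
    = star ((Real.exp (-(c * H356R3.NS.sq k * max (min t T) 0)) • a k) i)
  rw [H356R3.NS.sq_neg, Pi.smul_apply, Pi.smul_apply, star_smul, star_trivial, ha k i]

/-- Boundedness of the Duhamel term by the damping. -/
theorem Duh_damp (hc : 0 < c) {F : Fam} (hF : H356R3.NS.CF F) {k : K} (hk : k ≠ 0) {A : ℝ}
    (h : ∀ s, ‖F k s‖ ≤ A) (t : ℝ) : ‖Duh c F k t‖ ≤ A / (c * nk k ^ 2) := by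
  have hA : 0 ≤ A := (norm_nonneg _).trans (h 0)
  have hn := H356R3.NS.one_le_nk hk
  set μ := c * H356R3.NS.sq k with hμd
  have hμ : 0 < μ := by
    rw [hμd, ← H356R3.NS.nk_sq]; positivity
  have ht : 0 ≤ max t 0 := le_max_right _ _
  obtain ⟨i0, i1, i2⟩ := dint hμ.le ht
  set I := ∫ s in (0 : ℝ)..(max t 0), Real.exp (-(μ * (max t 0 - s))) with hI
  have h1 : ‖Duh c F k t‖ ≤ ∫ s in (0 : ℝ)..(max t 0), A * Real.exp (-(μ * (max t 0 - s))) := by
    unfold H356R3.NS.Duh
    refine intervalIntegral.norm_integral_le_of_norm_le ht (Eventually.of_forall fun s hs => ?_) ?_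
    · rw [norm_smul, Real.norm_of_nonneg (Real.exp_pos _).le, mul_comm]
      exact mul_le_mul_of_nonneg_right (h s) (Real.exp_pos _).le
    · exact (by fun_prop : Continuous fun s => A * Real.exp (-(μ * (max t 0 - s)))).intervalIntegrable _ _
  rw [intervalIntegral.integral_const_mul] at h1
  have e : c * nk k ^ 2 = μ := by rw [hμd, H356R3.NS.nk_sq]
  rw [e, le_div_iff₀ hμ]
  calc ‖Duh c F k t‖ * μ ≤ (A * I) * μ := by gcongr
    _ = A * (μ * I) := by ring
    _ ≤ A * 1 := by gcongr
    _ = A := mul_one _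

/-- Rapid decay of the fixed point. -/
theorem dom_all (hR : 2 ≤ R) (hσ : σ ≤ 3) (hc : 0 < c) {a : K → C3} (ha : RV a) {u : Fam} {M : ℝ}
    (hu : WB u M) (he : u = fe c T a + Qo c T G σ R u u) (m : ℕ) :
    ∃ b : K → ℝ, (∀ k, 0 ≤ b k) ∧ (Summable fun k => pw k ^ (m + 3) * b k) ∧ ∀ k t, ‖u k t‖ ≤ b k := by
  have hpw := H356R3.NS.pw_pos
  induction m with
  | zero =>
    obtain ⟨_, b, b0, hb, _, hub⟩ := hu
    exact ⟨b, b0, hb, hub⟩
  | succ m ih =>
    obtain ⟨b, b0, hb, hub⟩ := ih
    have hb3 : Summable fun k => pw k ^ 3 * b k := by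
      refine hb.of_nonneg_of_le (fun k => mul_nonneg (pow_pos (hpw k) 3).le (b0 k)) fun k => ?_
      have : pw k ^ 3 ≤ pw k ^ (m + 3) := pow_le_pow_right₀ (H356R3.NS.one_le_pw k) (by omega)
      have := b0 k
      gcongr
    have hC0 := H356R3.NS.C0_pos
    have hcf := NN_cf (G := G) (σ := σ) hR hu hu
    set kb : K → ℝ := onl R fun n => 4 * |G| * Sm 3 b * nb R b n with hkb
    have hS := Sm_nonneg 3 b0
    have kb0 : ∀ k, 0 ≤ kb k := onl_nonneg hR fun n => mul_nonneg (by positivity) (nb_nonneg b0 n)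
    obtain ⟨k1, -⟩ := kmaj hR (m + 3) b0 hb (C := 4 * |G| * Sm 3 b) (by positivity)
    obtain ⟨w1, -⟩ := cc_w b0 b0 hb hb
    have ccn := cc_nonneg b0 b0
    set b' : K → ℝ := fun k => ‖a k‖ + 4 / c * (C0 * NU.cc b b k + kb k) * (1 / pw k) with hb'
    have b0' : ∀ k, 0 ≤ b' k := fun k => by
      have := ccn k
      have := kb0 k
      have := hpw k
      simp only [hb']
      positivity
    refine ⟨b', b0', ?_, fun k t => ?_⟩
    · have h1 := ((w1.mul_left (4 / c * C0)).add (k1.mul_left (4 / c)))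
      refine ((ha (m + 1 + 3)).add h1).congr fun k => ?_
      have h2 := (hpw k).ne'
      simp only [hb', hkb]
      have e : pw k ^ (m + 1 + 3) = pw k ^ (m + 3) * pw k := by rw [← pow_succ]
      rw [e]
      field_simp
    · have hN : ∀ s, ‖NN G σ R u u k s‖ ≤ C0 * nk k * NU.cc b b k + kb k := by
        intro s
        unfold NN
        have hxs : SN (at' u s) := hu.dom.sn s
        have e1 := norm_Bf_le hxs hxs k
        have e2 := cc_mono (summ_of_w b0 hb) (summ_of_w b0 hb) (fun _ => norm_nonneg _) (fun _ => norm_nonneg _)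
          (fun k => hub k s) (fun k => hub k s) k
        have e3 := KT_le (G := G) hR hσ b0 hb3 (fun k => hub k s) (fun k => hub k s) k
        have hn := H356R3.NS.nk_nonneg k
        calc ‖Bf (at' u s) (at' u s) k + KT G σ R (at' u s) (at' u s) k‖
            ≤ ‖Bf (at' u s) (at' u s) k‖ + ‖KT G σ R (at' u s) (at' u s) k‖ := norm_add_le _ _
          _ ≤ C0 * nk k * NU.cc b b k + kb k := by
            refine add_le_add (e1.trans ?_) e3
            exact mul_le_mul_of_nonneg_left e2 (mul_nonneg hC0.le hn)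
      have h1 : u k t = fe c T a k t + Qo c T G σ R u u k t := by
        have := congrFun (congrFun he k) t
        exact this
      have h2 : ‖Qo c T G σ R u u k t‖ ≤ 4 / c * (C0 * NU.cc b b k + kb k) * (1 / pw k) := by
        by_cases hk : k = 0
        · subst hk
          have e0 : NN G σ R u u 0 = fun s => 0 := by
            funext s
            unfold NN
            rw [H356R3.NS.Bf_zero, KT_zero hR, add_zero]
          have e1 : Qo c T G σ R u u 0 t = 0 := by
            unfold Qo H356R3.NS.Duh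
            simp [e0]
          rw [e1, norm_zero]
          have := ccn 0
          have := kb0 0
          have := hpw 0
          positivity
        · have h3 := Duh_damp hc hcf hk hN (min t T)
          refine h3.trans ?_
          have hn := H356R3.NS.one_le_nk hk
          have hn0 : 0 < nk k := by linarith
          have hp := pw_le_nk hk
          have hp0 := hpw k
          have h4 : C0 * nk k * NU.cc b b k + kb k ≤ nk k * (C0 * NU.cc b b k + kb k) := by
            have := kb0 k
            nlinarith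
          have h5 : 0 ≤ C0 * NU.cc b b k + kb k := by
            have := ccn k
            have := kb0 k
            positivity
          calc (C0 * nk k * NU.cc b b k + kb k) / (c * nk k ^ 2)
              ≤ nk k * (C0 * NU.cc b b k + kb k) / (c * nk k ^ 2) := by gcongr
            _ = (C0 * NU.cc b b k + kb k) / c * (1 / nk k) := by field_simp
            _ ≤ (C0 * NU.cc b b k + kb k) / c * (4 / pw k) := by
              have : 1 / nk k ≤ 4 / pw k := by
                rw [div_le_div_iff₀ hn0 hp0]; linarith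
              gcongr
            _ = _ := by ring
      rw [h1]
      exact (norm_add_le _ _).trans (add_le_add (fe_le hc a k t) h2)

/-- Existence on the Fourier side. -/
theorem ksol_exists (hR : 2 ≤ R) (hσ : σ ≤ 3) (hc : 0 < c) {a : K → C3} (ha : RV a) (hs : Sym a)
    (hd : ∀ k, dt k (a k) = 0) : ∃ T > 0, ∃ u : Fam, KSol c G σ R T a u := by
  set M0 := Sm 3 fun k => ‖a k‖ with hM0
  obtain ⟨T, hT, hγ⟩ : ∃ T > 0, 8 * gam c T G R * M0 ≤ 1 := by
    have h1 : Continuous fun T : ℝ => 8 * gam c T G R * M0 := by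
      unfold gam
      fun_prop
    have h2 : Tendsto (fun T : ℝ => 8 * gam c T G R * M0) (𝓝[>] 0) (𝓝 (8 * gam c 0 G R * M0)) :=
      (h1.tendsto 0).mono_left nhdsWithin_le_nhds
    have h3 : 8 * gam c 0 G R * M0 = 0 := by unfold gam; simp
    rw [h3] at h2
    obtain ⟨T, h4, h5⟩ := ((h2.eventually (Iic_mem_nhds (by norm_num : (0 : ℝ) < 1))).and self_mem_nhdsWithin).exists
    exact ⟨T, h5, h4⟩
  have hT' : 0 < T := hT
  obtain ⟨u, hu, he, hit, hlim⟩ := fixp (G := G) hR hσ hc hT'.le (fe_WB (T := T) hc ha) hγ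
  -- the iterates
  set U := itr c T G σ R (fe c T a) with hU
  have hsymU : ∀ n, SymF (U n) := by
    intro n
    induction n with
    | zero => intro t k i; simp [hU, itr, at']
    | succ n ih =>
      intro t
      have h1 : SymF (Duh c (NN G σ R (U n) (U n))) :=
        H356R3.NS.Duh_sym (NN_sym hR ih) (NN_cf hR (hit n) (hit n))
      have h2 := (fe_sym (c := c) (T := T) hs t).add (h1 (min t T))
      exact h2
  have hdivU : ∀ n k t, dt k (U n k t) = 0 := by
    intro n
    induction n with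
    | zero => intro k t; simp [hU, itr, H356R3.NS.dt]
    | succ n ih =>
      intro k t
      show dt k (fe c T a k t + Qo c T G σ R (U n) (U n) k t) = 0
      rw [dt_add]
      have e1 : dt k (fe c T a k t) = 0 := by
        unfold fe
        rw [dt_smul, hd, mul_zero]
      have e2 : dt k (Qo c T G σ R (U n) (U n) k t) = 0 := by
        unfold Qo
        refine dt_Duh (NN_cf hR (hit n) (hit n)) (fun k s => ?_) k _
        unfold NN
        rw [dt_add, KT_div hR, add_zero]
        exact H356R3.NS.Bf_div _ _ k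
      rw [e1, e2, add_zero]
  have hcf := NN_cf (G := G) (σ := σ) hR hu hu
  refine ⟨T, hT', u, ?_, hu.1, ?_, ?_, ?_, ?_⟩
  · intro k
    have h1 : u k 0 = fe c T a k 0 + Qo c T G σ R u u k 0 := congrFun (congrFun he k) 0
    rw [h1]
    unfold fe Qo
    rw [min_eq_left hT'.le, H356R3.NS.Duh_at_zero]
    simp
  · intro m
    obtain ⟨b, b0, hb, hub⟩ := dom_all hR hσ hc ha hu he m
    refine ⟨b, b0, ?_, hub⟩
    refine hb.of_nonneg_of_le (fun k => mul_nonneg (pow_pos (H356R3.NS.pw_pos k) m).le (b0 k)) fun k => ?_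
    have : pw k ^ m ≤ pw k ^ (m + 3) := pow_le_pow_right₀ (H356R3.NS.one_le_pw k) (by omega)
    have := b0 k
    gcongr
  · intro k t ht
    have h1 : HasDerivAt (fun t => Real.exp (-(c * H356R3.NS.sq k * t)) • a k + Duh c (NN G σ R u u) k t)
        ((Real.exp (-(c * H356R3.NS.sq k * t)) * -(c * H356R3.NS.sq k)) • a k
          + (-(c * H356R3.NS.sq k) • Duh c (NN G σ R u u) k t + NN G σ R u u k t)) t := by
      have h2 : HasDerivAt (fun u => Real.exp (-(c * H356R3.NS.sq k * u)))
          (Real.exp (-(c * H356R3.NS.sq k * t)) * -(c * H356R3.NS.sq k)) t := by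
        have : HasDerivAt (fun u : ℝ => -(c * H356R3.NS.sq k * u)) (-(c * H356R3.NS.sq k)) t := by
          simpa using ((hasDerivAt_id' t).const_mul (c * H356R3.NS.sq k)).fun_neg
        exact this.exp
      exact (h2.smul_const (a k)).fun_add (H356R3.NS.Duh_hasDeriv hcf c k ht.1)
    have h3 : ∀ s ∈ Ioo 0 T, u k s = Real.exp (-(c * H356R3.NS.sq k * s)) • a k + Duh c (NN G σ R u u) k s := by
      intro s hs
      have h4 : u k s = fe c T a k s + Qo c T G σ R u u k s := congrFun (congrFun he k) s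
      rw [h4]
      unfold fe Qo
      rw [min_eq_left hs.2.le, max_eq_left hs.1.le]
    have h5 : HasDerivAt (u k) ((Real.exp (-(c * H356R3.NS.sq k * t)) * -(c * H356R3.NS.sq k)) • a k
          + (-(c * H356R3.NS.sq k) • Duh c (NN G σ R u u) k t + NN G σ R u u k t)) t := by
      refine h1.congr_of_eventuallyEq ?_
      filter_upwards [Ioo_mem_nhds ht.1 ht.2] with s hs
      exact h3 s hs
    refine h5.congr_deriv ?_
    unfold RK
    have e2 : at' u t k = u k t := rfl
    rw [e2, h3 t ht, H356R3.NS.nk_sq, smul_add, smul_smul, mul_comm (Real.exp _)]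
    unfold NN
    abel
  · intro t k i
    have h1 : Tendsto (fun n => U n (-k) t i) atTop (𝓝 (u (-k) t i)) :=
      ((continuous_apply i).tendsto _).comp (hlim (-k) t)
    have h2 : Tendsto (fun n => star (U n k t i)) atTop (𝓝 (star (u k t i))) :=
      (((continuous_apply i).star).tendsto _).comp (hlim k t)
    refine tendsto_nhds_unique h1 (h2.congr fun n => ?_)
    exact (hsymU n t k i).symm
  · intro k t
    have h1 : Tendsto (fun n => dt k (U n k t)) atTop (𝓝 (dt k (u k t))) := by
      have : Continuous (dt k) := by unfold H356R3.NS.dt; fun_prop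
      exact (this.tendsto _).comp (hlim k t)
    have h2 : (fun n => dt k (U n k t)) = fun _ => 0 := funext fun n => hdivU n k t
    rw [h2] at h1
    exact tendsto_nhds_unique h1 tendsto_const_nhds

end Pool.Agent.N980.CB
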