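import Pool.Agent.N980.CB.Ex3

/-!
Regularity in time of the operator on the Fourier side.
-/

open MeasureTheory Set Filter Topology
open scoped ContDiff

set_option linter.unusedVariables false

namespace Pool.Agent.N980.CB

open Pool.Agent.N980.NU
open Pool.Agent.H356R3.NS (K C3 E3 R3 ex SN Sym RD TT SF SFam Fam cf' at' nk pw fj dS Bf dt dU TT_dU)

variable {R : ℕ} {G σ c T : ℝ}

/-- Rapid decay, uniformly in time. -/
def RTs (R : ℕ) (a : ℕ → ℝ → ℝ) : Prop := ∀ m : ℕ, ∃ C : ℝ, ∀ n t, |a n t| * ((R : ℝ) ^ n) ^ m ≤ C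

/-- `n` times differentiable sequences of functions of time. -/
def TS (R : ℕ) : ℕ → (ℕ → ℝ → ℝ) → Prop
  | 0, a => RTs R a ∧ ∀ j, Continuous (a j)
  | n + 1, a => RTs R a ∧ (∀ j, Continuous (a j)) ∧
      ∃ a' : ℕ → ℝ → ℝ, (∀ j t, 0 < t → HasDerivAt (a j) (a' j t) t) ∧ TS R n a'

theorem TS.rd : ∀ {n : ℕ} {a : ℕ → ℝ → ℝ}, TS R n a → RTs R a
  | 0, _, h => h.1
  | _ + 1, _, h => h.1

theorem TS.ct : ∀ {n : ℕ} {a : ℕ → ℝ → ℝ}, TS R n a → ∀ j, Continuous (a j)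
  | 0, _, h => h.2
  | _ + 1, _, h => h.2.1

theorem TS.pred : ∀ {n : ℕ} {a : ℕ → ℝ → ℝ}, TS R (n + 1) a → TS R n a := by
  intro n
  induction n with
  | zero => intro a h; exact ⟨h.1, h.2.1⟩
  | succ n ih =>
    intro a h
    obtain ⟨h1, h2, c', h3, h4⟩ := h
    exact ⟨h1, h2, c', h3, ih h4⟩

theorem RTs.add {a b : ℕ → ℝ → ℝ} (ha : RTs R a) (hb : RTs R b) : RTs R fun n t => a n t + b n t := by
  intro m
  obtain ⟨C, hC⟩ := ha m
  obtain ⟨D, hD⟩ := hb m
  refine ⟨C + D, fun n t => ?_⟩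
  calc |a n t + b n t| * ((R : ℝ) ^ n) ^ m ≤ (|a n t| + |b n t|) * ((R : ℝ) ^ n) ^ m := by
        gcongr; exact abs_add_le _ _
    _ = |a n t| * ((R : ℝ) ^ n) ^ m + |b n t| * ((R : ℝ) ^ n) ^ m := by ring
    _ ≤ C + D := add_le_add (hC n t) (hD n t)

theorem TS.add {n : ℕ} : ∀ {a b : ℕ → ℝ → ℝ}, TS R n a → TS R n b → TS R n fun j t => a j t + b j t := by
  induction n with
  | zero => intro a b ha hb; exact ⟨ha.1.add hb.1, fun j => (ha.2 j).add (hb.2 j)⟩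
  | succ n ih =>
    intro a b ha hb
    obtain ⟨h1, h2, a', h3, h4⟩ := ha
    obtain ⟨g1, g2, b', g3, g4⟩ := hb
    exact ⟨h1.add g1, fun j => (h2 j).add (g2 j), fun j t => a' j t + b' j t,
      fun j t ht => (h3 j t ht).add (g3 j t ht), ih h4 g4⟩

theorem RTs.mul {a b : ℕ → ℝ → ℝ} (ha : RTs R a) (hb : RTs R b) : RTs R fun n t => a n t * b n t := by
  intro m
  obtain ⟨C, hC⟩ := ha m
  obtain ⟨D, hD⟩ := hb 0
  refine ⟨C * D, fun n t => ?_⟩
  have hD' : |b n t| ≤ D := by simpa using hD n t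
  rw [abs_mul]
  calc |a n t| * |b n t| * ((R : ℝ) ^ n) ^ m = (|a n t| * ((R : ℝ) ^ n) ^ m) * |b n t| := by ring
    _ ≤ C * D := mul_le_mul (hC n t) hD' (abs_nonneg _) ((by positivity : (0:ℝ) ≤ |a n t| * ((R : ℝ) ^ n) ^ m).trans (hC n t))

theorem TS.mul {n : ℕ} : ∀ {a b : ℕ → ℝ → ℝ}, TS R n a → TS R n b → TS R n fun j t => a j t * b j t := by
  induction n with
  | zero => intro a b ha hb; exact ⟨ha.1.mul hb.1, fun j => (ha.2 j).mul (hb.2 j)⟩
  | succ n ih =>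
    intro a b ha hb
    have ha0 := ha.pred
    have hb0 := hb.pred
    obtain ⟨h1, h2, a', h3, h4⟩ := ha
    obtain ⟨g1, g2, b', g3, g4⟩ := hb
    exact ⟨h1.mul g1, fun j => (h2 j).mul (g2 j), fun j t => a' j t * b j t + a j t * b' j t,
      fun j t ht => (h3 j t ht).mul (g3 j t ht), (ih h4 hb0).add (ih ha0 g4)⟩

theorem RTs.cmul {κ : ℕ → ℝ} {C0 : ℝ} {r : ℕ} (hκ : ∀ n, |κ n| ≤ C0 * ((R : ℝ) ^ n) ^ r) {a : ℕ → ℝ → ℝ}
    (ha : RTs R a) : RTs R fun n t => κ n * a n t := by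
  intro m
  obtain ⟨D, hD⟩ := ha (m + r)
  have hC : 0 ≤ C0 := by
    have := (abs_nonneg _).trans (hκ 0)
    simpa using this
  refine ⟨C0 * D, fun n t => ?_⟩
  rw [abs_mul]
  calc |κ n| * |a n t| * ((R : ℝ) ^ n) ^ m ≤ (C0 * ((R : ℝ) ^ n) ^ r) * |a n t| * ((R : ℝ) ^ n) ^ m := by
        gcongr; exact hκ n
    _ = C0 * (|a n t| * ((R : ℝ) ^ n) ^ (m + r)) := by rw [pow_add]; ring
    _ ≤ C0 * D := by gcongr; exact hD n t

theorem TS.cmul {κ : ℕ → ℝ} {C0 : ℝ} {r : ℕ} (hκ : ∀ n, |κ n| ≤ C0 * ((R : ℝ) ^ n) ^ r) {n : ℕ} :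
    ∀ {a : ℕ → ℝ → ℝ}, TS R n a → TS R n fun j t => κ j * a j t := by
  induction n with
  | zero => intro a ha; exact ⟨ha.1.cmul hκ, fun j => continuous_const.mul (ha.2 j)⟩
  | succ n ih =>
    intro a ha
    obtain ⟨h1, h2, a', h3, h4⟩ := ha
    exact ⟨h1.cmul hκ, fun j => continuous_const.mul (h2 j), fun j t => κ j * a' j t,
      fun j t ht => (h3 j t ht).const_mul _, ih h4⟩

theorem RTs.succ (hR : 2 ≤ R) {a : ℕ → ℝ → ℝ} (ha : RTs R a) : RTs R fun n t => a (n + 1) t := by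
  intro m
  obtain ⟨C, hC⟩ := ha m
  refine ⟨C, fun n t => le_trans ?_ (hC (n + 1) t)⟩
  have h1 : (R : ℝ) ^ n ≤ (R : ℝ) ^ (n + 1) :=
    pow_le_pow_right₀ (by exact_mod_cast (by omega : 1 ≤ R)) (by omega)
  have h2 := R_pos hR n
  gcongr

theorem TS.succ (hR : 2 ≤ R) {n : ℕ} : ∀ {a : ℕ → ℝ → ℝ}, TS R n a → TS R n fun j t => a (j + 1) t := by
  induction n with
  | zero => intro a ha; exact ⟨ha.1.succ hR, fun j => ha.2 (j + 1)⟩
  | succ n ih =>
    intro a ha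
    obtain ⟨h1, h2, a', h3, h4⟩ := ha
    exact ⟨h1.succ hR, fun j => h2 (j + 1), fun j t => a' (j + 1) t, fun j t ht => h3 (j + 1) t ht, ih h4⟩

/-- The sequence shifted down. -/
def dn (a : ℕ → ℝ → ℝ) : ℕ → ℝ → ℝ
  | 0, _ => 0
  | n + 1, t => a n t

theorem RTs.dn (hR : 2 ≤ R) {a : ℕ → ℝ → ℝ} (ha : RTs R a) : RTs R (dn a) := by
  intro m
  obtain ⟨C, hC⟩ := ha m
  have hC0 : 0 ≤ C := le_trans (by positivity) (hC 0 0)
  refine ⟨C * (R : ℝ) ^ m, fun n t => ?_⟩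
  cases n with
  | zero =>
    simp only [CB.dn, abs_zero, zero_mul]
    positivity
  | succ n =>
    show |a n t| * ((R : ℝ) ^ (n + 1)) ^ m ≤ _
    calc |a n t| * ((R : ℝ) ^ (n + 1)) ^ m = |a n t| * ((R : ℝ) ^ n) ^ m * (R : ℝ) ^ m := by
          rw [pow_succ, mul_pow]; ring
      _ ≤ C * (R : ℝ) ^ m := by gcongr; exact hC n t

theorem TS.dn (hR : 2 ≤ R) {n : ℕ} : ∀ {a : ℕ → ℝ → ℝ}, TS R n a → TS R n (dn a) := by
  induction n with
  | zero =>
    intro a ha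
    refine ⟨ha.1.dn hR, fun j => ?_⟩
    cases j with
    | zero => exact continuous_const
    | succ j => exact ha.2 j
  | succ n ih =>
    intro a ha
    obtain ⟨h1, h2, a', h3, h4⟩ := ha
    refine ⟨h1.dn hR, fun j => ?_, CB.dn a', fun j t ht => ?_, ih h4⟩
    · cases j with
      | zero => exact continuous_const
      | succ j => exact h2 j
    · cases j with
      | zero => exact hasDerivAt_const _ _
      | succ j => exact h3 j t ht

/-- From Fourier families to sequences. -/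
theorem TS_of_TT (hR : 2 ≤ R) {n : ℕ} : ∀ {d : SFam}, TT n d → TS R n fun j t => (d (frq R j) t).re := by
  have hrt : ∀ {d : SFam}, RD d → RTs R fun j t => (d (frq R j) t).re := by
    intro d hd m
    obtain ⟨b, hb, h⟩ := hd m
    have hb0 : ∀ k, 0 ≤ b k := fun k =>
      (mul_nonneg (pow_pos (H356R3.NS.pw_pos k) m).le (norm_nonneg _)).trans (h k 0)
    refine ⟨∑' k, b k, fun j t => ?_⟩
    have h1 := R_pos hR j
    calc |(d (frq R j) t).re| * ((R : ℝ) ^ j) ^ m ≤ ‖d (frq R j) t‖ * pw (frq R j) ^ m := by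
          have := Complex.abs_re_le_norm (d (frq R j) t)
          have := Rn_le_pw (R := R) j
          gcongr
      _ = pw (frq R j) ^ m * ‖d (frq R j) t‖ := by ring
      _ ≤ b (frq R j) := h _ t
      _ ≤ ∑' k, b k := hb.le_tsum _ fun k _ => hb0 k
  induction n with
  | zero =>
    intro d hd
    exact ⟨hrt hd.1, fun j => Complex.continuous_re.comp (hd.2 _)⟩
  | succ n ih =>
    intro d hd
    obtain ⟨h1, h2, d', h3, h4⟩ := hd
    exact ⟨hrt h1, fun j => Complex.continuous_re.comp (h2 _), fun j t => (d' (frq R j) t).re,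
      fun j t ht => Complex.reCLM.hasFDerivAt.comp_hasDerivAt t (h3 (frq R j) t ht), ih h4⟩

theorem RD_onl_t (hR : 2 ≤ R) {a : ℕ → ℝ → ℝ} (h : RTs R a) :
    RD fun k t => ((onl R (fun j => a j t) k : ℝ) : ℂ) := by
  intro m
  obtain ⟨C, hC⟩ := h (m + 1)
  have hC0 : 0 ≤ C := le_trans (by positivity) (hC 0 0)
  have h1 : Summable fun n => 2 ^ m * (C / (R : ℝ) ^ n) := (summ_inv hR C).mul_left _
  refine ⟨onl R fun n => 2 ^ m * (C / (R : ℝ) ^ n), summable_onl hR h1, fun k t => ?_⟩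
  show pw k ^ m * ‖((onl R (fun j => a j t) k : ℝ) : ℂ)‖ ≤ _
  by_cases hk : lv R k
  · obtain ⟨n, hn⟩ := hk
    rw [onl_lv hR _ hn, onl_lv hR _ hn, Complex.norm_real, Real.norm_eq_abs]
    have hp : pw k ≤ 2 * (R : ℝ) ^ n := by
      have h2 : pw k = 1 + (R : ℝ) ^ n := by
        rcases hn with hn | hn
        · rw [hn, pw_frq]
        · rw [hn, pw_neg, pw_frq]
      rw [h2]
      linarith [one_le_R hR n]
    have hp0 := (H356R3.NS.pw_pos k).le
    have h3 : |a n t| * ((R : ℝ) ^ n) ^ m ≤ C / (R : ℝ) ^ n := by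
      rw [le_div_iff₀ (R_pos hR n)]
      have := hC n t
      rw [pow_succ] at this
      linarith
    calc pw k ^ m * |a n t| ≤ (2 * (R : ℝ) ^ n) ^ m * |a n t| := by gcongr
      _ = 2 ^ m * (|a n t| * ((R : ℝ) ^ n) ^ m) := by rw [mul_pow]; ring
      _ ≤ 2 ^ m * (C / (R : ℝ) ^ n) := by gcongr
  · rw [onl_not _ hk, onl_not _ hk]
    simp

/-- From sequences to Fourier families. -/
theorem TT_of_TS (hR : 2 ≤ R) {n : ℕ} : ∀ {a : ℕ → ℝ → ℝ}, TS R n a →
    TT n fun k t => ((onl R (fun j => a j t) k : ℝ) : ℂ) := by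
  have hct : ∀ {a : ℕ → ℝ → ℝ}, (∀ j, Continuous (a j)) →
      ∀ k, Continuous fun t => ((onl R (fun j => a j t) k : ℝ) : ℂ) := by
    intro a ha k
    by_cases hk : lv R k
    · obtain ⟨n, hn⟩ := hk
      have e : (fun t => ((onl R (fun j => a j t) k : ℝ) : ℂ)) = fun t => ((a n t : ℝ) : ℂ) := by
        funext t; rw [onl_lv hR _ hn]
      rw [e]
      exact Complex.continuous_ofReal.comp (ha n)
    · have e : (fun t => ((onl R (fun j => a j t) k : ℝ) : ℂ)) = fun t => 0 := by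
        funext t; rw [onl_not _ hk]; simp
      rw [e]
      exact continuous_const
  induction n with
  | zero => intro a ha; exact ⟨RD_onl_t hR ha.1, hct ha.2⟩
  | succ n ih =>
    intro a ha
    obtain ⟨h1, h2, a', h3, h4⟩ := ha
    refine ⟨RD_onl_t hR h1, hct h2, _, fun k t ht => ?_, ih h4⟩
    by_cases hk : lv R k
    · obtain ⟨n, hn⟩ := hk
      have e : (fun t => ((onl R (fun j => a j t) k : ℝ) : ℂ)) = fun t => ((a n t : ℝ) : ℂ) := by
        funext t; rw [onl_lv hR _ hn]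
      show HasDerivAt (fun t => ((onl R (fun j => a j t) k : ℝ) : ℂ)) ((onl R (fun j => a' j t) k : ℝ) : ℂ) t
      rw [e, onl_lv hR _ hn]
      exact (h3 n t ht).ofReal_comp
    · have e : (fun t => ((onl R (fun j => a j t) k : ℝ) : ℂ)) = fun t => 0 := by
        funext t; rw [onl_not _ hk]; simp
      show HasDerivAt (fun t => ((onl R (fun j => a j t) k : ℝ) : ℂ)) ((onl R (fun j => a' j t) k : ℝ) : ℂ) t
      rw [e, onl_not _ hk]
      simpa using hasDerivAt_const t (0 : ℂ)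

/-- Smoothness in time of the operator. -/
theorem TS_kq (hR : 2 ≤ R) (hσ : σ ≤ 3) {u : Fam} {n : ℕ} (h : ∀ i, TT n (cf' u i)) :
    TS R n fun j t => kq (rt G σ R (yn R (at' u t))) (yn R (at' u t)) j := by
  have hy : TS R n fun j t => yn R (at' u t) j := by
    have := TS.cmul (R := R) (κ := fun _ => Real.sqrt 2) (C0 := Real.sqrt 2) (r := 0)
      (fun n => by simp [abs_of_pos sqrt2_pos]) (TS_of_TT hR (h 2))
    exact this
  have hκ : ∀ n : ℕ, |G * ((R : ℝ) ^ n) ^ σ| ≤ |G| * ((R : ℝ) ^ n) ^ 3 := by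
    intro n
    have r1 := one_le_R hR n
    have p0 : 0 ≤ ((R : ℝ) ^ n) ^ σ := by positivity
    rw [abs_mul, abs_of_nonneg p0]
    have e1 : ((R : ℝ) ^ n) ^ σ ≤ ((R : ℝ) ^ n) ^ 3 := by
      rw [← Real.rpow_natCast ((R : ℝ) ^ n) 3]
      exact Real.rpow_le_rpow_of_exponent_le r1 (by push_cast; exact hσ)
    gcongr
  have hδ : ∀ n : ℕ, |Real.exp (-((R : ℝ) ^ σ / 1250))| ≤ Real.exp (-((R : ℝ) ^ σ / 1250)) * ((R : ℝ) ^ n) ^ 0 := by
    intro n
    rw [abs_of_pos (Real.exp_pos _), pow_zero, mul_one]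
  have hF : TS R n fun j t => rt G σ R (yn R (at' u t)) j :=
    TS.cmul (κ := fun n => G * ((R : ℝ) ^ n) ^ σ) hκ ((TS.cmul hδ hy).add (TS.succ hR hy))
  have h1 : TS R n (dn fun j t => rt G σ R (yn R (at' u t)) j * yn R (at' u t) j) := TS.dn hR (hF.mul hy)
  have h2 := hF.mul (TS.succ hR hy)
  have h3 : TS R n fun j t => (-1) * (rt G σ R (yn R (at' u t)) j * yn R (at' u t) (j + 1)) :=
    TS.cmul (κ := fun _ => -1) (C0 := 1) (r := 0) (fun n => by simp) h2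
  have h4 := h1.add h3
  have e : (fun j t => kq (rt G σ R (yn R (at' u t))) (yn R (at' u t)) j)
      = fun j t => dn (fun j t => rt G σ R (yn R (at' u t)) j * yn R (at' u t) j) j t
        + (-1) * (rt G σ R (yn R (at' u t)) j * yn R (at' u t) (j + 1)) := by
    funext j t
    cases j with
    | zero => simp only [kq, pre, dn]; ring
    | succ j => simp only [kq, pre, dn]; ring
  rw [e]
  exact h4

theorem TT_KT (hR : 2 ≤ R) (hσ : σ ≤ 3) {u : Fam} {n : ℕ} (h : ∀ i, TT n (cf' u i)) (i : Fin 3) :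
    TT n fun k t => KT G σ R (at' u t) (at' u t) k i := by
  have hz : TT n fun (k : K) (t : ℝ) => (0 : ℂ) := by
    have := TT.mul (n := n) (p := fun _ => 0) (C := 0) (r := 0) (fun k => by simp) (h 0)
    simpa using this
  fin_cases i
  · exact hz
  · exact hz
  · have h1 := TS.cmul (R := R) (κ := fun _ => 1 / Real.sqrt 2) (C0 := 1 / Real.sqrt 2) (r := 0)
      (fun n => by simp [abs_of_pos sqrt2_pos]) (TS_kq (G := G) hR hσ h)
    have h2 := TT_of_TS hR h1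
    have e : (fun k t => KT G σ R (at' u t) (at' u t) k ((fun i => i) (⟨2, by decide⟩ : Fin 3)))
        = fun k t => ((onl R (fun j => 1 / Real.sqrt 2 * kq (rt G σ R (yn R (at' u t))) (yn R (at' u t)) j) k : ℝ) : ℂ) := by
      funext k t
      show ((onl R (fun n => kq (rt G σ R (yn R (at' u t))) (yn R (at' u t)) n / Real.sqrt 2) k : ℝ) : ℂ) = _
      congr 2
      funext j
      ring
    rw [e]
    exact h2

/-- The right hand side as a family. -/
noncomputable def RKf (c G σ : ℝ) (R : ℕ) (u : Fam) (i : Fin 3) : SFam := fun k t =>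
  dU c u i k t + KT G σ R (at' u t) (at' u t) k i

theorem RKf_eq (c G σ : ℝ) (R : ℕ) (u : Fam) (i : Fin 3) (k : K) (t : ℝ) :
    RKf c G σ R u i k t = RK c G σ R (at' u t) k i := by
  unfold RKf RK
  rw [Pi.add_apply, Pi.add_apply]
  congr 1
  unfold H356R3.NS.dU Bf H356R3.NS.cvv H356R3.NS.cv at'
  rw [Pi.smul_apply, Complex.real_smul, ← H356R3.NS.nk_sq]
  push_cast
  ring

theorem TT_RKf (hR : 2 ≤ R) (hσ : σ ≤ 3) (c : ℝ) {u : Fam} {n : ℕ} (h : ∀ i, TT n (cf' u i)) (i : Fin 3) :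
    TT n (RKf c G σ R u i) := (TT_dU h i).add (TT_KT hR hσ h i)

variable {a : K → C3} {u : Fam}

theorem KSol.CC_deriv (h : KSol c G σ R T a u) (hT : 0 < T) (i : Fin 3) (k : K) {τ : ℝ} (hτ : 0 < τ) :
    HasDerivAt (cf' (CC 0 T u) i k) (((T - 0 : ℝ) : ℂ) * ((ed τ : ℂ) * RKf c G σ R (CC 0 T u) i k τ)) τ := by
  have hm := tc_mem' hT hτ
  have hd := h.ode k (tc 0 T τ) hm
  have hd2 := HasDerivAt.scomp τ hd (tc_deriv 0 T hτ)
  have hd3 := hasDerivAt_pi.1 hd2 i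
  refine hd3.congr_deriv ?_
  rw [RKf_eq, Pi.smul_apply, Complex.real_smul]
  push_cast
  rw [mul_assoc]
  rfl

theorem KSol.CC_TT (h : KSol c G σ R T a u) (hR : 2 ≤ R) (hσ : σ ≤ 3) (hT : 0 < T) (n : ℕ) :
    ∀ i, TT n (cf' (CC 0 T u) i) := by
  have hrd : ∀ i, RD (cf' (CC 0 T u) i) := by
    intro i m
    obtain ⟨b, b0, hb, hub⟩ := h.dom m
    refine ⟨_, hb, fun k τ => ?_⟩
    have := (norm_le_pi_norm (u k (tc 0 T τ)) i).trans (hub k (tc 0 T τ))
    exact mul_le_mul_of_nonneg_left this (pow_pos (H356R3.NS.pw_pos k) m).le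
  have hct : ∀ i k, Continuous (cf' (CC 0 T u) i k) := by
    intro i k
    exact (continuous_apply i).comp ((h.cont k).comp (tc_cont 0 T))
  induction n with
  | zero => intro i; exact ⟨hrd i, hct i⟩
  | succ n ih =>
    intro i
    refine ⟨hrd i, hct i, _, fun k τ hτ => h.CC_deriv hT i k hτ, ?_⟩
    exact TT.mul (p := fun _ => ((T - 0 : ℝ) : ℂ)) (C := |T - 0|) (r := 0)
      (fun k => by rw [Complex.norm_real, Real.norm_eq_abs]; simp) (TT.ed (TT_RKf hR hσ c ih i))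

end Pool.Agent.N980.CB
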