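import Pool.Agent.N980.CB.Ex4
import Pool.Agent.N980.NU.Phy

/-!
Local existence of smooth solutions.
-/

open MeasureTheory Set Filter Topology
open scoped ContDiff

set_option linter.unusedVariables false

namespace Pool.Agent.N980.CB

open Pool.Agent.N980.NU
open Pool.Agent.H356R3.NS (K C3 E3 R3 ex SN Sym RD TT SF SFam Fam cf' at' nk pw fj dS Bf dt dU cvv PF Ph Dm')

variable {R : ℕ} {G σ ν c T : ℝ} {a : K → C3} {u : Fam}

theorem ti_nonneg {T t : ℝ} (h1 : 0 ≤ t) (h2 : t < T) : 0 ≤ ti 0 T t := by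
  unfold ti
  rw [neg_nonneg]
  apply Real.log_nonpos
  · exact div_nonneg (by linarith) (by linarith)
  · rw [div_le_one (by linarith)]; linarith

theorem tc_ti' {T t : ℝ} (h1 : 0 ≤ t) (h2 : t < T) : tc 0 T (ti 0 T t) = t := by
  have hT : 0 < T := by linarith
  have e : ed (ti 0 T t) = (T - t) / (T - 0) := by
    unfold ed
    rw [max_eq_left (ti_nonneg h1 h2)]
    unfold ti
    rw [neg_neg, Real.exp_log (div_pos (by linarith) (by linarith))]
  unfold tc
  rw [e]
  have : T - 0 ≠ 0 := by linarith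
  field_simp
  ring

theorem ti_smooth' {T : ℝ} (hT : 0 < T) : ContDiffOn ℝ ∞ (ti 0 T) (Ico 0 T) := by
  unfold ti
  refine ContDiffOn.neg (ContDiffOn.log ?_ ?_)
  · exact (contDiff_const.sub contDiff_id).contDiffOn.div_const _
  · intro t ht
    exact (div_pos (by linarith [ht.2]) (by linarith)).ne'

theorem KSol.rd (h : KSol c G σ R T a u) (t : ℝ) (i : Fin 3) : RD (cst fun k => u k t i) := by
  intro m
  obtain ⟨b, b0, hb, hub⟩ := h.dom m
  refine ⟨_, hb, fun k s => ?_⟩
  have := (norm_le_pi_norm (u k t) i).trans (hub k t)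
  exact mul_le_mul_of_nonneg_left this (pow_pos (H356R3.NS.pw_pos k) m).le

theorem KSol.sn (h : KSol c G σ R T a u) (t : ℝ) : SN (at' u t) := by
  obtain ⟨b, b0, hb, hub⟩ := h.dom 0
  refine hb.of_nonneg_of_le (fun _ => norm_nonneg _) fun k => ?_
  rw [pow_zero, one_mul]
  exact hub k t

theorem KSol.real (h : KSol c G σ R T a u) (t : ℝ) (i : Fin 3) (x : V) :
    ((UU u t x i : ℝ) : ℂ) = fs (fun k => u k t i) x := by
  have h1 : (fs (fun k => u k t i) x).im = 0 := by
    rw [fs_SF]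
    exact H356R3.NS.SF_real (c := cst fun k => u k t i) (fun k s => h.sym t k i) _
  apply Complex.ext
  · rfl
  · rw [h1]; simp

theorem KSol.fco (h : KSol c G σ R T a u) (t : ℝ) : NU.fco (UU u t) = at' u t := by
  funext k i
  exact fco_fs (a := at' u t) (h.sn t) (h.sym t) k i

theorem KSol.spv (h : KSol c G σ R T a u) (t : ℝ) : SPV (UU u t) := by
  refine ⟨contDiff_pi.2 fun i => fs_smooth (h.rd t i), fun x j => ?_⟩
  funext i
  unfold UU
  rw [fs_per]

theorem KSol.KK (h : KSol c G σ R T a u) (hR : 2 ≤ R) (t : ℝ) (x : V) (i : Fin 3) :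
    CB.KK G σ R (UU u t) (UU u t) x i = (fs (fun k => KT G σ R (at' u t) (at' u t) k i) x).re := by
  have e : cs R (UU u t) = yn R (at' u t) := by
    funext n
    show cx (R ^ n) (UU u t) = _
    rw [cx_eq (h.spv t).cont, h.fco t]
    rfl
  rw [KK_eq hR (h.spv t) (h.spv t), e]
  rfl

/-- Joint smoothness up to the initial time. -/
theorem KSol.smooth_on (h : KSol c G σ R T a u) (hR : 2 ≤ R) (hσ : σ ≤ 3) (hT : 0 < T) :
    (ContDiffOn ℝ ∞ (fun z : ℝ × V => UU u z.1 z.2) (Ico 0 T ×ˢ univ)) ∧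
      ContDiffOn ℝ ∞ (fun z : ℝ × V => PP u z.1 z.2) (Ico 0 T ×ˢ univ) := by
  have key : ∀ (F : ℝ × V → ℂ) (g : ℝ × V → ℝ), ContDiffOn ℝ ∞ F (Ici 0 ×ˢ univ) →
      (∀ t ∈ Ico 0 T, ∀ x, g (t, x) = (F (ti 0 T t, x)).re) → ContDiffOn ℝ ∞ g (Ico 0 T ×ˢ univ) := by
    intro F g hF hg
    have hcomp : ContDiffOn ℝ ∞ (fun z : ℝ × V => (F (ti 0 T z.1, z.2)).re) (Ico 0 T ×ˢ univ) := by
      refine Complex.reCLM.contDiff.comp_contDiffOn (hF.comp (t := Ici 0 ×ˢ univ)
        (ContDiffOn.prodMk ?_ contDiff_snd.contDiffOn) fun z hz => ⟨ti_nonneg hz.1.1 hz.1.2, mem_univ _⟩)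
      exact (ti_smooth' hT).comp contDiff_fst.contDiffOn fun z hz => hz.1
    exact hcomp.congr fun z hz => hg z.1 hz.1 z.2
  constructor
  · rw [contDiffOn_pi]
    intro i
    refine key (SF (cf' (CC 0 T u) i)) (fun z => UU u z.1 z.2 i)
      (H356R3.NS.SF_contDiffOn fun n => h.CC_TT hR hσ hT n i) fun t ht x => ?_
    show (fs (fun k => u k t i) x).re = (∑' k, u k (tc 0 T (ti 0 T t)) i * ex k x).re
    rw [tc_ti' ht.1 ht.2]; rfl
  · refine key (SF (PF (CC 0 T u))) (fun z => PP u z.1 z.2)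
      (H356R3.NS.SF_contDiffOn fun n => H356R3.NS.TT_PF fun i => h.CC_TT hR hσ hT n i) fun t ht x => ?_
    show (fs (fun k => PF u k t) x).re = (∑' k, PF u k (tc 0 T (ti 0 T t)) * ex k x).re
    rw [tc_ti' ht.1 ht.2]; rfl

/-- The time derivative. -/
theorem KSol.time_deriv (h : KSol c G σ R T a u) (hR : 2 ≤ R) (hσ : σ ≤ 3) {t : ℝ} (ht : t ∈ Ioo 0 T)
    (x : V) (i : Fin 3) : HasDerivAt (fun s => UU u s x i)
      (fs (fun k => RK c G σ R (at' u t) k i) x).re t := by
  have hT : 0 < T := ht.1.trans ht.2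
  set C := CC 0 T u with hC
  set τ := ti 0 T t with hτ
  have hτ0 : 0 < τ := ti_pos ht.1 ht.2
  have hTT := h.CC_TT hR hσ hT
  set c' : SFam := fun k τ => ((T - 0 : ℝ) : ℂ) * ((ed τ : ℂ) * RKf c G σ R C i k τ) with hc'
  have hTT' : TT 0 c' :=
    TT.mul (p := fun _ => ((T - 0 : ℝ) : ℂ)) (C := |T - 0|) (r := 0)
      (fun k => by rw [Complex.norm_real, Real.norm_eq_abs]; simp) (TT.ed (TT_RKf hR hσ c (hTT 0) i))
  have hF := H356R3.NS.SF_hasFDerivAt (c := cf' C i) (c' := c') (hTT 0 i).rd hTT'.rd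
    (fun k s hs => h.CC_deriv hT i k hs) (p := (τ, x)) ⟨hτ0, mem_univ _⟩
  have hcurve : HasDerivAt (fun s : ℝ => ((ti 0 T s, x) : ℝ × V)) (1 / (T - t), 0) t :=
    (ti_deriv ht.1 ht.2).prodMk (hasDerivAt_const t x)
  have h3 := HasFDerivAt.comp_hasDerivAt t hF hcurve
  have h4 := Complex.reCLM.hasFDerivAt.comp_hasDerivAt t h3
  have h5 : HasDerivAt (fun s => UU u s x i) (Complex.reCLM ((Ph (SF c' (τ, x)) fun j =>
      SF (dS j (cf' C i)) (τ, x)) (1 / (T - t), 0))) t := by
    refine h4.congr_of_eventuallyEq ?_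
    filter_upwards [Ioo_mem_nhds ht.1 ht.2] with s hs
    show (fs (fun k => u k s i) x).re = (∑' k, u k (tc 0 T (ti 0 T s)) i * ex k x).re
    rw [tc_ti hs.1 hs.2]; rfl
  refine h5.congr_deriv ?_
  rw [H356R3.NS.Ph_apply]
  have hSF : SF c' (τ, x) = (((T - 0) * ed τ : ℝ) : ℂ) * fs (fun k => RK c G σ R (at' u t) k i) x := by
    unfold SF fs
    rw [← tsum_mul_left]
    refine tsum_congr fun k => ?_
    simp only [hc', RKf_eq]
    have : at' C τ = at' u t := by
      funext k
      show u k (tc 0 T (ti 0 T t)) = u k t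
      rw [tc_ti ht.1 ht.2]
    rw [this]
    push_cast
    ring
  rw [hSF, hτ, ed_ti ht.1 ht.2]
  have h6 : (T - 0) * ((T - t) / (T - 0)) * (1 / (T - t)) = 1 := by
    have : T - 0 ≠ 0 := by linarith
    have : T - t ≠ 0 := by linarith [ht.2]
    field_simp
  simp only [Pi.zero_apply, Complex.ofReal_zero, mul_zero, Finset.sum_const_zero, add_zero,
    Complex.reCLM_apply]
  rw [mul_comm (((((T - 0) * ((T - t) / (T - 0)) : ℝ)) : ℂ)) _, mul_assoc, ← Complex.ofReal_mul, h6]
  simp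

/-- The momentum equation. -/
theorem KSol.momentum (h : KSol (4 * Real.pi ^ 2 * ν) G σ R T a u) (hR : 2 ≤ R) (hσ : σ ≤ 3) {t : ℝ}
    (ht : t ∈ Ioo 0 T) (x : V) (i : Fin 3) :
    deriv (fun s => UU u s x i) t + ∑ j, UU u t x j * pd j (fun y => UU u t y i) x
      = ν * lap (UU u t) x i - pd i (PP u t) x + CB.KK G σ R (UU u t) (UU u t) x i := by
  set c := 4 * Real.pi ^ 2 * ν with hcd
  rw [(h.time_deriv hR hσ ht x i).deriv]
  set A : Fam := fun k _ => u k t with hA
  have hAr : ∀ i, RD (cf' A i) := fun i => h.rd t i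
  have hAT : ∀ n i, TT n (cf' A i) := fun n i => TT_cst (h.rd t i) n
  have hdiv : ∀ k s, dt k (A k s) = 0 := fun k s => h.div k t
  have hPF : RD (cst fun k => PF u k t) := by
    have : TT 0 (PF A) := H356R3.NS.TT_PF (hAT 0)
    intro m
    obtain ⟨b, hb, hbd⟩ := this.rd m
    exact ⟨b, hb, fun k s => hbd k 0⟩
  have e1 : ∀ j, pd j (fun y => UU u t y i) = fun x => (fs (fun k => fj k j * u k t i) x).re := fun j =>
    funext fun x => pd_fs (h.rd t i) j x
  have e2 : lap (UU u t) x i = (fs (fun k => ∑ j, fj k j * (fj k j * u k t i)) x).re := by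
    unfold NU.lap
    simp only [e1]
    simp only [pd_fs (RD_fj (h.rd t i) _)]
    rw [← Complex.re_sum, ← fs_finsum Finset.univ (a := fun j k => fj k j * (fj k j * u k t i))
      (fun j _ => RD_summ (RD_fj (RD_fj (h.rd t i) j) j))]
  have e3 : pd i (PP u t) x = (fs (fun k => fj k i * PF u k t) x).re := pd_fs hPF i x
  have e4 := h.KK hR t x i
  rw [e2, e3, e4]
  simp only [e1]
  have hdS : ∀ j, RD (dS j (cf' A i)) := fun j => (hAr i).mul fun k => H356R3.NS.norm_fj_le k j
  have hcv : ∀ j, RD (cvv (cf' A j) (dS j (cf' A i))) := fun j => (hAr j).conv (hdS j)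
  have m1 : ∀ j, fs (fun k => u k t j) x * fs (fun k => fj k j * u k t i) x
      = fs (fun k => cvv (cf' A j) (dS j (cf' A i)) k 0) x := by
    intro j
    exact H356R3.NS.SF_mul (c := cf' A j) (d := dS j (cf' A i)) (hAr j) (hdS j) (0, x)
  have hreal1 : ∀ j, ((UU u t x j : ℝ) : ℂ) = fs (fun k => u k t j) x := fun j => h.real t j x
  have m2 : ∀ j, UU u t x j * (fs (fun k => fj k j * u k t i) x).re
      = (fs (fun k => cvv (cf' A j) (dS j (cf' A i)) k 0) x).re := by
    intro j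
    rw [← m1 j, ← hreal1 j, Complex.re_ofReal_mul]
  simp only [m2]
  rw [← Complex.re_sum, ← fs_finsum Finset.univ (a := fun j k => cvv (cf' A j) (dS j (cf' A i)) k 0)
    (fun j _ => (by
      obtain ⟨b, hb, hbd⟩ := (hcv j).summ
      exact hb.of_nonneg_of_le (fun _ => norm_nonneg _) fun k => hbd k 0))]
  have s1 : Summable fun k => ‖RK c G σ R (at' u t) k i‖ := by
    have h1 : TT 0 (RKf c G σ R A i) := TT_RKf hR hσ c (hAT 0) i
    obtain ⟨b, hb, hbd⟩ := h1.rd.summ
    refine hb.of_nonneg_of_le (fun _ => norm_nonneg _) fun k => ?_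
    have := hbd k 0
    rwa [RKf_eq] at this
  have s2 : Summable fun k => ‖∑ j, cvv (cf' A j) (dS j (cf' A i)) k 0‖ := by
    refine (summable_sum fun j (_ : j ∈ Finset.univ) => ?_ : Summable fun k => ∑ j,
      ‖cvv (cf' A j) (dS j (cf' A i)) k 0‖).of_nonneg_of_le (fun _ => norm_nonneg _) fun k => norm_sum_le _ _
    obtain ⟨b, hb, hbd⟩ := (hcv j).summ
    exact hb.of_nonneg_of_le (fun _ => norm_nonneg _) fun k => hbd k 0
  have s3 : Summable fun k => ‖∑ j, fj k j * (fj k j * u k t i)‖ := by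
    refine (summable_sum fun j (_ : j ∈ Finset.univ) => ?_ : Summable fun k => ∑ j,
      ‖fj k j * (fj k j * u k t i)‖).of_nonneg_of_le (fun _ => norm_nonneg _) fun k => norm_sum_le _ _
    exact RD_summ (RD_fj (RD_fj (h.rd t i) j) j)
  have s4 : Summable fun k => ‖fj k i * PF u k t‖ := RD_summ (RD_fj hPF i)
  have s5 : Summable fun k => ‖KT G σ R (at' u t) (at' u t) k i‖ := by
    have h1 := TT_KT (G := G) (σ := σ) hR hσ (u := A) (hAT 0) i
    obtain ⟨b, hb, hbd⟩ := h1.rd.summ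
    exact hb.of_nonneg_of_le (fun _ => norm_nonneg _) fun k => hbd k 0
  have key : fs (fun k => RK c G σ R (at' u t) k i) x
      + fs (fun k => ∑ j, cvv (cf' A j) (dS j (cf' A i)) k 0) x
      = (ν : ℂ) * fs (fun k => ∑ j, fj k j * (fj k j * u k t i)) x
        + ((-1 : ℝ) : ℂ) * fs (fun k => fj k i * PF u k t) x
        + fs (fun k => KT G σ R (at' u t) (at' u t) k i) x := by
    rw [← fs_smul', ← fs_smul', ← fs_add' s1 s2, ← fs_add' (by
        simp only [norm_mul]; exact s3.mul_left _) (by simp only [norm_mul] at s4 ⊢; exact s4.mul_left _),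
      ← fs_add' ?_ s5]
    · congr 1
      funext k
      have hf := H356R3.NS.fourier_eq (ν := ν) hAr hdiv i k 0
      have e5 : RK c G σ R (at' u t) k i
          = dU (4 * Real.pi ^ 2 * ν) A i k 0 + KT G σ R (at' u t) (at' u t) k i := by
        have h1 := RKf_eq c G σ R A i k 0
        have h3 : at' A 0 = at' u t := rfl
        rw [h3] at h1
        rw [← h1]
        unfold RKf
        rw [h3]
      rw [e5]
      have h4 : ∑ j, dS j (dS j (cf' A i)) k 0 = ∑ j, fj k j * (fj k j * u k t i) := rfl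
      have h5 : dS i (PF A) k 0 = fj k i * PF u k t := rfl
      rw [h4, h5] at hf
      push_cast
      linear_combination hf
    · have s6 : Summable fun k => ‖(ν : ℂ) * ∑ j, fj k j * (fj k j * u k t i)‖ := by
        simp only [norm_mul]; exact s3.mul_left _
      have s7 : Summable fun k => ‖((-1 : ℝ) : ℂ) * (fj k i * PF u k t)‖ := by
        simp only [norm_mul] at s4 ⊢; exact s4.mul_left _
      exact (s6.add s7).of_nonneg_of_le (fun _ => norm_nonneg _) fun k => norm_add_le _ _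
  have keyre := congrArg Complex.re key
  rw [Complex.add_re, Complex.add_re, Complex.add_re, Complex.re_ofReal_mul, Complex.re_ofReal_mul] at keyre
  linarith

theorem KSol.smsol (h : KSol (4 * Real.pi ^ 2 * ν) G σ R T a u) (hR : 2 ≤ R) (hσ : σ ≤ 3) (hT : 0 < T) :
    SmSol ν G σ R T (UU u) (PP u) where
  smooth_u := (h.smooth_on hR hσ hT).1
  smooth_p := (h.smooth_on hR hσ hT).2
  per_u := fun t _ x j => (h.spv t).2 x j
  per_p := fun t _ x j => by
    unfold PP
    rw [fs_per]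
  divfree := fun t _ x => dv_fs (h.rd t) (fun k => h.div k t) x
  momentum := fun t ht x i => h.momentum hR hσ ht x i

/-- Local existence of smooth solutions. -/
theorem local_existence (hR : 2 ≤ R) (hσ : σ ≤ 3) (hν : 0 < ν) {v : V → V} (hv : SPV v)
    (hdv : ∀ x, dv v x = 0) : ∃ T > 0, ∃ (u : ℝ → V → V) (p : ℝ → V → ℝ), u 0 = v ∧ SmSol ν G σ R T u p := by
  have ha : RV (NU.fco v) := by
    intro m
    have h1 : ∀ i, Summable fun k => pw k ^ m * ‖NU.fco v k i‖ := by
      intro i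
      obtain ⟨b, hb, h⟩ := hv.rd i m
      exact hb.of_nonneg_of_le (fun k => mul_nonneg (pow_pos (H356R3.NS.pw_pos k) m).le (norm_nonneg _))
        fun k => h k 0
    refine (summable_sum fun i (_ : i ∈ Finset.univ) => h1 i).of_nonneg_of_le
      (fun k => mul_nonneg (pow_pos (H356R3.NS.pw_pos k) m).le (norm_nonneg _)) fun k => ?_
    rw [← Finset.mul_sum]
    refine mul_le_mul_of_nonneg_left ?_ (pow_pos (H356R3.NS.pw_pos k) m).le
    rw [pi_norm_le_iff_of_nonneg (Finset.sum_nonneg fun _ _ => norm_nonneg _)]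
    intro i
    exact Finset.single_le_sum (f := fun i => ‖NU.fco v k i‖) (fun _ _ => norm_nonneg _) (Finset.mem_univ i)
  have hd : ∀ k, dt k (NU.fco v k) = 0 := by
    intro k
    have h1 : H459R3.NS.fr (fun x => dv v x) k = 0 := by
      have : (fun x => dv v x) = fun _ => 0 := funext hdv
      rw [this]
      unfold H459R3.NS.fr H459R3.NS.fc
      simp
    have h2 : H459R3.NS.fr (fun x => dv v x) k = ∑ j, fj k j * NU.fco v k j := by
      have h3 := fr_sum Finset.univ (f := fun j => pd j fun y => v y j) (fun j _ => sp_pd (hv.sp j) j) k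
      have h4 : (fun x => dv v x) = fun x => ∑ j, pd j (fun y => v y j) x := rfl
      rw [h4, h3]
      refine Finset.sum_congr rfl fun j _ => ?_
      exact fr_pd' hv j j k
    rw [h2] at h1
    unfold H356R3.NS.dt
    unfold fj at h1
    have h5 : 2 * Real.pi * Complex.I * ∑ j, (k j : ℂ) * NU.fco v k j = 0 := by
      rw [Finset.mul_sum, ← h1]
      exact Finset.sum_congr rfl fun j _ => by ring
    have h6 : (2 * (Real.pi : ℂ) * Complex.I) ≠ 0 := by
      simp [Real.pi_ne_zero]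
    exact (mul_eq_zero.1 h5).resolve_left h6
  obtain ⟨T, hT, u, hu⟩ := ksol_exists (G := G) hR hσ (by positivity : 0 < 4 * Real.pi ^ 2 * ν) ha (fco_sym v) hd
  refine ⟨T, hT, UU u, PP u, ?_, hu.smsol hR hσ hT⟩
  funext x i
  show (fs (fun k => u k 0 i) x).re = v x i
  have e : (fun k => u k 0 i) = fun k => NU.fco v k i := by
    funext k; rw [hu.init]
  rw [e, ← hv.inv x i, Complex.ofReal_re]

end Pool.Agent.N980.CB
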