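import Pool.Agent.N980.CB.Dat

/-!
Blow-up for an open and dense set of data.
-/

open MeasureTheory Set Filter Topology
open scoped ContDiff

set_option linter.unusedVariables false

namespace Pool.Agent.N980.CB

open Pool.Agent.N980.NU

variable {R : ℕ} {G σ ν : ℝ}

/-- Two modes. -/
noncomputable def sel (n : ℕ) (c0 c1 : ℝ) (m : ℕ) : ℝ := if m = n then c0 else if m = n + 1 then c1 else 0

theorem Rap_sel (hR : 2 ≤ R) (n : ℕ) (c0 c1 : ℝ) : Rap R (sel n c0 c1) := by
  intro k
  refine ⟨(|c0| + |c1|) * ((R : ℝ) ^ (n + 1)) ^ k, fun m => ?_⟩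
  have hR1 : (1 : ℝ) ≤ R := by exact_mod_cast (by omega : 1 ≤ R)
  have hp : ∀ m : ℕ, (0 : ℝ) < (R : ℝ) ^ m := fun m => R_pos hR m
  have a0 := abs_nonneg c0
  have a1 := abs_nonneg c1
  unfold sel
  split_ifs with h1 h2
  · subst h1
    have h3 : (R : ℝ) ^ m ≤ (R : ℝ) ^ (m + 1) := pow_le_pow_right₀ hR1 (by omega)
    have := (hp m).le
    have : ((R : ℝ) ^ m) ^ k ≤ ((R : ℝ) ^ (m + 1)) ^ k := by gcongr
    have h4 : 0 ≤ ((R : ℝ) ^ (m + 1)) ^ k := by have := hp (m + 1); positivity
    calc |c0| * ((R : ℝ) ^ m) ^ k ≤ |c0| * ((R : ℝ) ^ (m + 1)) ^ k := by gcongr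
      _ ≤ (|c0| + |c1|) * ((R : ℝ) ^ (m + 1)) ^ k := by gcongr; linarith
  · subst h2
    have h4 : 0 ≤ ((R : ℝ) ^ (n + 1)) ^ k := by have := hp (n + 1); positivity
    gcongr
    linarith
  · have h4 : 0 ≤ ((R : ℝ) ^ (n + 1)) ^ k := by have := hp (n + 1); positivity
    rw [abs_zero, zero_mul]
    positivity

theorem CF_sel (hR : 2 ≤ R) (n : ℕ) (c0 c1 : ℝ) (x : V) (i : Fin 3) :
    |CF R (sel n c0 c1) x i| ≤ 2 * (|c0| + |c1|) := by
  have h1 := hasSum_CF hR (Rap_sel hR n c0 c1) x
  have h2 : HasSum (fun m => sel n c0 c1 m • cc (R ^ m) x)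
      (∑ m ∈ ({n, n + 1} : Finset ℕ), sel n c0 c1 m • cc (R ^ m) x) := by
    refine hasSum_sum_of_ne_finset_zero fun m hm => ?_
    have h3 : m ≠ n := fun h => hm (by simp [h])
    have h4 : m ≠ n + 1 := fun h => hm (by simp [h])
    unfold sel
    rw [if_neg h3, if_neg h4, zero_smul]
  rw [h1.unique h2, Finset.sum_pair (by omega)]
  have e0 : sel n c0 c1 n = c0 := by unfold sel; rw [if_pos rfl]
  have e1 : sel n c0 c1 (n + 1) = c1 := by unfold sel; rw [if_neg (by omega), if_pos rfl]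
  rw [e0, e1]
  have e2 : Real.sqrt 2 ≤ 2 := by
    rw [Real.sqrt_le_iff]; norm_num
  have hcc : ∀ m : ℕ, |cc m x i| ≤ 2 := by
    intro m
    unfold cc
    fin_cases i
    · simp
    · simp
    · show |Real.sqrt 2 * Real.cos (2 * Real.pi * (m * x 0))| ≤ 2
      rw [abs_mul, abs_of_pos sqrt2_pos]
      calc Real.sqrt 2 * |Real.cos (2 * Real.pi * (m * x 0))| ≤ 2 * 1 := by
            gcongr
            exact Real.abs_cos_le_one _
        _ = 2 := mul_one _
  rw [Pi.add_apply, Pi.smul_apply, Pi.smul_apply, smul_eq_mul, smul_eq_mul]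
  calc |c0 * cc (R ^ n) x i + c1 * cc (R ^ (n + 1)) x i|
      ≤ |c0| * |cc (R ^ n) x i| + |c1| * |cc (R ^ (n + 1)) x i| := by
        rw [← abs_mul, ← abs_mul]; exact abs_add_le _ _
    _ ≤ |c0| * 2 + |c1| * 2 := by
        have := hcc (R ^ n)
        have := hcc (R ^ (n + 1))
        gcongr
    _ = 2 * (|c0| + |c1|) := by ring

/-- Blow-up before the time `η` for an open and dense set of data. -/
theorem dense_blowup (hRC : RC R σ) (hG : 0 < G) (hν : 0 < ν) {v : V → V} (hv : SPV v)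
    (hdv : ∀ x, dv v x = 0) {η : ℝ} (hη : 0 < η) :
    ∃ w : V → V, SPV w ∧ (∀ x, dv w x = 0) ∧ (∀ x i, |w x i - v x i| ≤ η) ∧ ∃ r > 0,
      ∀ w' : V → V, SPV w' → (∀ x i, |w' x i - w x i| ≤ r) →
      (∀ x i j, |pd j (fun y => w' y i) x - pd j (fun y => w y i) x| ≤ r) →
      ∀ (u : ℝ → V → V) (p : ℝ → V → ℝ), u 0 = w' → ¬SmSol ν G σ R η u p := by
  have hR := hRC.two
  have hpi := Real.pi_pos
  have hqq := qq_pos
  have hqv : qq = 1 / 5000 := rfl
  set Λ := (R : ℝ) ^ σ with hΛd
  set z := zz Λ with hzd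
  have hpar : Par Λ z := hRC.par
  have hz := hpar.hz
  obtain ⟨M, hM0, hM⟩ := SPV.bdd hv
  set E : ℝ := 3 * (M + η + 1) ^ 2 with hE
  set ℓ : ℝ := 4 * Real.pi ^ 2 * ν with hℓ
  have hℓ0 : 0 < ℓ := by positivity
  set β : ℝ := 5 * E with hβ
  have hβ0 : 0 ≤ β := by positivity
  set b : ℝ := 8 * β / ℓ + 1 with hb
  have hb1 : 1 ≤ b := by
    have : 0 ≤ 8 * β / ℓ := by positivity
    linarith
  have hβb : 8 * β ≤ ℓ * b := by
    rw [hb, mul_add, mul_div_cancel₀ _ hℓ0.ne']
    linarith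
  set a : ℝ := η / 8 with ha
  have ha0 : 0 < a := by positivity
  obtain ⟨n, hn⟩ := (good_ev (G := G) (ℓ := ℓ) (β := β) (b := b) (a := a) (T := η) hRC hG hℓ0
    (by linarith) ha0 hη (Rap_cs hR hv)).exists
  set c0 : ℝ := a - cs R v n with hc0
  set c1 : ℝ := qq * a - cs R v (n + 1) with hc1
  have hsel := Rap_sel hR n c0 c1
  set w : V → V := v + CF R (sel n c0 c1) with hw
  have hwS : SPV w := hv.add (SPV_CF hR hsel)
  have hcw : ∀ m, cs R w m = cs R v m + sel n c0 c1 m := by
    intro m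
    rw [hw, cs_add hv.cont (SPV_CF hR hsel).cont]
    congr 1
    exact cx_CF hR hsel m
  have hz16 : 0 < z ^ 16 := pow_pos hz 16
  have hz16' : z ^ 16 ≤ 1 := pow_le_one₀ hz.le hpar.z1
  have hsmall : z ^ 16 * qq * a / 40 ≤ a / 40 := by
    have h1 : z ^ 16 * qq ≤ 1 := by
      rw [hqv]; nlinarith
    have : z ^ 16 * qq * a ≤ 1 * a := by gcongr
    linarith
  refine ⟨w, hwS, ?_, ?_, min (1 / 2) (z ^ 16 * qq * a / 40), by positivity, ?_⟩
  · intro x
    rw [hw, dv_add hv (SPV_CF hR hsel), hdv, dv_CF hR hsel, add_zero]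
  · intro x i
    have e : w x i - v x i = CF R (sel n c0 c1) x i := by
      rw [hw, Pi.add_apply, Pi.add_apply]; ring
    rw [e]
    refine (CF_sel hR n c0 c1 x i).trans ?_
    have h1 := hn.c1 n le_rfl
    have h2 := hn.c1 (n + 1) (by omega)
    have h3 : |c0| ≤ a + |cs R v n| := by
      have := abs_sub a (cs R v n)
      rwa [abs_of_pos ha0] at this
    have h4 : |c1| ≤ qq * a + |cs R v (n + 1)| := by
      have := abs_sub (qq * a) (cs R v (n + 1))
      rwa [abs_of_pos (by positivity : 0 < qq * a)] at this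
    rw [hqv] at h4
    have : η = 8 * a := by rw [ha]; ring
    linarith
  · intro w' hw' h1 h2 u p hu hs
    set r := min (1 / 2) (z ^ 16 * qq * a / 40) with hr
    have hr0 : 0 < r := by positivity
    have hr1 : r ≤ 1 / 2 := min_le_left _ _
    have hr2 : r ≤ z ^ 16 * qq * a / 40 := min_le_right _ _
    have hcl : ∀ m, |cs R w' m - cs R w m| ≤ r / (R : ℝ) ^ m := by
      intro m
      have := cx_close hw' hwS (R ^ m) (pow_pos (by omega) m) (fun x => h2 x 2 0)
      push_cast at this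
      exact this
    have hcl' : ∀ m, |cs R w' m - cs R w m| ≤ r := fun m =>
      (hcl m).trans (div_le_self hr0.le (one_le_R hR m))
    have k0 : |cs R w' n - a| ≤ r := by
      have := hcl' n
      rw [hcw n] at this
      have e0 : sel n c0 c1 n = c0 := by unfold sel; rw [if_pos rfl]
      rw [e0, hc0] at this
      have e : cs R v n + (a - cs R v n) = a := by ring
      rwa [e] at this
    have k1 : |cs R w' (n + 1) - qq * a| ≤ r := by
      have := hcl' (n + 1)
      rw [hcw (n + 1)] at this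
      have e0 : sel n c0 c1 (n + 1) = c1 := by unfold sel; rw [if_neg (by omega), if_pos rfl]
      rw [e0, hc1] at this
      have e : cs R v (n + 1) + (qq * a - cs R v (n + 1)) = qq * a := by ring
      rwa [e] at this
    have k2 : ∀ m, m ≠ n → m ≠ n + 1 → |cs R w' m - cs R v m| ≤ r / (R : ℝ) ^ m := by
      intro m m1 m2
      have := hcl m
      rw [hcw m] at this
      have e0 : sel n c0 c1 m = 0 := by unfold sel; rw [if_neg m1, if_neg m2]
      rwa [e0, add_zero] at this
    obtain ⟨g1, g2, g3, g4⟩ := Good.st (x0 := fun m => cs R w' m) hpar hRC.R5' hn hG ha0 hb1 hr0 hr1 hr2 k0 k1 k2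
    have hen : energy (u 0) ≤ E := by
      rw [hu, hE]
      refine energy_bd hw' fun x i => ?_
      have e1 := hM x i
      have e2 : |w x i - v x i| ≤ η := by
        have e : w x i - v x i = CF R (sel n c0 c1) x i := by
          rw [hw, Pi.add_apply, Pi.add_apply]; ring
        rw [e]
        refine (CF_sel hR n c0 c1 x i).trans ?_
        have h1 := hn.c1 n le_rfl
        have h2 := hn.c1 (n + 1) (by omega)
        have h3 : |c0| ≤ a + |cs R v n| := by
          have := abs_sub a (cs R v n)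
          rwa [abs_of_pos ha0] at this
        have h4 : |c1| ≤ qq * a + |cs R v (n + 1)| := by
          have := abs_sub (qq * a) (cs R v (n + 1))
          rwa [abs_of_pos (by positivity : 0 < qq * a)] at this
        rw [hqv] at h4
        have : η = 8 * a := by rw [ha]; ring
        linarith
      have e3 := h1 x i
      have e4 : |w' x i| ≤ |v x i| + |w x i - v x i| + |w' x i - w x i| := by
        have := abs_add_three (v x i) (w x i - v x i) (w' x i - w x i)
        have e : v x i + (w x i - v x i) + (w' x i - w x i) = w' x i := by ring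
        rwa [e] at this
      linarith
    have hsys := hs.sys hRC hν hG hen
    refine hsys.blowup (by linarith : 0 < b) hβb (n0 := n) (A0 := cs R w' n) (g2 _ fun m => ?_) g3 g4
    show cx (R ^ m) (u 0) = cs R w' m
    rw [hu]
    rfl

end Pool.Agent.N980.CB
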