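import Pool.Agent.N980.CB.Stmt
import Pool.Agent.N980.NU.Kpr

/-!
The chain of frequencies.
-/

open MeasureTheory Set Filter Topology
open scoped ContDiff

set_option linter.unusedVariables false

namespace Pool.Agent.N980.CB

open Pool.Agent.N980.NU
open Pool.Agent.H356R3.NS (K C3 E3 R3 ex SN Sym RD TT SF SFam Fam cf' at' nk pw fj dS Bf)

variable {R : ℕ}

/-- The frequency `(R^n, 0, 0)`. -/
def frq (R n : ℕ) : K := ![(R : ℤ) ^ n, 0, 0]

theorem frq_inj (hR : 2 ≤ R) {n m : ℕ} (h : frq R n = frq R m) : n = m := by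
  have h1 := congrFun h 0
  simp only [frq, Matrix.cons_val_zero] at h1
  have h2 : R ^ n = R ^ m := by exact_mod_cast h1
  exact Nat.pow_right_injective hR h2

theorem Rpos (hR : 2 ≤ R) (n : ℕ) : (0 : ℤ) < (R : ℤ) ^ n := by
  have : (0 : ℤ) < R := by omega
  positivity

theorem frq_ne_neg (hR : 2 ≤ R) (n m : ℕ) : frq R n ≠ -frq R m := by
  intro h
  have h1 := congrFun h 0
  simp only [frq, Matrix.cons_val_zero, Pi.neg_apply] at h1
  have h2 := Rpos hR n
  have h3 := Rpos hR m
  omega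

theorem frq_ne_zero (hR : 2 ≤ R) (n : ℕ) : frq R n ≠ 0 := by
  intro h
  have h1 := congrFun h 0
  simp only [frq, Matrix.cons_val_zero, Pi.zero_apply] at h1
  have h2 := Rpos hR n
  omega

theorem sq_frq (n : ℕ) : H356R3.NS.sq (frq R n) = ((R : ℝ) ^ n) ^ 2 := by
  simp [H356R3.NS.sq, frq, Fin.sum_univ_three]

theorem nk_frq (n : ℕ) : nk (frq R n) = (R : ℝ) ^ n := by
  rw [nk, sq_frq, Real.sqrt_sq (by positivity)]

theorem pw_frq (n : ℕ) : pw (frq R n) = 1 + (R : ℝ) ^ n := by
  simp only [pw, H356R3.NS.l1, frq, Fin.sum_univ_three, Matrix.cons_val_zero, Matrix.cons_val_one,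
    Matrix.cons_val, Int.cast_pow, Int.cast_natCast, Int.cast_zero, abs_zero, add_zero]
  rw [abs_of_nonneg (by positivity)]

/-- The frequencies of the chain. -/
def lv (R : ℕ) (k : K) : Prop := ∃ n, k = frq R n ∨ k = -frq R n

theorem lv_uniq (hR : 2 ≤ R) {k : K} {n m : ℕ} (hn : k = frq R n ∨ k = -frq R n)
    (hm : k = frq R m ∨ k = -frq R m) : n = m := by
  rcases hn with hn | hn <;> rcases hm with hm | hm
  · exact frq_inj hR (hn.symm.trans hm)
  · exact absurd (hn.symm.trans hm) (frq_ne_neg hR _ _)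
  · exact absurd (hm.symm.trans hn) (frq_ne_neg hR _ _)
  · exact frq_inj hR (neg_injective (hn.symm.trans hm))

theorem lv_neg {k : K} : lv R (-k) ↔ lv R k := by
  constructor
  · rintro ⟨n, h | h⟩
    · exact ⟨n, Or.inr (by rw [← h, neg_neg])⟩
    · exact ⟨n, Or.inl (neg_injective h)⟩
  · rintro ⟨n, h | h⟩
    · exact ⟨n, Or.inr (by rw [h])⟩
    · exact ⟨n, Or.inl (by rw [h, neg_neg])⟩

open Classical in
/-- A sequence, placed on the chain of frequencies. -/
noncomputable def onl (R : ℕ) (g : ℕ → ℝ) (k : K) : ℝ := if h : lv R k then g h.choose else 0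

theorem onl_lv (hR : 2 ≤ R) (g : ℕ → ℝ) {k : K} {n : ℕ} (hk : k = frq R n ∨ k = -frq R n) :
    onl R g k = g n := by
  have h : lv R k := ⟨n, hk⟩
  rw [onl, dif_pos h, lv_uniq hR h.choose_spec hk]

theorem onl_frq (hR : 2 ≤ R) (g : ℕ → ℝ) (n : ℕ) : onl R g (frq R n) = g n := onl_lv hR g (Or.inl rfl)

theorem onl_not (g : ℕ → ℝ) {k : K} (h : ¬lv R k) : onl R g k = 0 := by rw [onl, dif_neg h]

theorem onl_neg (hR : 2 ≤ R) (g : ℕ → ℝ) (k : K) : onl R g (-k) = onl R g k := by
  by_cases h : lv R k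
  · obtain ⟨n, hn⟩ := h
    rw [onl_lv hR g hn]
    refine onl_lv hR g ?_
    rcases hn with hn | hn
    · right; rw [hn]
    · left; rw [hn, neg_neg]
  · rw [onl_not g h, onl_not g (fun h' => h (lv_neg.1 h'))]

/-- Sums over the chain. -/
theorem hasSum_lv {E : Type*} [NormedAddCommGroup E] [CompleteSpace E] (hR : 2 ≤ R) {g : K → E} (hg : Summable g)
    (h0 : ∀ k, ¬lv R k → g k = 0) :
    HasSum (fun n => g (frq R n) + g (-frq R n)) (∑' k, g k) := by
  classical
  have i1 : Function.Injective (frq R) := fun n m h => frq_inj hR h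
  have i2 : Function.Injective fun n => -frq R n := fun n m h => frq_inj hR (neg_injective h)
  have s1 : Summable fun n => g (frq R n) := hg.comp_injective i1
  have s2 : Summable fun n => g (-frq R n) := hg.comp_injective i2
  set g1 : K → E := fun k => if ∃ n, frq R n = k then g k else 0 with hg1
  set g2 : K → E := fun k => if ∃ n, -frq R n = k then g k else 0 with hg2
  have h1 : HasSum g1 (∑' n, g (frq R n)) := by
    refine (i1.hasSum_iff (f := g1) ?_).1 ?_
    · intro k hk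
      exact if_neg hk
    · have : g1 ∘ frq R = fun n => g (frq R n) := funext fun n => if_pos ⟨n, rfl⟩
      rw [this]; exact s1.hasSum
  have h2 : HasSum g2 (∑' n, g (-frq R n)) := by
    refine (i2.hasSum_iff (f := g2) ?_).1 ?_
    · intro k hk
      exact if_neg hk
    · have : (g2 ∘ fun n => -frq R n) = fun n => g (-frq R n) := funext fun n => if_pos ⟨n, rfl⟩
      rw [this]; exact s2.hasSum
  have h3 : g = fun k => g1 k + g2 k := by
    funext k
    by_cases hk : lv R k
    · obtain ⟨n, hn | hn⟩ := hk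
      · have e1 : g1 k = g k := if_pos ⟨n, hn.symm⟩
        have e2 : g2 k = 0 := if_neg (by
          rintro ⟨m, hm⟩
          exact frq_ne_neg hR n m (hn.symm.trans hm.symm))
        rw [e1, e2, add_zero]
      · have e1 : g1 k = 0 := if_neg (by
          rintro ⟨m, hm⟩
          exact frq_ne_neg hR m n (hm.trans hn))
        have e2 : g2 k = g k := if_pos ⟨n, hn.symm⟩
        rw [e1, e2, zero_add]
    · have e1 : g1 k = 0 := if_neg (by rintro ⟨m, hm⟩; exact hk ⟨m, Or.inl hm.symm⟩)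
      have e2 : g2 k = 0 := if_neg (by rintro ⟨m, hm⟩; exact hk ⟨m, Or.inr hm.symm⟩)
      rw [e1, e2, h0 k hk, add_zero]
  have h4 : HasSum g (∑' n, g (frq R n) + ∑' n, g (-frq R n)) := by
    have := h1.add h2
    rwa [← h3] at this
  rw [h4.tsum_eq]
  exact s1.hasSum.add s2.hasSum

theorem summable_onl (hR : 2 ≤ R) {g : ℕ → ℝ} (hg : Summable g) : Summable (onl R g) := by
  classical
  have i1 : Function.Injective (frq R) := fun n m h => frq_inj hR h
  have i2 : Function.Injective fun n => -frq R n := fun n m h => frq_inj hR (neg_injective h)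
  set g1 : K → ℝ := fun k => if ∃ n, frq R n = k then onl R g k else 0 with hg1
  set g2 : K → ℝ := fun k => if ∃ n, -frq R n = k then onl R g k else 0 with hg2
  have h1 : Summable g1 := by
    refine (i1.summable_iff (f := g1) ?_).1 ?_
    · intro k hk
      exact if_neg hk
    · have : g1 ∘ frq R = g := funext fun n => by
        have e : g1 (frq R n) = onl R g (frq R n) := if_pos ⟨n, rfl⟩
        rw [Function.comp, e, onl_frq hR]
      rw [this]; exact hg
  have h2 : Summable g2 := by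
    refine (i2.summable_iff (f := g2) ?_).1 ?_
    · intro k hk
      exact if_neg hk
    · have : (g2 ∘ fun n => -frq R n) = g := funext fun n => by
        have e : g2 (-frq R n) = onl R g (-frq R n) := if_pos ⟨n, rfl⟩
        rw [Function.comp, e, onl_neg hR, onl_frq hR]
      rw [this]; exact hg
  have h3 : onl R g = fun k => g1 k + g2 k := by
    funext k
    by_cases hk : lv R k
    · obtain ⟨n, hn | hn⟩ := hk
      · have e1 : g1 k = onl R g k := if_pos ⟨n, hn.symm⟩
        have e2 : g2 k = 0 := if_neg (by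
          rintro ⟨m, hm⟩
          exact frq_ne_neg hR n m (hn.symm.trans hm.symm))
        rw [e1, e2, add_zero]
      · have e1 : g1 k = 0 := if_neg (by
          rintro ⟨m, hm⟩
          exact frq_ne_neg hR m n (hm.trans hn))
        have e2 : g2 k = onl R g k := if_pos ⟨n, hn.symm⟩
        rw [e1, e2, zero_add]
    · have e1 : g1 k = 0 := if_neg (by rintro ⟨m, hm⟩; exact hk ⟨m, Or.inl hm.symm⟩)
      have e2 : g2 k = 0 := if_neg (by rintro ⟨m, hm⟩; exact hk ⟨m, Or.inr hm.symm⟩)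
      rw [e1, e2, onl_not g hk, add_zero]
  rw [h3]
  exact h1.add h2

/-- Rapid decay. -/
def Rap (R : ℕ) (a : ℕ → ℝ) : Prop := ∀ m : ℕ, ∃ C : ℝ, ∀ n, |a n| * ((R : ℝ) ^ n) ^ m ≤ C

theorem one_le_R (hR : 2 ≤ R) (n : ℕ) : (1 : ℝ) ≤ (R : ℝ) ^ n :=
  one_le_pow₀ (by exact_mod_cast (by omega : 1 ≤ R))

theorem R_pos (hR : 2 ≤ R) (n : ℕ) : (0 : ℝ) < (R : ℝ) ^ n := lt_of_lt_of_le one_pos (one_le_R hR n)

theorem summ_inv (hR : 2 ≤ R) (C : ℝ) : Summable fun n => C / (R : ℝ) ^ n := by
  have h1 : Summable fun n => (1 / (R : ℝ)) ^ n := by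
    refine summable_geometric_of_lt_one (by positivity) ?_
    have : (2 : ℝ) ≤ R := by exact_mod_cast hR
    rw [div_lt_one (by linarith)]
    linarith
  refine (h1.mul_left C).congr fun n => ?_
  rw [one_div_pow, mul_one_div]

theorem Rap.bound {a : ℕ → ℝ} (hR : 2 ≤ R) (h : Rap R a) (m : ℕ) : ∃ C, 0 ≤ C ∧ ∀ n,
    |a n| * ((R : ℝ) ^ n) ^ m ≤ C / (R : ℝ) ^ n := by
  obtain ⟨C, hC⟩ := h (m + 1)
  refine ⟨C, le_trans (by positivity) (hC 0), fun n => ?_⟩
  rw [le_div_iff₀ (R_pos hR n)]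
  have := hC n
  rw [pow_succ] at this
  linarith

theorem Rap.summable {a : ℕ → ℝ} (hR : 2 ≤ R) (h : Rap R a) (m : ℕ) :
    Summable fun n => |a n| * ((R : ℝ) ^ n) ^ m := by
  obtain ⟨C, _, hC⟩ := h.bound hR m
  exact (summ_inv hR C).of_nonneg_of_le (fun n => by positivity) hC

theorem RD_onl (hR : 2 ≤ R) {a : ℕ → ℝ} (h : Rap R a) : RD (cst fun k => ((onl R a k : ℝ) : ℂ)) := by
  intro m
  have h1 : Summable fun n => 2 ^ m * (|a n| * ((R : ℝ) ^ n) ^ m) := (h.summable hR m).mul_left _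
  refine ⟨onl R fun n => 2 ^ m * (|a n| * ((R : ℝ) ^ n) ^ m), summable_onl hR h1, fun k t => ?_⟩
  show pw k ^ m * ‖((onl R a k : ℝ) : ℂ)‖ ≤ _
  by_cases hk : lv R k
  · obtain ⟨n, hn⟩ := hk
    rw [onl_lv hR _ hn, onl_lv hR _ hn, Complex.norm_real, Real.norm_eq_abs]
    have hp : pw k ≤ 2 * (R : ℝ) ^ n := by
      have h2 : pw k = 1 + (R : ℝ) ^ n := by
        rcases hn with hn | hn
        · rw [hn, pw_frq]
        · rw [hn]
          have : pw (-frq R n) = pw (frq R n) := by
            simp [pw, H356R3.NS.l1]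
          rw [this, pw_frq]
      rw [h2]
      linarith [one_le_R hR n]
    have hp0 := (H356R3.NS.pw_pos k).le
    calc pw k ^ m * |a n| ≤ (2 * (R : ℝ) ^ n) ^ m * |a n| := by gcongr
      _ = 2 ^ m * (|a n| * ((R : ℝ) ^ n) ^ m) := by rw [mul_pow]; ring
  · rw [onl_not _ hk, onl_not _ hk]
    simp

end Pool.Agent.N980.CB
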