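import Pool.Agent.N980.CB.Kop

/-!
The Sobolev bound of the trilinear form.
-/

open MeasureTheory Set Filter Topology
open scoped ContDiff

set_option linter.unusedVariables false

namespace Pool.Agent.N980.CB

open Pool.Agent.N980.NU
open Pool.Agent.H356R3.NS (K C3 E3 R3 ex SN Sym RD TT SF SFam Fam cf' at' nk pw fj dS Bf dt)

variable {R : ℕ} {G σ : ℝ}

/-- The weighted coefficients. -/
noncomputable def ys (R : ℕ) (s : ℝ) (v : V → V) (n : ℕ) : ℝ := ((R : ℝ) ^ n) ^ s * |cs R v n|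

theorem ys_nonneg (s : ℝ) (v : V → V) (n : ℕ) : 0 ≤ ys R s v n := by
  unfold ys; positivity

theorem e2_neg (v : V → V) (k : K) : e2 v (-k) = e2 v k := by
  unfold e2
  congr 1
  refine Finset.sum_congr rfl fun i _ => ?_
  rw [fco_sym v k i, norm_star]

theorem cs_sq_le {v : V → V} (hv : Continuous v) (n : ℕ) : cs R v n ^ 2 ≤ 2 * e2 v (frq R n) ^ 2 := by
  have h1 := cx_abs (R := R) hv n
  have h2 : ‖fco v (frq R n) 2‖ ≤ e2 v (frq R n) := by
    apply Real.le_sqrt_of_sq_le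
    exact Finset.single_le_sum (f := fun i => ‖fco v (frq R n) i‖ ^ 2) (fun _ _ => by positivity)
      (Finset.mem_univ 2)
  have h3 : |cs R v n| ≤ Real.sqrt 2 * e2 v (frq R n) :=
    h1.trans (mul_le_mul_of_nonneg_left h2 sqrt2_pos.le)
  calc cs R v n ^ 2 = |cs R v n| ^ 2 := (sq_abs _).symm
    _ ≤ (Real.sqrt 2 * e2 v (frq R n)) ^ 2 := by gcongr
    _ = 2 * e2 v (frq R n) ^ 2 := by rw [mul_pow, Real.sq_sqrt (by norm_num)]

theorem ys_sq (hR : 2 ≤ R) (s : ℝ) (v : V → V) (n : ℕ) :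
    ys R s v n ^ 2 = ((R : ℝ) ^ n) ^ (2 * s) * cs R v n ^ 2 := by
  have h0 := R_pos hR n
  unfold ys
  rw [mul_pow, sq_abs, ← Real.rpow_natCast (((R : ℝ) ^ n) ^ s) 2, ← Real.rpow_mul h0.le, mul_comm s]
  norm_num

theorem ys_sum (hR : 2 ≤ R) {s : ℝ} (hs0 : 0 ≤ s) {v : V → V} (hv : SPV v) (N : ℕ) :
    ∑ n ∈ Finset.range N, ys R s v n ^ 2 ≤ hs s v ^ 2 := by
  classical
  have hpi := Real.pi_gt_three
  set g0 : K → ℝ := fun k => (2 * Real.pi * nk k) ^ (2 * s) * e2 v k ^ 2 with hg0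
  have h0 : Summable g0 := hs_summ hs0 hv
  have n0 : ∀ k, 0 ≤ g0 k := fun k => by
    have := H356R3.NS.nk_nonneg k
    have := Real.pi_pos
    exact mul_nonneg (Real.rpow_nonneg (by positivity) _) (sq_nonneg _)
  set g : K → ℝ := fun k => if lv R k then g0 k else 0 with hg
  have gn : ∀ k, 0 ≤ g k := fun k => by
    by_cases h : lv R k
    · simp only [hg, if_pos h]; exact n0 k
    · simp only [hg, if_neg h]; exact le_rfl
  have gle : ∀ k, g k ≤ g0 k := fun k => by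
    by_cases h : lv R k
    · simp only [hg, if_pos h]; exact le_rfl
    · simp only [hg, if_neg h]; exact n0 k
  have gs : Summable g := h0.of_nonneg_of_le gn gle
  have h1 := hasSum_lv hR gs fun k hk => by simp only [hg, if_neg hk]
  have h2 : ∑' k, g k ≤ ∑' k, g0 k := gs.tsum_le_tsum gle h0
  have h3 : hs s v ^ 2 = ∑' k, g0 k := by
    rw [hs_eq, Real.sq_sqrt (tsum_nonneg n0)]
  have h4 : ∀ n, ys R s v n ^ 2 ≤ g (frq R n) + g (-frq R n) := by
    intro n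
    have l1 : lv R (frq R n) := ⟨n, Or.inl rfl⟩
    have l2 : lv R (-frq R n) := ⟨n, Or.inr rfl⟩
    have e1 : g (frq R n) = g0 (frq R n) := by simp only [hg, if_pos l1]
    have e2' : g (-frq R n) = g0 (frq R n) := by
      simp only [hg, if_pos l2, hg0, H356R3.NS.nk_neg, e2_neg]
    rw [e1, e2', ys_sq hR]
    have h5 := cs_sq_le (R := R) hv.cont n
    have h6 : ((R : ℝ) ^ n) ^ (2 * s) ≤ (2 * Real.pi * nk (frq R n)) ^ (2 * s) := by
      rw [nk_frq]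
      have h7 := R_pos hR n
      refine Real.rpow_le_rpow h7.le ?_ (by positivity)
      nlinarith
    have h8 : 0 ≤ ((R : ℝ) ^ n) ^ (2 * s) := by have := R_pos hR n; positivity
    calc ((R : ℝ) ^ n) ^ (2 * s) * cs R v n ^ 2
        ≤ (2 * Real.pi * nk (frq R n)) ^ (2 * s) * (2 * e2 v (frq R n) ^ 2) :=
          mul_le_mul h6 h5 (sq_nonneg _) (h8.trans h6)
      _ = g0 (frq R n) + g0 (frq R n) := by simp only [hg0]; ring
  calc ∑ n ∈ Finset.range N, ys R s v n ^ 2 ≤ ∑ n ∈ Finset.range N, (g (frq R n) + g (-frq R n)) :=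
        Finset.sum_le_sum fun n _ => h4 n
    _ ≤ ∑' k, g k := sum_le_hasSum _ (fun n _ => add_nonneg (gn _) (gn _)) h1
    _ ≤ hs s v ^ 2 := by rw [h3]; exact h2

theorem ys_le (hR : 2 ≤ R) {s : ℝ} (hs0 : 0 ≤ s) {v : V → V} (hv : SPV v) (n : ℕ) :
    ys R s v n ≤ hs s v := by
  have h1 := ys_sum hR hs0 hv (n + 1)
  have h2 : ys R s v n ^ 2 ≤ ∑ m ∈ Finset.range (n + 1), ys R s v m ^ 2 :=
    Finset.single_le_sum (f := fun m => ys R s v m ^ 2) (fun _ _ => sq_nonneg _)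
      (Finset.mem_range.2 (Nat.lt_succ_self n))
  exact (sq_le_sq₀ (ys_nonneg _ _ _) (hs_nonneg _ _)).1 (h2.trans h1)

/-- The Sobolev bound of the trilinear form. -/
theorem KK_bound (hR : 2 ≤ R) (hG : 0 ≤ G) {s1 s2 s3 : ℝ} (h1 : 0 ≤ s1) (h2 : 0 ≤ s2) (h3 : 0 ≤ s3)
    (hσ : σ ≤ s1 + s2 + s3) {u v w : V → V} (hu : SPV u) (hv : SPV v) (hw : SPV w) :
    |ip (KK G σ R u v) w| ≤ 4 * G * hs s1 u * hs s2 v * hs s3 w := by
  have hA := hs_nonneg s1 u
  have hB := hs_nonneg s2 v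
  have hC := hs_nonneg s3 w
  -- the rate
  have hrate : ∀ n, |rt G σ R (cs R u) n| ≤ 2 * G * hs s1 u * (((R : ℝ) ^ n) ^ s2 * ((R : ℝ) ^ n) ^ s3) := by
    intro n
    have r1 := one_le_R hR n
    have r0 := R_pos hR n
    have r2 : (R : ℝ) ^ n ≤ (R : ℝ) ^ (n + 1) :=
      pow_le_pow_right₀ (by exact_mod_cast (by omega : 1 ≤ R)) (by omega)
    have e1 : ((R : ℝ) ^ n) ^ σ ≤ ((R : ℝ) ^ n) ^ s1 * (((R : ℝ) ^ n) ^ s2 * ((R : ℝ) ^ n) ^ s3) := by
      rw [← Real.rpow_add r0, ← Real.rpow_add r0]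
      exact Real.rpow_le_rpow_of_exponent_le r1 (by linarith)
    have h4 : Real.exp (-((R : ℝ) ^ σ / 1250)) ≤ 1 := Real.exp_le_one_iff.2 (by
      have : 0 ≤ (R : ℝ) ^ σ := by positivity
      linarith)
    have y1 : ((R : ℝ) ^ n) ^ s1 * |cs R u n| ≤ hs s1 u := ys_le hR h1 hu n
    have y2 : ((R : ℝ) ^ n) ^ s1 * |cs R u (n + 1)| ≤ hs s1 u := by
      refine le_trans ?_ (ys_le hR h1 hu (n + 1))
      unfold ys
      have := Real.rpow_le_rpow r0.le r2 h1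
      gcongr
    have e2 : |Real.exp (-((R : ℝ) ^ σ / 1250)) * cs R u n + cs R u (n + 1)| ≤ |cs R u n| + |cs R u (n + 1)| := by
      refine (abs_add_le _ _).trans ?_
      rw [abs_mul, abs_of_pos (Real.exp_pos _)]
      have : Real.exp (-((R : ℝ) ^ σ / 1250)) * |cs R u n| ≤ 1 * |cs R u n| := by gcongr
      linarith
    have p0 : 0 ≤ ((R : ℝ) ^ n) ^ σ := by positivity
    have p1 : 0 ≤ ((R : ℝ) ^ n) ^ s1 := by positivity
    have p2 : 0 ≤ ((R : ℝ) ^ n) ^ s2 * ((R : ℝ) ^ n) ^ s3 := by positivity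
    unfold rt
    rw [abs_mul, abs_mul, abs_of_nonneg hG, abs_of_nonneg p0]
    calc G * ((R : ℝ) ^ n) ^ σ * |Real.exp (-((R : ℝ) ^ σ / 1250)) * cs R u n + cs R u (n + 1)|
        ≤ G * (((R : ℝ) ^ n) ^ s1 * (((R : ℝ) ^ n) ^ s2 * ((R : ℝ) ^ n) ^ s3)) *
            (|cs R u n| + |cs R u (n + 1)|) := by gcongr
      _ = G * (((R : ℝ) ^ n) ^ s2 * ((R : ℝ) ^ n) ^ s3) *
            (((R : ℝ) ^ n) ^ s1 * |cs R u n| + ((R : ℝ) ^ n) ^ s1 * |cs R u (n + 1)|) := by ring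
      _ ≤ G * (((R : ℝ) ^ n) ^ s2 * ((R : ℝ) ^ n) ^ s3) * (hs s1 u + hs s1 u) := by gcongr
      _ = _ := by ring
  -- the terms
  have hterm : ∀ n, |rt G σ R (cs R u) n * (cs R v n * cs R w (n + 1) - cs R v (n + 1) * cs R w n)|
      ≤ 2 * G * hs s1 u * (ys R s2 v n * ys R s3 w (n + 1) + ys R s2 v (n + 1) * ys R s3 w n) := by
    intro n
    have r0 := R_pos hR n
    have r2 : (R : ℝ) ^ n ≤ (R : ℝ) ^ (n + 1) :=
      pow_le_pow_right₀ (by exact_mod_cast (by omega : 1 ≤ R)) (by omega)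
    have q2 := Real.rpow_le_rpow r0.le r2 h2
    have q3 := Real.rpow_le_rpow r0.le r2 h3
    have p2 : 0 ≤ ((R : ℝ) ^ n) ^ s2 := by positivity
    have p3 : 0 ≤ ((R : ℝ) ^ n) ^ s3 := by positivity
    rw [abs_mul]
    have e1 : |cs R v n * cs R w (n + 1) - cs R v (n + 1) * cs R w n|
        ≤ |cs R v n| * |cs R w (n + 1)| + |cs R v (n + 1)| * |cs R w n| := by
      rw [← abs_mul, ← abs_mul]
      exact abs_sub _ _
    have e2 : ((R : ℝ) ^ n) ^ s2 * ((R : ℝ) ^ n) ^ s3 *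
        (|cs R v n| * |cs R w (n + 1)| + |cs R v (n + 1)| * |cs R w n|)
        ≤ ys R s2 v n * ys R s3 w (n + 1) + ys R s2 v (n + 1) * ys R s3 w n := by
      unfold ys
      calc ((R : ℝ) ^ n) ^ s2 * ((R : ℝ) ^ n) ^ s3 *
            (|cs R v n| * |cs R w (n + 1)| + |cs R v (n + 1)| * |cs R w n|)
          = (((R : ℝ) ^ n) ^ s2 * |cs R v n|) * (((R : ℝ) ^ n) ^ s3 * |cs R w (n + 1)|)
            + (((R : ℝ) ^ n) ^ s2 * |cs R v (n + 1)|) * (((R : ℝ) ^ n) ^ s3 * |cs R w n|) := by ring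
        _ ≤ _ := by gcongr
    calc |rt G σ R (cs R u) n| * |cs R v n * cs R w (n + 1) - cs R v (n + 1) * cs R w n|
        ≤ (2 * G * hs s1 u * (((R : ℝ) ^ n) ^ s2 * ((R : ℝ) ^ n) ^ s3)) *
          (|cs R v n| * |cs R w (n + 1)| + |cs R v (n + 1)| * |cs R w n|) :=
          mul_le_mul (hrate n) e1 (abs_nonneg _) ((abs_nonneg _).trans (hrate n))
      _ = 2 * G * hs s1 u * (((R : ℝ) ^ n) ^ s2 * ((R : ℝ) ^ n) ^ s3 *
        (|cs R v n| * |cs R w (n + 1)| + |cs R v (n + 1)| * |cs R w n|)) := by ring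
      _ ≤ _ := by gcongr
  -- the sum
  have hsum : ∀ N, |∑ n ∈ Finset.range N,
      rt G σ R (cs R u) n * (cs R v n * cs R w (n + 1) - cs R v (n + 1) * cs R w n)|
      ≤ 4 * G * hs s1 u * hs s2 v * hs s3 w := by
    intro N
    have cv0 : √(∑ n ∈ Finset.range N, ys R s2 v n ^ 2) ≤ hs s2 v :=
      Real.sqrt_le_iff.2 ⟨hB, ys_sum hR h2 hv N⟩
    have cw0 : √(∑ n ∈ Finset.range N, ys R s3 w n ^ 2) ≤ hs s3 w :=
      Real.sqrt_le_iff.2 ⟨hC, ys_sum hR h3 hw N⟩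
    have cv1 : √(∑ n ∈ Finset.range N, ys R s2 v (n + 1) ^ 2) ≤ hs s2 v := by
      refine Real.sqrt_le_iff.2 ⟨hB, le_trans ?_ (ys_sum hR h2 hv (N + 1))⟩
      rw [Finset.sum_range_succ']
      have := sq_nonneg (ys R s2 v 0)
      linarith
    have cw1 : √(∑ n ∈ Finset.range N, ys R s3 w (n + 1) ^ 2) ≤ hs s3 w := by
      refine Real.sqrt_le_iff.2 ⟨hC, le_trans ?_ (ys_sum hR h3 hw (N + 1))⟩
      rw [Finset.sum_range_succ']
      have := sq_nonneg (ys R s3 w 0)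
      linarith
    have k1 : ∑ n ∈ Finset.range N, ys R s2 v n * ys R s3 w (n + 1) ≤ hs s2 v * hs s3 w :=
      (Real.sum_mul_le_sqrt_mul_sqrt _ _ _).trans (mul_le_mul cv0 cw1 (Real.sqrt_nonneg _) hB)
    have k2 : ∑ n ∈ Finset.range N, ys R s2 v (n + 1) * ys R s3 w n ≤ hs s2 v * hs s3 w :=
      (Real.sum_mul_le_sqrt_mul_sqrt _ _ _).trans (mul_le_mul cv1 cw0 (Real.sqrt_nonneg _) hB)
    calc _ ≤ ∑ n ∈ Finset.range N, |rt G σ R (cs R u) n *
          (cs R v n * cs R w (n + 1) - cs R v (n + 1) * cs R w n)| := Finset.abs_sum_le_sum_abs _ _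
      _ ≤ ∑ n ∈ Finset.range N,
          2 * G * hs s1 u * (ys R s2 v n * ys R s3 w (n + 1) + ys R s2 v (n + 1) * ys R s3 w n) :=
          Finset.sum_le_sum fun n _ => hterm n
      _ = 2 * G * hs s1 u * (∑ n ∈ Finset.range N, ys R s2 v n * ys R s3 w (n + 1)
          + ∑ n ∈ Finset.range N, ys R s2 v (n + 1) * ys R s3 w n) := by
          rw [← Finset.sum_add_distrib, ← Finset.mul_sum]
      _ ≤ 2 * G * hs s1 u * (hs s2 v * hs s3 w + hs s2 v * hs s3 w) := by gcongr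
      _ = _ := by ring
  have hlim := (ip_KK (G := G) (σ := σ) hR hu hv hw).tendsto_sum_nat.abs
  exact le_of_tendsto hlim (Eventually.of_forall hsum)

end Pool.Agent.N980.CB
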