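import Pool.Agent.N980.CB.Chf

/-!
The operator `KK`.
-/

open MeasureTheory Set Filter Topology
open scoped ContDiff

set_option linter.unusedVariables false

namespace Pool.Agent.N980.CB

open Pool.Agent.N980.NU
open Pool.Agent.H356R3.NS (K C3 E3 R3 ex SN Sym RD TT SF SFam Fam cf' at' nk pw fj dS Bf dt)

variable {R : ℕ} {G σ : ℝ}

/-- The shifted sequence. -/
def pre (F y : ℕ → ℝ) : ℕ → ℝ
  | 0 => 0
  | n + 1 => F n * y n

/-- The coefficients of the operator. -/
def kq (F y : ℕ → ℝ) (n : ℕ) : ℝ := pre F y n - F n * y (n + 1)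

/-- The coefficients of a field on the chain. -/
noncomputable def cs (R : ℕ) (v : V → V) (n : ℕ) : ℝ := cx (R ^ n) v

/-- The rates of rotation. -/
noncomputable def rt (G σ : ℝ) (R : ℕ) (y : ℕ → ℝ) (n : ℕ) : ℝ :=
  G * ((R : ℝ) ^ n) ^ σ * (Real.exp (-((R : ℝ) ^ σ / 1250)) * y n + y (n + 1))

theorem Rap.const_mul {a : ℕ → ℝ} (h : Rap R a) (c : ℝ) : Rap R fun n => c * a n := by
  have := h.mul (b := fun _ => c) (C := |c|) (r := 0) (fun n => by simp)
  exact this

theorem Rap_cs (hR : 2 ≤ R) {v : V → V} (hv : SPV v) : Rap R (cs R v) := Rap_cx hR hv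

theorem rt_growth (hR : 2 ≤ R) {y : ℕ → ℝ} (hy : Rap R y) :
    ∃ C : ℝ, ∃ r : ℕ, ∀ n, |rt G σ R y n| ≤ C * ((R : ℝ) ^ n) ^ r := by
  obtain ⟨C, hC⟩ := hy 0
  have hC' : ∀ n, |y n| ≤ C := fun n => by simpa using hC n
  refine ⟨|G| * (2 * C), ⌈σ⌉₊, fun n => ?_⟩
  have h1 := one_le_R hR n
  have h2 : ((R : ℝ) ^ n) ^ σ ≤ ((R : ℝ) ^ n) ^ ⌈σ⌉₊ := by
    rw [← Real.rpow_natCast ((R : ℝ) ^ n) ⌈σ⌉₊]
    exact Real.rpow_le_rpow_of_exponent_le h1 (Nat.le_ceil σ)
  have h3 : Real.exp (-((R : ℝ) ^ σ / 1250)) ≤ 1 := Real.exp_le_one_iff.2 (by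
    have : 0 ≤ (R : ℝ) ^ σ := by positivity
    linarith)
  have h4 : 0 ≤ ((R : ℝ) ^ n) ^ σ := by positivity
  unfold rt
  rw [abs_mul, abs_mul, abs_of_nonneg h4]
  calc |G| * ((R : ℝ) ^ n) ^ σ * |Real.exp (-((R : ℝ) ^ σ / 1250)) * y n + y (n + 1)|
      ≤ |G| * ((R : ℝ) ^ n) ^ ⌈σ⌉₊ * (2 * C) := by
        gcongr
        calc |Real.exp (-((R : ℝ) ^ σ / 1250)) * y n + y (n + 1)|
            ≤ |Real.exp (-((R : ℝ) ^ σ / 1250)) * y n| + |y (n + 1)| := abs_add_le _ _
          _ ≤ 1 * C + C := by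
            rw [abs_mul, abs_of_pos (Real.exp_pos _)]
            have := hC' n
            have := hC' (n + 1)
            gcongr
          _ = 2 * C := by ring
    _ = |G| * (2 * C) * ((R : ℝ) ^ n) ^ ⌈σ⌉₊ := by ring

theorem Rap_pre (hR : 2 ≤ R) {F y : ℕ → ℝ} (h : Rap R fun n => F n * y n) : Rap R (pre F y) := by
  intro m
  obtain ⟨C, hC⟩ := h m
  have hC0 : 0 ≤ C := le_trans (by positivity) (hC 0)
  have hR1 : (1 : ℝ) ≤ R := by exact_mod_cast (by omega : 1 ≤ R)
  refine ⟨C * (R : ℝ) ^ m, fun n => ?_⟩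
  cases n with
  | zero =>
    simp only [pre, abs_zero, zero_mul]
    positivity
  | succ n =>
    show |F n * y n| * ((R : ℝ) ^ (n + 1)) ^ m ≤ _
    calc |F n * y n| * ((R : ℝ) ^ (n + 1)) ^ m = |F n * y n| * ((R : ℝ) ^ n) ^ m * (R : ℝ) ^ m := by
          rw [pow_succ, mul_pow]; ring
      _ ≤ C * (R : ℝ) ^ m := by gcongr; exact hC n

theorem Rap_rt (hR : 2 ≤ R) {y w : ℕ → ℝ} (hy : Rap R y) (hw : Rap R w) : Rap R fun n => rt G σ R y n * w n := by
  obtain ⟨C, r, h⟩ := rt_growth (G := G) (σ := σ) hR hy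
  exact hw.mul h

theorem Rap_kq (hR : 2 ≤ R) {y w : ℕ → ℝ} (hy : Rap R y) (hw : Rap R w) : Rap R (kq (rt G σ R y) w) :=
  (Rap_pre hR (Rap_rt hR hy hw)).sub (Rap_rt hR hy (hw.shift hR))

theorem CF_add (hR : 2 ≤ R) {a b : ℕ → ℝ} (ha : Rap R a) (hb : Rap R b) :
    CF R (fun n => a n + b n) = CF R a + CF R b := by
  funext x
  have h1 := hasSum_CF hR (ha.add hb) x
  have h2 := (hasSum_CF hR ha x).add (hasSum_CF hR hb x)
  refine h1.unique (h2.congr_fun fun n => ?_)
  rw [add_smul]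

theorem CF_smul (hR : 2 ≤ R) {a : ℕ → ℝ} (ha : Rap R a) (c : ℝ) :
    CF R (fun n => c * a n) = c • CF R a := by
  funext x
  have h1 := hasSum_CF hR (ha.const_mul c) x
  have h2 := (hasSum_CF hR ha x).const_smul c
  refine h1.unique (h2.congr_fun fun n => ?_)
  rw [mul_smul]

theorem CF_sub (hR : 2 ≤ R) {a b : ℕ → ℝ} (ha : Rap R a) (hb : Rap R b) :
    CF R (fun n => a n - b n) = CF R a - CF R b := by
  funext x
  have h1 := hasSum_CF hR (ha.sub hb) x
  have h2 := (hasSum_CF hR ha x).sub (hasSum_CF hR hb x)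
  refine h1.unique (h2.congr_fun fun n => ?_)
  rw [sub_smul]

/-- The operator in terms of its coefficients. -/
theorem KK_eq (hR : 2 ≤ R) {u v : V → V} (hu : SPV u) (hv : SPV v) :
    KK G σ R u v = CF R (kq (rt G σ R (cs R u)) (cs R v)) := by
  have hy := Rap_cs hR hu
  have hw := Rap_cs hR hv
  set F := rt G σ R (cs R u) with hF
  set w := cs R v with hwd
  have hP : Rap R (pre F w) := Rap_pre hR (Rap_rt hR hy hw)
  have hQ : Rap R fun n => F n * w (n + 1) := Rap_rt hR hy (hw.shift hR)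
  funext x
  have h1 := hasSum_CF hR hP x
  have h2 := hasSum_CF hR hQ x
  have h3 : HasSum (fun n => (F n * w n) • cc (R ^ (n + 1)) x) (CF R (pre F w) x) := by
    have h4 := (hasSum_nat_add_iff' (f := fun n => pre F w n • cc (R ^ n) x) 1).2 h1
    simp only [Finset.range_one, Finset.sum_singleton, pre, zero_smul, sub_zero] at h4
    exact h4
  have h5 := h3.sub h2
  have e : CF R (kq F w) x = CF R (pre F w) x - CF R (fun n => F n * w (n + 1)) x := by
    have := congrFun (CF_sub hR hP hQ) x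
    exact this
  rw [e]
  unfold KK
  refine HasSum.tsum_eq (h5.congr_fun ?_)
  intro n
  show F n • (w n • cc (R ^ (n + 1)) x - w (n + 1) • cc (R ^ n) x)
    = (F n * w n) • cc (R ^ (n + 1)) x - (F n * w (n + 1)) • cc (R ^ n) x
  rw [smul_sub, smul_smul, smul_smul]

theorem SPV_KK (hR : 2 ≤ R) {u v : V → V} (hu : SPV u) (hv : SPV v) : SPV (KK G σ R u v) := by
  rw [KK_eq hR hu hv]
  exact SPV_CF hR (Rap_kq hR (Rap_cs hR hu) (Rap_cs hR hv))

theorem dv_KK (hR : 2 ≤ R) {u v : V → V} (hu : SPV u) (hv : SPV v) (x : V) : dv (KK G σ R u v) x = 0 := by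
  rw [KK_eq hR hu hv]
  exact dv_CF hR (Rap_kq hR (Rap_cs hR hu) (Rap_cs hR hv)) x

theorem cx_CF (hR : 2 ≤ R) {a : ℕ → ℝ} (h : Rap R a) (n : ℕ) : cx (R ^ n) (CF R a) = a n := by
  rw [cx_eq (SPV_CF hR h).cont]
  have h1 : fco (CF R a) (frq R n) 2 = chf R a (frq R n) 2 := fco_fs (SN_chf hR h) (Sym_chf hR a) _ _
  rw [h1]
  show Real.sqrt 2 * (((onl R (fun n => a n / Real.sqrt 2) (frq R n) : ℝ) : ℂ)).re = a n
  rw [onl_frq hR, Complex.ofReal_re]
  have := sqrt2_pos
  field_simp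

theorem cx_KK (hR : 2 ≤ R) {u v : V → V} (hu : SPV u) (hv : SPV v) (n : ℕ) :
    cx (R ^ n) (KK G σ R u v) = kq (rt G σ R (cs R u)) (cs R v) n := by
  rw [KK_eq hR hu hv]
  exact cx_CF hR (Rap_kq hR (Rap_cs hR hu) (Rap_cs hR hv)) n

/-- The trilinear form. -/
theorem ip_KK (hR : 2 ≤ R) {u v w : V → V} (hu : SPV u) (hv : SPV v) (hw : SPV w) :
    HasSum (fun n => rt G σ R (cs R u) n * (cs R v n * cs R w (n + 1) - cs R v (n + 1) * cs R w n))
      (ip (KK G σ R u v) w) := by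
  have hy := Rap_cs hR hu
  have hv' := Rap_cs hR hv
  have hw' := Rap_cs hR hw
  set F := rt G σ R (cs R u) with hF
  have hP : Rap R (pre F (cs R v)) := Rap_pre hR (Rap_rt hR hy hv')
  have hQ : Rap R fun n => F n * cs R v (n + 1) := Rap_rt hR hy (hv'.shift hR)
  have h1 := ip_CF hR hP hw.cont
  have h2 := ip_CF hR hQ hw.cont
  have h3 : HasSum (fun n => (F n * cs R v n) * cx (R ^ (n + 1)) w) (ip (CF R (pre F (cs R v))) w) := by
    have h4 := (hasSum_nat_add_iff' (f := fun n => pre F (cs R v) n * cx (R ^ n) w) 1).2 h1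
    simp only [Finset.range_one, Finset.sum_singleton, pre, zero_mul, sub_zero] at h4
    exact h4
  have h5 := h3.sub h2
  have e : ip (KK G σ R u v) w = ip (CF R (pre F (cs R v))) w - ip (CF R fun n => F n * cs R v (n + 1)) w := by
    have h6 := ip_CF hR (hP.sub hQ) hw.cont
    have h7 := h1.sub h2
    rw [KK_eq hR hu hv]
    refine HasSum.unique h6 (h7.congr_fun fun n => ?_)
    rw [sub_mul]
  rw [e]
  refine h5.congr_fun fun n => ?_
  show F n * (cs R v n * cs R w (n + 1) - cs R v (n + 1) * cs R w n)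
    = (F n * cs R v n) * cs R w (n + 1) - (F n * cs R v (n + 1)) * cs R w n
  ring

theorem KK_skew (hR : 2 ≤ R) {u v w : V → V} (hu : SPV u) (hv : SPV v) (hw : SPV w) :
    ip (KK G σ R u v) w = -ip v (KK G σ R u w) := by
  rw [ip_comm v]
  have h1 := ip_KK (G := G) (σ := σ) hR hu hv hw
  have h2 := (ip_KK (G := G) (σ := σ) hR hu hw hv).neg
  refine h1.unique (h2.congr_fun fun n => ?_)
  ring

theorem KK_self (hR : 2 ≤ R) {u : V → V} (hu : SPV u) : ip (KK G σ R u u) u = 0 := by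
  have h1 := KK_skew (G := G) (σ := σ) hR hu hu hu
  rw [ip_comm u] at h1
  linarith

theorem cs_add {u v : V → V} (hu : Continuous u) (hv : Continuous v) (n : ℕ) :
    cs R (u + v) n = cs R u n + cs R v n := by
  unfold cs
  rw [cx_eq hu, cx_eq hv, cx_eq (hu.add hv)]
  have : fco (u + v) (frq R n) 2 = fco u (frq R n) 2 + fco v (frq R n) 2 := by
    rw [fco_eq_ex, fco_eq_ex, fco_eq_ex, ← integral_add]
    · congr 1
      funext x
      rw [Pi.add_apply, Pi.add_apply]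
      push_cast
      ring
    · exact int_on_cube ((Complex.continuous_ofReal.comp ((continuous_apply 2).comp hu)).mul (H356R3.NS.ex_cont _))
    · exact int_on_cube ((Complex.continuous_ofReal.comp ((continuous_apply 2).comp hv)).mul (H356R3.NS.ex_cont _))
  rw [this, Complex.add_re]
  ring

theorem cs_smul {u : V → V} (hu : Continuous u) (r : ℝ) (n : ℕ) : cs R (r • u) n = r * cs R u n := by
  unfold cs
  rw [cx_eq hu, cx_eq (hu.const_smul r)]
  have : fco (r • u) (frq R n) 2 = r * fco u (frq R n) 2 := by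
    rw [fco_eq_ex, fco_eq_ex, ← integral_const_mul]
    congr 1
    funext x
    rw [Pi.smul_apply, Pi.smul_apply, smul_eq_mul]
    push_cast
    ring
  rw [this, Complex.re_ofReal_mul]
  ring

theorem KK_add_left (hR : 2 ≤ R) {u u' v : V → V} (hu : SPV u) (hu' : SPV u') (hv : SPV v) :
    KK G σ R (u + u') v = KK G σ R u v + KK G σ R u' v := by
  rw [KK_eq hR (hu.add hu') hv, KK_eq hR hu hv, KK_eq hR hu' hv,
    ← CF_add hR (Rap_kq hR (Rap_cs hR hu) (Rap_cs hR hv)) (Rap_kq hR (Rap_cs hR hu') (Rap_cs hR hv))]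
  congr 1
  funext n
  have e : ∀ n, rt G σ R (cs R (u + u')) n = rt G σ R (cs R u) n + rt G σ R (cs R u') n := by
    intro n
    unfold rt
    rw [cs_add hu.cont hu'.cont, cs_add hu.cont hu'.cont]
    ring
  cases n with
  | zero => simp only [kq, pre, e]; ring
  | succ n => simp only [kq, pre, e]; ring

theorem KK_add_right (hR : 2 ≤ R) {u v v' : V → V} (hu : SPV u) (hv : SPV v) (hv' : SPV v') :
    KK G σ R u (v + v') = KK G σ R u v + KK G σ R u v' := by
  rw [KK_eq hR hu (hv.add hv'), KK_eq hR hu hv, KK_eq hR hu hv',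
    ← CF_add hR (Rap_kq hR (Rap_cs hR hu) (Rap_cs hR hv)) (Rap_kq hR (Rap_cs hR hu) (Rap_cs hR hv'))]
  congr 1
  funext n
  cases n with
  | zero => simp only [kq, pre, cs_add hv.cont hv'.cont]; ring
  | succ n => simp only [kq, pre, cs_add hv.cont hv'.cont]; ring

theorem KK_smul_left (hR : 2 ≤ R) (r : ℝ) {u v : V → V} (hu : SPV u) (hv : SPV v) :
    KK G σ R (r • u) v = r • KK G σ R u v := by
  rw [KK_eq hR (hu.smul r) hv, KK_eq hR hu hv,
    ← CF_smul hR (Rap_kq hR (Rap_cs hR hu) (Rap_cs hR hv)) r]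
  congr 1
  funext n
  have e : ∀ n, rt G σ R (cs R (r • u)) n = r * rt G σ R (cs R u) n := by
    intro n
    unfold rt
    rw [cs_smul hu.cont, cs_smul hu.cont]
    ring
  cases n with
  | zero => simp only [kq, pre, e]; ring
  | succ n => simp only [kq, pre, e]; ring

theorem KK_smul_right (hR : 2 ≤ R) (r : ℝ) {u v : V → V} (hu : SPV u) (hv : SPV v) :
    KK G σ R u (r • v) = r • KK G σ R u v := by
  rw [KK_eq hR hu (hv.smul r), KK_eq hR hu hv,
    ← CF_smul hR (Rap_kq hR (Rap_cs hR hu) (Rap_cs hR hv)) r]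
  congr 1
  funext n
  cases n with
  | zero => simp only [kq, pre, cs_smul hv.cont]; ring
  | succ n => simp only [kq, pre, cs_smul hv.cont]; ring

end Pool.Agent.N980.CB
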