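import Mathlib

/-!
Comparison lemmas for differential inequalities, and the continuity method.
-/

open MeasureTheory Set Filter Topology

namespace Pool.Agent.N980.CB

/-- A function with non-positive derivative wherever it is positive stays non-positive. -/
theorem barrier {φ : ℝ → ℝ} {a b : ℝ} (hc : ContinuousOn φ (Icc a b)) (h0 : φ a ≤ 0)
    (hd : ∀ t ∈ Ioo a b, 0 < φ t → ∃ φ', HasDerivAt φ φ' t ∧ φ' ≤ 0) :
    ∀ t ∈ Icc a b, φ t ≤ 0 := by
  intro t ht
  by_contra hcon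
  push Not at hcon
  set K := {s ∈ Icc a t | φ s ≤ 0} with hK
  have hct : ContinuousOn φ (Icc a t) := hc.mono (Icc_subset_Icc le_rfl ht.2)
  have hKc : IsCompact K := by
    have : K = Icc a t ∩ φ ⁻¹' Iic 0 := rfl
    rw [this]
    exact isCompact_Icc.of_isClosed_subset (hct.preimage_isClosed_of_isClosed isClosed_Icc isClosed_Iic)
      inter_subset_left
  obtain ⟨s0, hs0, hmax⟩ := hKc.exists_isGreatest ⟨a, ⟨le_rfl, ht.1⟩, h0⟩
  have hs0t : s0 < t := by
    rcases hs0.1.2.lt_or_eq with h | h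
    · exact h
    · exact absurd hs0.2 (by rw [h]; exact not_le.2 hcon)
  have hpos : ∀ s ∈ Ioo s0 t, 0 < φ s := by
    intro s hs
    by_contra hn
    push Not at hn
    exact absurd (hmax ⟨⟨hs0.1.1.trans hs.1.le, hs.2.le⟩, hn⟩) (not_le.2 hs.1)
  have hanti : AntitoneOn φ (Icc s0 t) := by
    refine antitoneOn_of_deriv_nonpos (convex_Icc _ _) (hct.mono (Icc_subset_Icc hs0.1.1 le_rfl)) ?_ ?_
    · rw [interior_Icc]
      intro s hs
      obtain ⟨φ', h1, _⟩ := hd s ⟨lt_of_le_of_lt hs0.1.1 hs.1, hs.2.trans_le ht.2⟩ (hpos s hs)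
      exact h1.differentiableAt.differentiableWithinAt
    · rw [interior_Icc]
      intro s hs
      obtain ⟨φ', h1, h2⟩ := hd s ⟨lt_of_le_of_lt hs0.1.1 hs.1, hs.2.trans_le ht.2⟩ (hpos s hs)
      rw [h1.deriv]; exact h2
  have := hanti (left_mem_Icc.2 hs0t.le) (right_mem_Icc.2 hs0t.le) hs0t.le
  exact absurd (this.trans hs0.2) (not_le.2 hcon)

/-- Growth with a time-dependent rate. -/
theorem growth_le {f P P' : ℝ → ℝ} {a b f0 c0 c1 r M : ℝ} (hf : ContinuousOn f (Icc a b))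
    (hP : ContinuousOn P (Icc a b)) (hPd : ∀ t ∈ Ioo a b, HasDerivAt P (P' t) t)
    (hP' : ∀ t ∈ Ioo a b, 0 ≤ P' t) (hP0 : ∀ t ∈ Icc a b, 0 ≤ P t) (hfa : f a ≤ f0) (hM : 0 ≤ M)
    (hMf : M ≤ f0) (hc0 : 0 ≤ c0) (hc1 : 0 ≤ c1) (hr : 0 ≤ r)
    (hd : ∀ t ∈ Ioo a b, M < f t → ∃ f', HasDerivAt f f' t ∧ f' ≤ r * P' t * f t + c0 + c1 * P' t) :
    ∀ t ∈ Icc a b, f t ≤ (f0 + c0 * (t - a) + c1 * P t) * Real.exp (r * P t) := by
  intro t ht
  have key := barrier (φ := fun s => f s * Real.exp (-(r * P s)) - f0 - c0 * (s - a) - c1 * P s)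
    (a := a) (b := b) ?_ ?_ ?_ t ht
  · have h1 : f t * Real.exp (-(r * P t)) ≤ f0 + c0 * (t - a) + c1 * P t := by
      linarith
    have h2 := mul_le_mul_of_nonneg_right h1 (Real.exp_pos (r * P t)).le
    rw [mul_assoc, ← Real.exp_add, neg_add_cancel, Real.exp_zero, mul_one] at h2
    exact h2
  · fun_prop
  · have hPa : 0 ≤ r * P a := mul_nonneg hr (hP0 a (left_mem_Icc.2 (ht.1.trans ht.2)))
    have h1 : Real.exp (-(r * P a)) ≤ 1 := Real.exp_le_one_iff.2 (by linarith)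
    have h2 : f a * Real.exp (-(r * P a)) ≤ f0 := by
      rcases le_total 0 (f a) with h | h
      · calc f a * Real.exp (-(r * P a)) ≤ f a * 1 := by gcongr
          _ ≤ f0 := by linarith
      · have : f a * Real.exp (-(r * P a)) ≤ 0 := mul_nonpos_of_nonpos_of_nonneg h (Real.exp_pos _).le
        linarith
    have h3 : 0 ≤ c1 * P a := mul_nonneg hc1 (hP0 a (left_mem_Icc.2 (ht.1.trans ht.2)))
    simp only [sub_self, mul_zero, sub_zero]
    linarith
  · intro s hs hpos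
    have hsI : s ∈ Icc a b := ⟨hs.1.le, hs.2.le⟩
    have hPs : 0 ≤ r * P s := mul_nonneg hr (hP0 s hsI)
    have e1 : Real.exp (-(r * P s)) ≤ 1 := Real.exp_le_one_iff.2 (by linarith)
    have e2 := Real.exp_pos (-(r * P s))
    have hc0s : 0 ≤ c0 * (s - a) := mul_nonneg hc0 (by linarith [hs.1])
    have hc1s : 0 ≤ c1 * P s := mul_nonneg hc1 (hP0 s hsI)
    have hfM : M < f s := by
      by_contra hn
      push Not at hn
      have : f s * Real.exp (-(r * P s)) ≤ M := by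
        rcases le_total 0 (f s) with h | h
        · calc f s * Real.exp (-(r * P s)) ≤ f s * 1 := by gcongr
            _ ≤ M := by linarith
        · have : f s * Real.exp (-(r * P s)) ≤ 0 := mul_nonpos_of_nonpos_of_nonneg h e2.le
          linarith
      linarith
    obtain ⟨f', hf1, hf2⟩ := hd s hs hfM
    refine ⟨f' * Real.exp (-(r * P s)) + f s * (Real.exp (-(r * P s)) * (-(r * P' s))) - c0 - c1 * P' s, ?_, ?_⟩
    · have h1 : HasDerivAt (fun s => Real.exp (-(r * P s))) (Real.exp (-(r * P s)) * (-(r * P' s))) s :=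
        (((hPd s hs).const_mul r).fun_neg).exp
      have h2 : HasDerivAt (fun s => c0 * (s - a)) c0 s := by
        have := ((hasDerivAt_id' s).sub_const a).const_mul c0
        rwa [mul_one] at this
      exact (((hf1.mul h1).sub_const f0).sub h2).sub ((hPd s hs).const_mul c1)
    · have h3 : 0 ≤ c0 + c1 * P' s := add_nonneg hc0 (mul_nonneg hc1 (hP' s hs))
      have h4 : (f' - r * P' s * f s) * Real.exp (-(r * P s)) ≤ (c0 + c1 * P' s) * 1 := by
        calc (f' - r * P' s * f s) * Real.exp (-(r * P s)) ≤ (c0 + c1 * P' s) * Real.exp (-(r * P s)) := by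
              refine mul_le_mul_of_nonneg_right ?_ e2.le
              linarith
          _ ≤ (c0 + c1 * P' s) * 1 := by gcongr
      nlinarith [h4]

/-- Growth with a constant rate. -/
theorem growth_le' {f : ℝ → ℝ} {a b f0 c0 r M : ℝ} (hf : ContinuousOn f (Icc a b))
    (hfa : f a ≤ f0) (hM : 0 ≤ M) (hMf : M ≤ f0) (hc0 : 0 ≤ c0) (hr : 0 ≤ r)
    (hd : ∀ t ∈ Ioo a b, M < f t → ∃ f', HasDerivAt f f' t ∧ f' ≤ r * f t + c0) :
    ∀ t ∈ Icc a b, f t ≤ (f0 + c0 * (t - a)) * Real.exp (r * (t - a)) := by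
  intro t ht
  have := growth_le (P := fun s => s - a) (P' := fun _ => 1) (c1 := 0) (r := r) hf (by fun_prop)
    (fun s _ => (hasDerivAt_id' s).sub_const a) (fun _ _ => zero_le_one) (fun s hs => by simp; exact hs.1)
    hfa hM hMf hc0 le_rfl hr
    (fun s hs hf => by
      obtain ⟨f', h1, h2⟩ := hd s hs hf
      exact ⟨f', h1, by simpa using h2⟩) t ht
  simpa using this

/-- Bounded derivative: the function grows at most linearly. -/
theorem lin_le {f : ℝ → ℝ} {a b f0 c0 M : ℝ} (hf : ContinuousOn f (Icc a b))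
    (hfa : f a ≤ f0) (hM : 0 ≤ M) (hMf : M ≤ f0) (hc0 : 0 ≤ c0)
    (hd : ∀ t ∈ Ioo a b, M < f t → ∃ f', HasDerivAt f f' t ∧ f' ≤ c0) :
    ∀ t ∈ Icc a b, f t ≤ f0 + c0 * (t - a) := by
  intro t ht
  have := growth_le' (r := 0) hf hfa hM hMf hc0 le_rfl (fun s hs hf => by
    obtain ⟨f', h1, h2⟩ := hd s hs hf
    exact ⟨f', h1, by simpa using h2⟩) t ht
  simpa using this

/-- A function with non-negative derivative is at least its initial value. -/
theorem mono_of {f : ℝ → ℝ} {a b : ℝ} (hf : ContinuousOn f (Icc a b))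
    (hd : ∀ t ∈ Ioo a b, ∃ f', HasDerivAt f f' t ∧ 0 ≤ f') : ∀ t ∈ Icc a b, f a ≤ f t := by
  intro t ht
  have := barrier (φ := fun s => f a - f s) (a := a) (b := b) (by fun_prop) (by simp) (fun s hs _ => by
    obtain ⟨f', h1, h2⟩ := hd s hs
    exact ⟨-f', by simpa using h1.const_sub (f a), by linarith⟩) t ht
  linarith

/-- The continuity method. -/
theorem cont_method {a b : ℝ} {Bd : ℝ → Prop} (h0 : Bd a)
    (hcl : ∀ t ∈ Ioc a b, (∀ s ∈ Ico a t, Bd s) → Bd t)
    (hop : ∀ t ∈ Ico a b, (∀ s ∈ Icc a t, Bd s) → ∀ᶠ s in 𝓝[>] t, Bd s) : ∀ t ∈ Icc a b, Bd t := by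
  intro t ht
  by_contra hcon
  set S := {s ∈ Icc a t | ¬Bd s} with hS
  have hSne : S.Nonempty := ⟨t, ⟨ht.1, le_rfl⟩, hcon⟩
  have hSb : BddBelow S := ⟨a, fun s hs => hs.1.1⟩
  set c := sInf S with hc
  have hac : a ≤ c := le_csInf hSne fun s hs => hs.1.1
  have hct : c ≤ t := csInf_le hSb ⟨⟨ht.1, le_rfl⟩, hcon⟩
  have hlt : ∀ s ∈ Ico a c, Bd s := by
    intro s hs
    by_contra hn
    exact absurd (csInf_le hSb ⟨⟨hs.1, hs.2.le.trans hct⟩, hn⟩) (not_le.2 hs.2)
  have hBc : Bd c := by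
    rcases hac.eq_or_lt with h | h
    · rw [← h]; exact h0
    · exact hcl c ⟨h, hct.trans ht.2⟩ hlt
  have hct' : c < t := by
    rcases hct.eq_or_lt with h | h
    · exact absurd (h ▸ hBc) hcon
    · exact h
  have hall : ∀ s ∈ Icc a c, Bd s := by
    intro s hs
    rcases hs.2.eq_or_lt with h | h
    · rw [h]; exact hBc
    · exact hlt s ⟨hs.1, h⟩
  have h1 := hop c ⟨hac, hct'.trans_le ht.2⟩ hall
  rw [eventually_iff, mem_nhdsGT_iff_exists_Ioo_subset] at h1
  obtain ⟨d, hd, hsub⟩ := h1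
  have hd' : c < d := hd
  have h2 : d ≤ c := by
    refine le_csInf hSne fun s hs => ?_
    by_contra hn
    push Not at hn
    have h3 : c ≤ s := csInf_le hSb hs
    rcases h3.eq_or_lt with h | h
    · exact hs.2 (h ▸ hBc)
    · exact hs.2 (hsub ⟨h, hn⟩)
  exact absurd h2 (not_le.2 hd')

end Pool.Agent.N980.CB
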