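import Pool.Agent.N980.CB.Ode

/-!
The chain system: definitions and numerical inequalities.
-/

open MeasureTheory Set Filter Topology

namespace Pool.Agent.N980.CB

/-- The threshold ratio. -/
noncomputable def qq : ℝ := 1 / 5000

theorem qq_pos : 0 < qq := by unfold qq; norm_num

/-- The rate of rotation of the plane of the modes `k` and `k+1`. -/
noncomputable def FF (g : ℕ → ℝ) (δ : ℝ) (x : ℕ → ℝ → ℝ) (k : ℕ) (t : ℝ) : ℝ :=
  g k * (δ * x k t + x (k + 1) t)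

/-- The input from the previous mode. -/
noncomputable def inn (g : ℕ → ℝ) (δ : ℝ) (x : ℕ → ℝ → ℝ) : ℕ → ℝ → ℝ
  | 0, _ => 0
  | k + 1, t => FF g δ x k t * x k t

/-- The output to the next mode. -/
noncomputable def out (g : ℕ → ℝ) (δ : ℝ) (x : ℕ → ℝ → ℝ) (k : ℕ) (t : ℝ) : ℝ :=
  FF g δ x k t * x (k + 1) t

/-- The chain system with errors. -/
structure Flow (g d η : ℕ → ℝ) (δ T : ℝ) (x : ℕ → ℝ → ℝ) : Prop where
  cont : ∀ k, ContinuousOn (x k) (Icc 0 T)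
  ode : ∀ k, ∀ t ∈ Ioo 0 T, ∃ e, |e| ≤ η k ∧
    HasDerivAt (x k) (-(d k * x k t) + inn g δ x k t - out g δ x k t + e) t

/-- The parameters. -/
structure Par (Λ z : ℝ) : Prop where
  hΛ : 10 ^ 14 ≤ Λ
  hz : 0 < z
  hzΛ : z * Λ ^ 4 ≤ 1 / 10 ^ 30
  he1 : Real.exp (Λ * (6 / 5 * qq)) * z ^ 5 ≤ 1
  he2 : 2 ≤ Real.exp (Λ * (441 / 100 * qq)) * z ^ 16

variable {Λ z : ℝ}

theorem Par.hΛ0 (h : Par Λ z) : 0 < Λ := by have := h.hΛ; linarith [show (0:ℝ) < 10 ^ 14 by norm_num]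

theorem Par.hΛ1 (h : Par Λ z) : 1 ≤ Λ := by have := h.hΛ; linarith [show (1:ℝ) ≤ 10 ^ 14 by norm_num]

/-- Powers of `Λ` up to the fourth are beaten by `z`. -/
theorem Par.zΛ (h : Par Λ z) {m : ℕ} (hm : m ≤ 4) : z * Λ ^ m ≤ 1 / 10 ^ 30 := by
  have h1 : Λ ^ m ≤ Λ ^ 4 := pow_le_pow_right₀ h.hΛ1 hm
  have := mul_le_mul_of_nonneg_left h1 h.hz.le
  linarith [h.hzΛ]

theorem Par.z_small (h : Par Λ z) : z ≤ 1 / 10 ^ 30 := by
  have := h.zΛ (m := 0) (by norm_num)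
  simpa using this

theorem Par.z1 (h : Par Λ z) : z ≤ 1 := h.z_small.trans (by norm_num)

theorem Par.zpow_le (h : Par Λ z) {m n : ℕ} (hmn : m ≤ n) : z ^ n ≤ z ^ m :=
  pow_le_pow_of_le_one h.hz.le h.z1 hmn

/-- `z^n Λ^m` is much smaller than `z^(n-1)`. -/
theorem Par.zpow_mul (h : Par Λ z) (n : ℕ) {m : ℕ} (hm : m ≤ 4) : z ^ (n + 1) * Λ ^ m ≤ z ^ n * (1 / 10 ^ 30) := by
  have h1 := h.zΛ hm
  have h2 : 0 < z ^ n := pow_pos h.hz n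
  calc z ^ (n + 1) * Λ ^ m = z ^ n * (z * Λ ^ m) := by ring
    _ ≤ z ^ n * (1 / 10 ^ 30) := by gcongr

theorem Par.zpow_succ (h : Par Λ z) (n : ℕ) : z ^ (n + 1) ≤ z ^ n * (1 / 10 ^ 30) := by
  have := h.zpow_mul n (m := 0) (by norm_num)
  simpa using this

/-- The exponential factor. -/
theorem Par.exp_le (h : Par Λ z) {P : ℝ} (hP : P ≤ 6 / 5 * qq) (n : ℕ) :
    z ^ (n + 5) * Real.exp (Λ * P) ≤ z ^ n := by
  have h1 : Real.exp (Λ * P) ≤ Real.exp (Λ * (6 / 5 * qq)) :=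
    Real.exp_le_exp.2 (mul_le_mul_of_nonneg_left hP h.hΛ0.le)
  have h2 : 0 < z ^ n := pow_pos h.hz n
  have h5 : 0 < z ^ 5 := pow_pos h.hz 5
  calc z ^ (n + 5) * Real.exp (Λ * P) = z ^ n * (Real.exp (Λ * P) * z ^ 5) := by ring
    _ ≤ z ^ n * (Real.exp (Λ * (6 / 5 * qq)) * z ^ 5) := by gcongr
    _ ≤ z ^ n * 1 := by gcongr; exact h.he1
    _ = z ^ n := mul_one _

end Pool.Agent.N980.CB
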