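import Pool.Agent.N980.CB.Kop
import Pool.Agent.N980.CB.Casc

/-!
The parameters.
-/

open MeasureTheory Set Filter Topology
open scoped ContDiff

set_option linter.unusedVariables false

namespace Pool.Agent.N980.CB

open Pool.Agent.N980.NU

variable {R : ℕ} {G σ : ℝ}

/-- The small parameter. -/
noncomputable def zz (Λ : ℝ) : ℝ := Real.exp (-(Λ * (qq / 4)))

theorem zz16 (Λ : ℝ) : zz Λ ^ 16 = Real.exp (-(Λ / 1250)) := by
  unfold zz qq
  rw [← Real.exp_nat_mul]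
  congr 1
  push_cast
  ring

theorem par_zz {Λ : ℝ} (hΛ : 10 ^ 14 ≤ Λ) : Par Λ (zz Λ) := by
  refine ⟨hΛ, Real.exp_pos _, ?_, ?_, ?_⟩
  · set y : ℝ := Λ / 20000 with hy
    have hy0 : 5 * 10 ^ 9 ≤ y := by
      rw [hy, le_div_iff₀ (by norm_num)]
      linarith
    have e1 : zz Λ = Real.exp (-y) := by
      unfold zz qq
      congr 1
      rw [hy]; ring
    have e2 : Λ = 20000 * y := by rw [hy]; ring
    rw [e1, e2]
    have h1 := Real.pow_div_factorial_le_exp y (by linarith) 10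
    have h2 : y ^ 4 * (16 * 10 ^ 46) ≤ y ^ 10 / (Nat.factorial 10 : ℝ) := by
      have h3 : (5 * 10 ^ 9) ^ 6 ≤ y ^ 6 := by gcongr
      have h4 : 0 ≤ y ^ 4 := by positivity
      have h5 : (Nat.factorial 10 : ℝ) = 3628800 := by norm_num [Nat.factorial]
      rw [h5, le_div_iff₀ (by norm_num)]
      calc y ^ 4 * (16 * 10 ^ 46) * 3628800 = y ^ 4 * (16 * 10 ^ 46 * 3628800) := by ring
        _ ≤ y ^ 4 * (5 * 10 ^ 9) ^ 6 := by gcongr; norm_num
        _ ≤ y ^ 4 * y ^ 6 := by gcongr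
        _ = y ^ 10 := by ring
    have h3 : y ^ 4 * (16 * 10 ^ 46) ≤ Real.exp y := h2.trans h1
    rw [Real.exp_neg, inv_mul_eq_div, div_le_iff₀ (Real.exp_pos _)]
    calc (20000 * y) ^ 4 = 1 / 10 ^ 30 * (y ^ 4 * (16 * 10 ^ 46)) := by ring
      _ ≤ 1 / 10 ^ 30 * Real.exp y := by gcongr
  · unfold zz
    rw [← Real.exp_nat_mul, ← Real.exp_add, Real.exp_le_one_iff]
    push_cast
    unfold qq
    nlinarith
  · unfold zz
    rw [← Real.exp_nat_mul, ← Real.exp_add]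
    push_cast
    have h1 : (1 : ℝ) ≤ Λ * (441 / 100 * qq) + 16 * -(Λ * (qq / 4)) := by
      unfold qq
      nlinarith
    calc (2 : ℝ) ≤ 1 + 1 := by norm_num
      _ ≤ (Λ * (441 / 100 * qq) + 16 * -(Λ * (qq / 4))) + 1 := by linarith
      _ ≤ _ := Real.add_one_le_exp _

/-- The conditions on the ratio of the frequencies. -/
structure RC (R : ℕ) (σ : ℝ) : Prop where
  s2 : 2 < σ
  s3 : σ < 3
  R5 : 10 ^ 5 ≤ R
  RΛ : 10 ^ 4 * (R : ℝ) ^ 2 ≤ (R : ℝ) ^ σ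

theorem RC.two (h : RC R σ) : 2 ≤ R := le_trans (by norm_num) h.R5

theorem RC.R5' (h : RC R σ) : (10 : ℝ) ^ 5 ≤ R := by exact_mod_cast h.R5

theorem RC.hΛ (h : RC R σ) : 10 ^ 14 ≤ (R : ℝ) ^ σ := by
  have h1 := h.R5'
  have h2 := h.RΛ
  nlinarith

theorem RC.par (h : RC R σ) : Par ((R : ℝ) ^ σ) (zz ((R : ℝ) ^ σ)) := par_zz h.hΛ

theorem rpow_swap (R : ℕ) (σ : ℝ) (n : ℕ) : ((R : ℝ) ^ n) ^ σ = ((R : ℝ) ^ σ) ^ n := by
  rw [← Real.rpow_natCast, ← Real.rpow_mul (by positivity), mul_comm, Real.rpow_mul (by positivity),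
    Real.rpow_natCast]

theorem RC.exists (hs : 2 < σ) (hs3 : σ < 3) : ∃ R0 : ℕ, ∀ R : ℕ, R0 ≤ R → RC R σ := by
  have h1 : Tendsto (fun R : ℕ => (R : ℝ) ^ (σ - 2)) atTop atTop :=
    (tendsto_rpow_atTop (by linarith)).comp tendsto_natCast_atTop_atTop
  obtain ⟨N, hN⟩ := (h1.eventually (eventually_ge_atTop (10 ^ 4))).exists_forall_of_atTop
  refine ⟨max N (10 ^ 5), fun R hR => ?_⟩
  have hR5 : 10 ^ 5 ≤ R := (le_max_right _ _).trans hR
  have hR0 : (0 : ℝ) < R := by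
    have : 0 < R := lt_of_lt_of_le (by norm_num) hR5
    exact_mod_cast this
  refine ⟨hs, hs3, hR5, ?_⟩
  have h2 := hN R ((le_max_left _ _).trans hR)
  calc 10 ^ 4 * (R : ℝ) ^ 2 ≤ (R : ℝ) ^ (σ - 2) * (R : ℝ) ^ 2 := by gcongr
    _ = (R : ℝ) ^ (σ - 2) * (R : ℝ) ^ (2 : ℝ) := by rw [← Real.rpow_natCast _ 2]; norm_num
    _ = (R : ℝ) ^ σ := by rw [← Real.rpow_add hR0]; congr 1; ring

/-- The operator's coefficients in terms of the chain system. -/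
theorem kq_eq (h : RC R σ) (x : ℕ → ℝ → ℝ) (t : ℝ) (n : ℕ) :
    kq (rt G σ R fun k => x k t) (fun k => x k t) n
      = inn (gG G ((R : ℝ) ^ σ)) (zz ((R : ℝ) ^ σ) ^ 16) x n t - out (gG G ((R : ℝ) ^ σ)) (zz ((R : ℝ) ^ σ) ^ 16) x n t := by
  cases n with
  | zero =>
    simp only [kq, pre, inn, out, FF, rt, gG, zz16, rpow_swap]
  | succ n =>
    simp only [kq, pre, inn, out, FF, rt, gG, zz16, rpow_swap]

end Pool.Agent.N980.CB
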