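import Pool.Agent.N980.CB.Fin
import Pool.Agent.N980.CB.Uni

/-!
The properties of the operator; the energy equality.
-/

open MeasureTheory Set Filter Topology
open scoped ContDiff

namespace Pool.Agent.N980.CB

open Pool.Agent.N980.NU

/-- The properties of the operator `K`. -/
structure KProps (G σ : ℝ) (R : ℕ) : Prop where
  spv : ∀ u v, SPV u → SPV v → SPV (KK G σ R u v)
  divfree : ∀ u v, SPV u → SPV v → ∀ x, dv (KK G σ R u v) x = 0
  add_left : ∀ u u' v, SPV u → SPV u' → SPV v → KK G σ R (u + u') v = KK G σ R u v + KK G σ R u' v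
  add_right : ∀ u v v', SPV u → SPV v → SPV v' → KK G σ R u (v + v') = KK G σ R u v + KK G σ R u v'
  smul_left : ∀ (r : ℝ) u v, SPV u → SPV v → KK G σ R (r • u) v = r • KK G σ R u v
  smul_right : ∀ (r : ℝ) u v, SPV u → SPV v → KK G σ R u (r • v) = r • KK G σ R u v
  skew : ∀ u v w, SPV u → SPV v → SPV w → ip (KK G σ R u v) w = -ip v (KK G σ R u w)
  bound : ∀ s₁ s₂ s₃ : ℝ, 0 ≤ s₁ → 0 ≤ s₂ → 0 ≤ s₃ → σ ≤ s₁ + s₂ + s₃ →
    ∀ u v w, SPV u → SPV v → SPV w → |ip (KK G σ R u v) w| ≤ 4 * G * hs s₁ u * hs s₂ v * hs s₃ w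

variable {R : ℕ} {G σ ν T : ℝ} {u : ℝ → V → V} {p : ℝ → V → ℝ}

theorem kprops (hR : 2 ≤ R) (hG : 0 ≤ G) : KProps G σ R where
  spv := fun _ _ hu hv => SPV_KK hR hu hv
  divfree := fun _ _ hu hv => dv_KK hR hu hv
  add_left := fun _ _ _ hu hu' hv => KK_add_left hR hu hu' hv
  add_right := fun _ _ _ hu hv hv' => KK_add_right hR hu hv hv'
  smul_left := fun r _ _ hu hv => KK_smul_left hR r hu hv
  smul_right := fun r _ _ hu hv => KK_smul_right hR r hu hv
  skew := fun _ _ _ hu hv hw => KK_skew hR hu hv hw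
  bound := fun _ _ _ h1 h2 h3 hs _ _ _ hu hv hw => KK_bound hR hG h1 h2 h3 hs hu hv hw

/-- The energy equality. -/
theorem SmSol.energy_eq (h : SmSol ν G σ R T u p) (hR : 2 ≤ R) (hν : 0 < ν) {t : ℝ} (ht : t ∈ Ico 0 T) :
    energy (u t) + 2 * ν * ∫ s in (0 : ℝ)..t, dissip (u s) = energy (u 0) := by
  have hc' : ContinuousOn (fun s => -energy (u s)) (Icc 0 t) :=
    (h.energy_cont.mono fun s hs => ⟨hs.1, hs.2.trans_lt ht.2⟩).neg
  have hd : ∀ s ∈ Ioo 0 t, HasDerivAt (fun s => -energy (u s)) (2 * ν * dissip (u s)) s := by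
    intro s hs
    have := (h.energy_deriv hR ⟨hs.1, hs.2.trans ht.2⟩).neg
    rwa [neg_neg] at this
  have hi : IntervalIntegrable (fun s => 2 * ν * dissip (u s)) volume 0 t := by
    refine intervalIntegral.intervalIntegrable_deriv_of_nonneg (g := fun s => -energy (u s)) ?_ ?_ ?_
    · rwa [uIcc_of_le ht.1]
    · rw [min_eq_left ht.1, max_eq_right ht.1]; exact hd
    · intro s _
      have := dissip_nonneg' (u s)
      positivity
  have := intervalIntegral.integral_eq_sub_of_hasDerivAt_of_le ht.1 hc' hd hi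
  rw [intervalIntegral.integral_const_mul] at this
  linarith

end Pool.Agent.N980.CB
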