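import Pool.Agent.N980.CB.Kbd
import Pool.Agent.N980.CB.Prm
import Pool.Agent.H459R3.NS.Sol
import Pool.Agent.H459R3.NS.High2

/-!
Smooth solutions: energy, and the equations of the coefficients on the chain.
-/

open MeasureTheory Set Filter Topology
open scoped ContDiff

set_option linter.unusedVariables false

namespace Pool.Agent.N980.CB

open Pool.Agent.N980.NU

variable {R : ℕ} {G σ ν T : ℝ} {u : ℝ → V → V} {p : ℝ → V → ℝ}

/-! ### the test function -/

/-- The scalar function `√2 cos(2πN x₁)`. -/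
noncomputable def co (N : ℕ) (x : V) : ℝ := Real.sqrt 2 * Real.cos (2 * Real.pi * (N * x 0))

theorem sp_co (N : ℕ) : H459R3.NS.SP (co N) where
  smooth := by unfold co; fun_prop
  per := fun j x => by
    unfold co
    congr 1
    by_cases hj : j = 0
    · subst hj
      rw [Pi.add_apply, Pi.single_eq_same]
      have : 2 * Real.pi * (N * (x 0 + 1)) = 2 * Real.pi * (N * x 0) + N * (2 * Real.pi) := by ring
      rw [this, Real.cos_add_nat_mul_two_pi]
    · rw [Pi.add_apply, Pi.single_eq_of_ne (Ne.symm hj), add_zero]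

theorem fd_lin (c : ℝ) (x : V) : HasFDerivAt (fun y : V => c * y 0) (c • (ContinuousLinearMap.proj (0 : Fin 3) : V →L[ℝ] ℝ)) x :=
  ((ContinuousLinearMap.proj (R := ℝ) (φ := fun _ : Fin 3 => ℝ) 0).hasFDerivAt (x := x)).const_mul c

theorem pd_co (N : ℕ) (j : Fin 3) (x : V) : H459R3.NS.pd j (co N) x
    = if j = 0 then -(2 * Real.pi * N) * (Real.sqrt 2 * Real.sin (2 * Real.pi * (N * x 0))) else 0 := by
  have h1 := (fd_lin (2 * Real.pi * N) x).cos.const_mul (Real.sqrt 2)
  have e : co N = fun y : V => Real.sqrt 2 * Real.cos (2 * Real.pi * N * y 0) := by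
    funext y; unfold co; rw [← mul_assoc (2 * Real.pi)]
  unfold H459R3.NS.pd
  rw [e, h1.fderiv]
  simp only [smul_apply, smul_eq_mul, ContinuousLinearMap.proj_apply, Pi.single_apply]
  split_ifs with h h'
  · rw [← mul_assoc (2 * Real.pi)]; ring
  · exact absurd h.symm h'
  · exact absurd (Eq.symm (by assumption)) h
  · ring

theorem pd_si (N : ℕ) (j : Fin 3) (x : V) :
    H459R3.NS.pd j (fun y : V => -(2 * Real.pi * N) * (Real.sqrt 2 * Real.sin (2 * Real.pi * (N * y 0)))) x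
    = if j = 0 then -((2 * Real.pi * N) ^ 2 * co N x) else 0 := by
  have h1 := ((fd_lin (2 * Real.pi * N) x).sin.const_mul (Real.sqrt 2)).const_mul (-(2 * Real.pi * N))
  have e : (fun y : V => -(2 * Real.pi * N) * (Real.sqrt 2 * Real.sin (2 * Real.pi * (N * y 0))))
      = fun y : V => -(2 * Real.pi * N) * (Real.sqrt 2 * Real.sin (2 * Real.pi * N * y 0)) := by
    funext y; rw [← mul_assoc (2 * Real.pi)]
  unfold H459R3.NS.pd
  rw [e, h1.fderiv]
  unfold co
  simp only [smul_apply, smul_eq_mul, ContinuousLinearMap.proj_apply, Pi.single_apply]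
  split_ifs with h h'
  · rw [← mul_assoc (2 * Real.pi)]; ring
  · exact absurd h.symm h'
  · exact absurd (Eq.symm (by assumption)) h
  · ring

theorem lap_co (N : ℕ) (x : V) : H459R3.NS.lap (co N) x = -((2 * Real.pi * N) ^ 2 * co N x) := by
  unfold H459R3.NS.lap
  rw [Fin.sum_univ_three]
  have e0 : H459R3.NS.pd 0 (co N) = fun y : V => -(2 * Real.pi * N) * (Real.sqrt 2 * Real.sin (2 * Real.pi * (N * y 0))) := by
    funext y; rw [pd_co, if_pos rfl]
  have e1 : ∀ j : Fin 3, j ≠ 0 → H459R3.NS.pd j (co N) = fun _ => 0 := by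
    intro j hj; funext y; rw [pd_co, if_neg hj]
  have e2 : ∀ j : Fin 3, H459R3.NS.pd j (fun _ : V => (0 : ℝ)) x = 0 := by
    intro j; unfold H459R3.NS.pd; simp
  rw [e0, e1 1 (by decide), e1 2 (by decide), e2, e2, pd_si, if_pos rfl]
  ring

theorem abs_co (N : ℕ) (x : V) : |co N x| ≤ Real.sqrt 2 := by
  unfold co
  rw [abs_mul, abs_of_pos sqrt2_pos]
  calc Real.sqrt 2 * |Real.cos (2 * Real.pi * (N * x 0))| ≤ Real.sqrt 2 * 1 := by
        gcongr
        exact Real.abs_cos_le_one _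
    _ = Real.sqrt 2 := mul_one _

theorem cx_co (N : ℕ) (v : V → V) : cx N v = ∫ x in H459R3.NS.cube, v x 2 * co N x := by
  unfold cx ip
  show ∫ x in H459R3.NS.cube, _ = _
  congr 1
  funext x
  rw [Fin.sum_univ_three]
  unfold cc co
  simp

/-! ### solutions -/

theorem SmSol.sm (h : SmSol ν G σ R T u p) (i : Fin 3) :
    ContDiffOn ℝ ∞ (fun z : ℝ × V => u z.1 z.2 i) (Ico 0 T ×ˢ univ) :=
  (contDiffOn_pi.1 h.smooth_u) i

theorem SmSol.spv (h : SmSol ν G σ R T u p) {t : ℝ} (ht : t ∈ Ico 0 T) : SPV (u t) :=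
  ⟨contDiff_pi.2 fun i => H459R3.NS.contDiff_slice (f := fun s y => u s y i) (h.sm i) ht, h.per_u t ht⟩

theorem SmSol.spp (h : SmSol ν G σ R T u p) {t : ℝ} (ht : t ∈ Ico 0 T) : H459R3.NS.SP (p t) :=
  ⟨H459R3.NS.contDiff_slice h.smooth_p ht, fun j x => h.per_p t ht x j⟩

theorem SmSol.hd (h : SmSol ν G σ R T u p) {t : ℝ} (ht : t ∈ Ioo 0 T) (x : V) (i : Fin 3) :
    HasDerivAt (fun s => u s x i) (ν * H459R3.NS.lap (fun y => u t y i) x
      - H459R3.NS.conv (fun i y => u t y i) i x - H459R3.NS.pd i (p t) x + KK G σ R (u t) (u t) x i) t := by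
  have h1 := H459R3.NS.hasDerivAt_slice (F := fun s y => u s y i)
    (H459R3.NS.mono_Ioo (f := fun s y => u s y i) (n := 1) (h.sm i) (by norm_cast)) ht x
  have h2 := h.momentum t ht x i
  have e1 : lap (u t) x i = H459R3.NS.lap (fun y => u t y i) x := rfl
  have e2 : ∑ j, u t x j * pd j (fun y => u t y i) x = H459R3.NS.conv (fun i y => u t y i) i x := rfl
  have e3 : pd i (p t) x = H459R3.NS.pd i (p t) x := rfl
  rw [e1, e2, e3] at h2
  have h3 := h1.deriv
  rw [h3] at h2
  refine h1.congr_deriv ?_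
  linarith

theorem dissip_nonneg' (v : V → V) : 0 ≤ dissip v :=
  integral_nonneg fun x => Finset.sum_nonneg fun i _ => Finset.sum_nonneg fun j _ => sq_nonneg _

theorem SmSol.energy_deriv (h : SmSol ν G σ R T u p) (hR : 2 ≤ R) {t : ℝ} (ht : t ∈ Ioo 0 T) :
    HasDerivAt (fun s => energy (u s)) (-(2 * ν * dissip (u t))) t := by
  have hI : t ∈ Ico 0 T := ⟨ht.1.le, ht.2⟩
  have hspv := h.spv hI
  set v : Fin 3 → V → ℝ := fun i y => u t y i with hv
  have hsp : ∀ i, H459R3.NS.SP (v i) := fun i => hspv.sp i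
  have hdiv : ∀ x, ∑ i, H459R3.NS.pd i (v i) x = 0 := fun x => h.divfree t hI x
  have hP := h.spp hI
  have hK : SPV (KK G σ R (u t) (u t)) := SPV_KK hR hspv hspv
  have hF : ContDiffOn ℝ 1 (fun z : ℝ × V => ∑ i, u z.1 z.2 i ^ 2) (Ioo 0 T ×ˢ univ) :=
    ContDiffOn.sum fun i _ => (H459R3.NS.mono_Ioo (f := fun s y => u s y i) (n := 1) (h.sm i) (by norm_cast)).pow 2
  have key := H459R3.NS.hasDerivAt_int (F := fun s x => ∑ i, u s x i ^ 2) hF ht
  refine key.congr_deriv ?_
  have h3 : ∀ x, deriv (fun s => ∑ i, u s x i ^ 2) t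
      = 2 * ν * (∑ i, H459R3.NS.lap (v i) x * v i x) - 2 * (∑ i, v i x * H459R3.NS.conv v i x)
        - 2 * (∑ i, v i x * H459R3.NS.pd i (p t) x)
        + 2 * ∑ i, KK G σ R (u t) (u t) x i * v i x := by
    intro x
    have h4 : HasDerivAt (fun s => ∑ i, u s x i ^ 2)
        (∑ i, 2 * v i x * (ν * H459R3.NS.lap (v i) x
      - H459R3.NS.conv v i x - H459R3.NS.pd i (p t) x + KK G σ R (u t) (u t) x i)) t := by
      refine HasDerivAt.fun_sum fun i _ => ?_
      have h5 := (h.hd ht x i).pow 2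
      refine h5.congr_deriv ?_
      simp only [hv]
      push_cast
      ring
    rw [h4.deriv]
    simp only [Finset.mul_sum]
    rw [← Finset.sum_sub_distrib, ← Finset.sum_sub_distrib, ← Finset.sum_add_distrib]
    exact Finset.sum_congr rfl fun i _ => by ring
  simp_rw [h3]
  have i1 : ∀ i, IntegrableOn (fun x => H459R3.NS.lap (v i) x * v i x) H459R3.NS.cube := fun i =>
    ((hsp i).lap.mul (hsp i)).int
  have i2 : ∀ i, IntegrableOn (fun x => v i x * H459R3.NS.conv v i x) H459R3.NS.cube := fun i =>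
    ((hsp i).mul (H459R3.NS.sp_conv hsp i)).int
  have i3 : ∀ i, IntegrableOn (fun x => v i x * H459R3.NS.pd i (p t) x) H459R3.NS.cube := fun i =>
    ((hsp i).mul (hP.pd i)).int
  have i4 : ∀ i, IntegrableOn (fun x => KK G σ R (u t) (u t) x i * v i x) H459R3.NS.cube := fun i =>
    ((hK.sp i).mul (hsp i)).int
  have s1 := (integrable_finsetSum Finset.univ fun i _ => i1 i).const_mul (2 * ν)
  have s2 := (integrable_finsetSum Finset.univ fun i _ => i2 i).const_mul 2
  have s3 := (integrable_finsetSum Finset.univ fun i _ => i3 i).const_mul 2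
  have s4 := (integrable_finsetSum Finset.univ fun i _ => i4 i).const_mul 2
  have s12 : Integrable (fun x => 2 * ν * (∑ i, H459R3.NS.lap (v i) x * v i x)
      - 2 * (∑ i, v i x * H459R3.NS.conv v i x)) (volume.restrict H459R3.NS.cube) := s1.sub s2
  have s123 : Integrable (fun x => 2 * ν * (∑ i, H459R3.NS.lap (v i) x * v i x)
      - 2 * (∑ i, v i x * H459R3.NS.conv v i x) - 2 * (∑ i, v i x * H459R3.NS.pd i (p t) x))
      (volume.restrict H459R3.NS.cube) := s12.sub s3
  rw [integral_add s123 s4, integral_sub s12 s3, integral_sub s1 s2,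
    integral_const_mul, integral_const_mul, integral_const_mul, integral_const_mul,
    integral_finsetSum _ fun i _ => i1 i, integral_finsetSum _ fun i _ => i2 i,
    integral_finsetSum _ fun i _ => i3 i, H459R3.NS.int_conv hsp hdiv, H459R3.NS.int_press hsp hdiv hP]
  have e4 : ∫ x in H459R3.NS.cube, ∑ i, KK G σ R (u t) (u t) x i * v i x = 0 := KK_self hR hspv
  rw [e4]
  have e2 : ∑ i, ∫ x in H459R3.NS.cube, H459R3.NS.lap (v i) x * v i x = -dissip (u t) := by
    unfold dissip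
    have h5 : ∀ i j, IntegrableOn (fun x => H459R3.NS.pd j (v i) x ^ 2) H459R3.NS.cube := by
      intro i j
      have := (((hsp i).pd j).mul ((hsp i).pd j)).int
      simpa [sq] using this
    have h6 : ∫ x in cube, ∑ i, ∑ j, pd j (fun y => u t y i) x ^ 2
        = ∑ i, ∑ j, ∫ x in H459R3.NS.cube, H459R3.NS.pd j (v i) x ^ 2 := by
      show ∫ x in H459R3.NS.cube, ∑ i, ∑ j, H459R3.NS.pd j (v i) x ^ 2 = _
      rw [integral_finsetSum _ fun i _ => integrable_finsetSum _ fun j _ => h5 i j]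
      refine Finset.sum_congr rfl fun i _ => ?_
      rw [integral_finsetSum _ fun j _ => h5 i j]
    rw [h6, ← Finset.sum_neg_distrib]
    refine Finset.sum_congr rfl fun i _ => ?_
    rw [H459R3.NS.int_lap_mul (hsp i) (hsp i)]
    congr 1
    refine Finset.sum_congr rfl fun j _ => ?_
    congr 1
    funext x
    rw [sq]
  rw [e2]
  ring

theorem SmSol.energy_cont (h : SmSol ν G σ R T u p) : ContinuousOn (fun s => energy (u s)) (Ico 0 T) := by
  have h1 : ContinuousOn (fun z : ℝ × V => ∑ i, u z.1 z.2 i ^ 2) (Ico 0 T ×ˢ univ) :=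
    continuousOn_finsetSum _ fun i _ => (h.sm i).continuousOn.pow 2
  exact H459R3.NS.continuousOn_int (F := fun s x => ∑ i, u s x i ^ 2) h1

/-- The energy does not increase. -/
theorem SmSol.energy_le (h : SmSol ν G σ R T u p) (hR : 2 ≤ R) (hν : 0 < ν) {t : ℝ} (ht : t ∈ Ico 0 T) :
    energy (u t) ≤ energy (u 0) := by
  have hT : 0 < T := ht.1.trans_lt ht.2
  have h1 : AntitoneOn (fun s => energy (u s)) (Ico 0 T) := by
    refine antitoneOn_of_deriv_nonpos (convex_Ico 0 T) h.energy_cont ?_ ?_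
    · rw [interior_Ico]
      intro s hs
      exact (h.energy_deriv hR hs).differentiableAt.differentiableWithinAt
    · rw [interior_Ico]
      intro s hs
      rw [(h.energy_deriv hR hs).deriv]
      have := dissip_nonneg' (u s)
      have : 0 ≤ 2 * ν * dissip (u s) := by positivity
      linarith
  exact h1 ⟨le_rfl, hT⟩ ht ht.1

/-- The error term. -/
noncomputable def er (N : ℕ) (v : V → V) : ℝ :=
  ∫ x in H459R3.NS.cube, v x 2 * (v x 0 * H459R3.NS.pd 0 (co N) x)

theorem er_le (N : ℕ) {v : V → V} (hv : SPV v) : |er N v| ≤ 5 * N * energy v := by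
  have hpi := Real.pi_pos
  have hpi4 : Real.pi < 3.15 := Real.pi_lt_d2
  have hsp := fun i => hv.sp i
  have hN : (0 : ℝ) ≤ N := Nat.cast_nonneg N
  have i1 : IntegrableOn (fun x => ∑ i, v x i ^ 2) H459R3.NS.cube :=
    integrable_finsetSum _ fun i _ => by
      have := ((hsp i).mul (hsp i)).int
      simp only [sq]
      exact this
  have h1 : ∀ x, ‖v x 2 * (v x 0 * H459R3.NS.pd 0 (co N) x)‖ ≤ 5 * N * ∑ i, v x i ^ 2 := by
    intro x
    rw [pd_co, if_pos rfl, Real.norm_eq_abs, Fin.sum_univ_three]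
    have e1 : |v x 2 * (v x 0 * (-(2 * Real.pi * N) * (Real.sqrt 2 * Real.sin (2 * Real.pi * (N * x 0)))))|
        = (|v x 2| * |v x 0|) * ((2 * Real.pi * N) * (Real.sqrt 2 * |Real.sin (2 * Real.pi * (N * x 0))|)) := by
      rw [abs_mul, abs_mul, abs_mul, abs_mul, abs_neg, abs_of_nonneg (by positivity : 0 ≤ 2 * Real.pi * (N : ℝ)),
        abs_of_pos sqrt2_pos]
      ring
    have e2 : Real.sqrt 2 ≤ 1.4143 := by
      rw [Real.sqrt_le_iff]; norm_num
    have e3 := Real.abs_sin_le_one (2 * Real.pi * (N * x 0))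
    have e4 : (2 * Real.pi * N) * (Real.sqrt 2 * |Real.sin (2 * Real.pi * (N * x 0))|) ≤ 10 * N := by
      calc (2 * Real.pi * N) * (Real.sqrt 2 * |Real.sin (2 * Real.pi * (N * x 0))|)
          ≤ (2 * 3.15 * N) * (1.4143 * 1) := by gcongr
        _ ≤ 10 * N := by nlinarith
    have e5 : |v x 2| * |v x 0| ≤ (v x 2 ^ 2 + v x 0 ^ 2) / 2 := by
      nlinarith [sq_nonneg (|v x 2| - |v x 0|), sq_abs (v x 2), sq_abs (v x 0)]
    rw [e1]
    calc (|v x 2| * |v x 0|) * ((2 * Real.pi * N) * (Real.sqrt 2 * |Real.sin (2 * Real.pi * (N * x 0))|))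
        ≤ ((v x 2 ^ 2 + v x 0 ^ 2) / 2) * (10 * N) := by
          apply mul_le_mul e5 e4 (by positivity) (by positivity)
      _ ≤ 5 * N * (v x 0 ^ 2 + v x 1 ^ 2 + v x 2 ^ 2) := by
          nlinarith [mul_nonneg hN (sq_nonneg (v x 1))]
  unfold er
  calc |∫ x in H459R3.NS.cube, v x 2 * (v x 0 * H459R3.NS.pd 0 (co N) x)|
      ≤ ∫ x in H459R3.NS.cube, 5 * N * ∑ i, v x i ^ 2 :=
        norm_integral_le_of_norm_le (i1.const_mul _) (Eventually.of_forall h1)
    _ = 5 * N * energy v := by rw [integral_const_mul]; rfl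

/-- The equation of a coefficient. -/
theorem SmSol.cx_deriv (h : SmSol ν G σ R T u p) (hR : 2 ≤ R) (n : ℕ) {t : ℝ} (ht : t ∈ Ioo 0 T) :
    HasDerivAt (fun s => cx (R ^ n) (u s)) (-(4 * Real.pi ^ 2 * ν * ((R : ℝ) ^ n) ^ 2 * cx (R ^ n) (u t))
      + kq (rt G σ R (cs R (u t))) (cs R (u t)) n + er (R ^ n) (u t)) t := by
  have hI : t ∈ Ico 0 T := ⟨ht.1.le, ht.2⟩
  have hspv := h.spv hI
  set N := R ^ n with hN
  set v : Fin 3 → V → ℝ := fun i y => u t y i with hv
  have hsp : ∀ i, H459R3.NS.SP (v i) := fun i => hspv.sp i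
  have hdiv : ∀ x, ∑ i, H459R3.NS.pd i (v i) x = 0 := fun x => h.divfree t hI x
  have hP := h.spp hI
  have hK : SPV (KK G σ R (u t) (u t)) := SPV_KK hR hspv hspv
  have hc := sp_co N
  have hF : ContDiffOn ℝ 1 (fun z : ℝ × V => u z.1 z.2 2 * co N z.2) (Ioo 0 T ×ˢ univ) := by
    refine (H459R3.NS.mono_Ioo (f := fun s y => u s y 2) (n := 1) (h.sm 2) (by norm_cast)).mul ?_
    exact ((hc.smooth.of_le (by norm_cast)).comp contDiff_snd).contDiffOn
  have key := H459R3.NS.hasDerivAt_int (F := fun s x => u s x 2 * co N x) hF ht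
  have e0 : (fun s => cx N (u s)) = fun s => ∫ x in H459R3.NS.cube, u s x 2 * co N x := by
    funext s; exact cx_co N (u s)
  rw [e0]
  refine key.congr_deriv ?_
  have h3 : ∀ x, deriv (fun s => u s x 2 * co N x) t
      = ν * (H459R3.NS.lap (v 2) x * co N x) - H459R3.NS.conv v 2 x * co N x
        - H459R3.NS.pd 2 (p t) x * co N x + KK G σ R (u t) (u t) x 2 * co N x := by
    intro x
    rw [((h.hd ht x 2).mul_const (co N x)).deriv]
    simp only [hv]
    ring
  simp_rw [h3]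
  have i1 : IntegrableOn (fun x => ν * (H459R3.NS.lap (v 2) x * co N x)) H459R3.NS.cube :=
    ((hsp 2).lap.mul hc).int.const_mul ν
  have i2 : IntegrableOn (fun x => H459R3.NS.conv v 2 x * co N x) H459R3.NS.cube :=
    ((H459R3.NS.sp_conv hsp 2).mul hc).int
  have i3 : IntegrableOn (fun x => H459R3.NS.pd 2 (p t) x * co N x) H459R3.NS.cube := ((hP.pd 2).mul hc).int
  have i4 : IntegrableOn (fun x => KK G σ R (u t) (u t) x 2 * co N x) H459R3.NS.cube := ((hK.sp 2).mul hc).int
  have i12 : IntegrableOn (fun x => ν * (H459R3.NS.lap (v 2) x * co N x) - H459R3.NS.conv v 2 x * co N x)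
      H459R3.NS.cube := i1.sub i2
  have i123 : IntegrableOn (fun x => ν * (H459R3.NS.lap (v 2) x * co N x) - H459R3.NS.conv v 2 x * co N x
      - H459R3.NS.pd 2 (p t) x * co N x) H459R3.NS.cube := i12.sub i3
  rw [integral_add i123 i4, integral_sub i12 i3, integral_sub i1 i2, integral_const_mul]
  -- the viscous term
  have v1 : ∫ x in H459R3.NS.cube, H459R3.NS.lap (v 2) x * co N x = -((2 * Real.pi * N) ^ 2 * cx N (u t)) := by
    rw [H459R3.NS.int_lap_symm (hsp 2) hc, cx_co, ← integral_const_mul, ← integral_neg]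
    congr 1
    funext x
    rw [lap_co]
    simp only [hv]
    ring
  -- the pressure
  have v2 : ∫ x in H459R3.NS.cube, H459R3.NS.pd 2 (p t) x * co N x = 0 := by
    rw [H459R3.NS.ibp hP hc 2]
    have : ∀ x, p t x * H459R3.NS.pd 2 (co N) x = 0 := fun x => by
      rw [pd_co, if_neg (by decide), mul_zero]
    simp_rw [this]
    simp
  -- the operator
  have v3 : ∫ x in H459R3.NS.cube, KK G σ R (u t) (u t) x 2 * co N x
      = kq (rt G σ R (cs R (u t))) (cs R (u t)) n := by
    rw [← cx_co, hN]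
    exact cx_KK hR hspv hspv n
  -- the convection
  have v4 : ∫ x in H459R3.NS.cube, H459R3.NS.conv v 2 x * co N x = -er N (u t) := by
    have c1 : ∀ x, H459R3.NS.conv v 2 x * co N x = ∑ j, H459R3.NS.pd j (v 2) x * (v j x * co N x) := by
      intro x
      unfold H459R3.NS.conv
      rw [Finset.sum_mul]
      exact Finset.sum_congr rfl fun j _ => by ring
    simp_rw [c1]
    rw [integral_finsetSum _ fun j _ => (((hsp 2).pd j).mul ((hsp j).mul hc)).int]
    have c2 : ∀ j, ∫ x in H459R3.NS.cube, H459R3.NS.pd j (v 2) x * (v j x * co N x)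
        = -∫ x in H459R3.NS.cube, v 2 x * (v j x * H459R3.NS.pd j (co N) x + H459R3.NS.pd j (v j) x * co N x) := by
      intro j
      rw [H459R3.NS.ibp (hsp 2) ((hsp j).mul hc) j]
      congr 2
      funext x
      rw [H459R3.NS.pd_mul (hsp j) hc]
    simp_rw [c2]
    rw [Finset.sum_neg_distrib, ← integral_finsetSum _ fun j _ =>
      ((hsp 2).mul (((hsp j).mul (hc.pd j)).add (((hsp j).pd j).mul hc))).int]
    congr 1
    unfold er
    congr 1
    funext x
    rw [← Finset.mul_sum, Finset.sum_add_distrib, ← Finset.sum_mul, hdiv, zero_mul, add_zero, Fin.sum_univ_three,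
      pd_co N 1, pd_co N 2, if_neg (by decide), if_neg (by decide), mul_zero, mul_zero, add_zero, add_zero]
  rw [v1, v2, v3, v4]
  have hNR : (N : ℝ) = (R : ℝ) ^ n := by rw [hN]; push_cast; rfl
  rw [hNR]
  ring

/-- Decay of the coefficients. -/
theorem cx_decay {v : V → V} (hv : SPV v) (N : ℕ) (hN : 0 < N) {C : ℝ}
    (hC : ∀ x ∈ H459R3.NS.cube, |H459R3.NS.lap (fun y => v y 2) x| ≤ C) : |cx N v| ≤ C / (N : ℝ) ^ 2 := by
  have hN' : (0 : ℝ) < N := by exact_mod_cast hN
  have hpi := Real.pi_gt_three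
  have hc := sp_co N
  have h1 : ∫ x in H459R3.NS.cube, H459R3.NS.lap (fun y => v y 2) x * co N x = -((2 * Real.pi * N) ^ 2 * cx N v) := by
    rw [H459R3.NS.int_lap_symm (hv.sp 2) hc, cx_co, ← integral_const_mul, ← integral_neg]
    congr 1
    funext x
    rw [lap_co]
    ring
  have hC0 : 0 ≤ C := (abs_nonneg _).trans (hC 0 ⟨le_rfl, zero_le_one⟩)
  have h2 : |∫ x in H459R3.NS.cube, H459R3.NS.lap (fun y => v y 2) x * co N x| ≤ C * Real.sqrt 2 := by
    have h3 : ‖∫ x in H459R3.NS.cube, H459R3.NS.lap (fun y => v y 2) x * co N x‖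
        ≤ (C * Real.sqrt 2) * volume.real H459R3.NS.cube := by
      refine norm_setIntegral_le_of_norm_le_const ?_ fun x hx => ?_
      · rw [H459R3.NS.volume_cube]; exact ENNReal.one_lt_top
      · rw [norm_mul, Real.norm_eq_abs, Real.norm_eq_abs]
        exact mul_le_mul (hC x hx) (abs_co N x) (abs_nonneg _) hC0
    have h4 : volume.real H459R3.NS.cube = 1 := by
      rw [Measure.real, H459R3.NS.volume_cube]; simp
    rwa [h4, mul_one] at h3
  rw [h1, abs_neg, abs_mul, abs_of_nonneg (by positivity)] at h2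
  have e2 : Real.sqrt 2 ≤ 2 := by
    rw [Real.sqrt_le_iff]; norm_num
  rw [le_div_iff₀ (by positivity)]
  have h5 : (2 * Real.pi * (N : ℝ)) ^ 2 * |cx N v| ≤ C * 2 := h2.trans (by gcongr)
  have h6 : 36 * ((N : ℝ) ^ 2 * |cx N v|) ≤ (2 * Real.pi * (N : ℝ)) ^ 2 * |cx N v| := by
    have : 36 * (N : ℝ) ^ 2 ≤ (2 * Real.pi * (N : ℝ)) ^ 2 := by
      rw [mul_pow]
      have : (36 : ℝ) ≤ (2 * Real.pi) ^ 2 := by nlinarith
      gcongr
    nlinarith [abs_nonneg (cx N v)]
  have h7 : 0 ≤ (N : ℝ) ^ 2 * |cx N v| := by positivity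
  nlinarith

/-- The chain system of a smooth solution. -/
theorem SmSol.sys (h : SmSol ν G σ R T u p) (hRC : RC R σ) (hν : 0 < ν) (hG : 0 < G) {E : ℝ}
    (hE : energy (u 0) ≤ E) :
    Sys R ((R : ℝ) ^ σ) (zz ((R : ℝ) ^ σ)) G (4 * Real.pi ^ 2 * ν) (5 * E) T fun n t => cx (R ^ n) (u t) := by
  have hR := hRC.two
  have hpi := Real.pi_pos
  have hE0 : 0 ≤ E := by
    refine le_trans ?_ hE
    exact integral_nonneg fun x => Finset.sum_nonneg fun i _ => sq_nonneg _
  refine ⟨hRC.par, hRC.R5', hRC.RΛ, hG, by positivity, by positivity, ?_, ?_, ?_⟩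
  · intro k
    have e0 : (fun s => cx (R ^ k) (u s)) = fun s => ∫ x in H459R3.NS.cube, u s x 2 * co (R ^ k) x := by
      funext s; exact cx_co _ (u s)
    rw [e0]
    refine H459R3.NS.continuousOn_int (F := fun s x => u s x 2 * co (R ^ k) x) ?_
    refine (h.sm 2).continuousOn.mul ?_
    exact ((sp_co (R ^ k)).cont.comp continuous_snd).continuousOn
  · intro k t ht
    have hI : t ∈ Ico 0 T := ⟨ht.1.le, ht.2⟩
    refine ⟨er (R ^ k) (u t), ?_, ?_⟩
    · refine (er_le (R ^ k) (h.spv hI)).trans ?_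
      have h1 := (h.energy_le hR hν hI).trans hE
      push_cast
      calc 5 * (R : ℝ) ^ k * energy (u t) ≤ 5 * (R : ℝ) ^ k * E := by gcongr
        _ = 5 * E * (R : ℝ) ^ k := by ring
    · refine (h.cx_deriv hR k ht).congr_deriv ?_
      have := kq_eq (G := G) hRC (fun n t => cx (R ^ n) (u t)) t k
      have e : kq (rt G σ R (cs R (u t))) (cs R (u t)) k
        = inn (gG G ((R : ℝ) ^ σ)) (zz ((R : ℝ) ^ σ) ^ 16) (fun n t => cx (R ^ n) (u t)) k t
          - out (gG G ((R : ℝ) ^ σ)) (zz ((R : ℝ) ^ σ) ^ 16) (fun n t => cx (R ^ n) (u t)) k t := this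
      rw [e]
      ring
  · intro T1 hT1
    have hK : IsCompact (Icc 0 T1 ×ˢ H459R3.NS.cube) := isCompact_Icc.prod isCompact_Icc
    have hsub : Icc 0 T1 ×ˢ H459R3.NS.cube ⊆ Ico 0 T ×ˢ (univ : Set V) :=
      prod_mono (fun s hs => ⟨hs.1, hs.2.trans_lt hT1⟩) (subset_univ _)
    have hc := (H459R3.NS.contDiffOn_lap (f := fun s y => u s y 2) (h.sm 2)).continuousOn
    obtain ⟨C, hC⟩ := hK.exists_bound_of_continuousOn (hc.mono hsub)
    refine ⟨C, fun k t ht => ?_⟩
    have h1 := cx_decay (h.spv ⟨ht.1, ht.2.trans_lt hT1⟩) (R ^ k) (pow_pos (by omega) k)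
      (C := C) (fun x hx => hC (t, x) ⟨ht, hx⟩)
    push_cast at h1
    exact h1

end Pool.Agent.N980.CB
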