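import Pool.Agent.N980.CB.Par
import Pool.Agent.N980.NU.Duha

/-!
One stage of the cascade, in normalized form.
-/

open MeasureTheory Set Filter Topology

namespace Pool.Agent.N980.CB

/-- The normalized situation at the beginning of a stage. -/
structure StageIn (Λ z : ℝ) (n : ℕ) (g d η ρ : ℕ → ℝ) (x : ℕ → ℝ → ℝ) : Prop where
  par : Par Λ z
  g0 : g n = 1
  gs : ∀ k, g (k + 1) = Λ * g k
  flow : Flow g d η (z ^ 16) 5 x
  x0 : x n 0 = 1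
  x1l : 19 / 20 * qq ≤ x (n + 1) 0
  x1u : x (n + 1) 0 ≤ 21 / 20 * qq
  x2l : -(z ^ 16 * qq / 10) ≤ x (n + 2) 0
  x2u : x (n + 2) 0 ≤ z ^ 10
  xi : ∀ j, |x (n + 3 + j) 0| ≤ z ^ (24 + 14 * j) + (1 + (1 / 2) ^ (j + 1)) * ρ (n + 3 + j)
  xm : ∀ m, m < n → |x m 0| ≤ 10000 ^ (n - m)
  tail : ∃ J, ∀ k ≥ J, ∀ t ∈ Icc (0 : ℝ) 5, |x k t| ≤ ρ k
  dpos : ∀ k, 0 ≤ d k
  dmono : ∀ k, d k ≤ d (k + 1)
  d0 : d n ≤ 1 / 1000
  d1 : d (n + 1) ≤ 1 / 1000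
  d2 : d (n + 2) ≤ Λ * qq / 1000
  ηp : ∀ k, 0 ≤ η k
  ηl : ∀ k ≤ n + 3, η k ≤ z ^ 40
  ρp : ∀ k, 0 < ρ k
  ρ3 : ρ (n + 3) ≤ z ^ 40
  ρd : ∀ k, ρ (k + 1) ≤ ρ k / 10 ^ 5
  far1 : ∀ k ≥ n + 4, η k ≤ d k * ρ k / 8
  far2 : ∀ k ≥ n + 3, 64 * g k * ρ k ≤ d k
  far3 : ∀ k, d k * ρ k ≤ d (k + 1) * ρ (k + 1)

/-- The bounds of the far modes during the stage. -/
noncomputable def YY (z : ℝ) (n : ℕ) (ρ : ℕ → ℝ) (j : ℕ) : ℝ :=
  z ^ (10 + 14 * j) * qq / 2 + if j = 0 then 0 else (1 + (1 / 2) ^ j) * ρ (n + 3 + j)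

/-- The bounds during the stage. -/
structure Bd (z : ℝ) (n : ℕ) (ρ : ℕ → ℝ) (x : ℕ → ℝ → ℝ) (s : ℝ) : Prop where
  m : ∀ m, m < n → |x m s| ≤ 2 * 10000 ^ (n - m)
  al : 9 / 10 ≤ x n s
  au : x n s ≤ 11 / 10
  bl : 9 / 10 * qq ≤ x (n + 1) s
  bu : x (n + 1) s ≤ 1 / 10
  c : -(z ^ 16 * qq / 5) ≤ x (n + 2) s
  f : ∀ j, |x (n + 3 + j) s| ≤ YY z n ρ j

variable {Λ z : ℝ} {n : ℕ} {g d η ρ : ℕ → ℝ} {x : ℕ → ℝ → ℝ}

theorem YY_zero : YY z n ρ 0 = z ^ 10 * qq / 2 := by simp [YY]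

theorem StageIn.g1 (h : StageIn Λ z n g d η ρ x) : g (n + 1) = Λ := by rw [h.gs, h.g0, mul_one]

theorem StageIn.gj (h : StageIn Λ z n g d η ρ x) (j : ℕ) : g (n + j) = Λ ^ j := by
  induction j with
  | zero => simpa using h.g0
  | succ j ih => rw [← add_assoc, h.gs, ih]; ring

theorem StageIn.gm (h : StageIn Λ z n g d η ρ x) {m : ℕ} (hm : m ≤ n) : g m * Λ ^ (n - m) = 1 := by
  obtain ⟨k, rfl⟩ := Nat.exists_eq_add_of_le hm
  rw [Nat.add_sub_cancel_left]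
  have : ∀ k, g m * Λ ^ k = g (m + k) := by
    intro k
    induction k with
    | zero => simp
    | succ k ih => rw [← add_assoc, h.gs, ← ih]; ring
  rw [this, h.g0]

theorem StageIn.gpos (h : StageIn Λ z n g d η ρ x) (k : ℕ) : 0 < g k := by
  rcases le_total k n with hk | hk
  · have h1 := h.gm hk
    have h2 : 0 < Λ ^ (n - k) := pow_pos h.par.hΛ0 _
    exact (mul_pos_iff_of_pos_right h2).1 (by rw [h1]; exact one_pos)
  · obtain ⟨j, rfl⟩ := Nat.exists_eq_add_of_le hk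
    rw [h.gj]
    exact pow_pos h.par.hΛ0 _

theorem arith_c {Λ δ q x1 x2 d E : ℝ} (hΛ : 0 < Λ) (hδ : 0 < δ) (hq : 0 < q) (hx1 : 9 / 10 * q ≤ x1)
    (hx2 : -(δ * q / 5) ≤ x2) (hd0 : 0 ≤ d) (hd : d ≤ Λ * q / 1000) (hE : |E| ≤ Λ * δ * x1 * x1 / 50) :
    98 / 100 * Λ * x1 * (x2 + δ * q / 5) ≤ -(d * x2) + Λ * (δ * x1 + x2) * x1 + E := by
  have hx10 : 0 < x1 := by nlinarith
  have hE' := (abs_le.1 hE).1
  have h1 : 0 < Λ * x1 := mul_pos hΛ hx10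
  have h2 : 0 < Λ * x1 * δ := mul_pos h1 hδ
  rcases le_total 0 x2 with h | h
  · have h3 : d * x2 ≤ 2 / 100 * (Λ * x1 * x2) := by
      have : d ≤ 2 / 100 * (Λ * x1) := by nlinarith
      nlinarith
    nlinarith [mul_nonneg h2.le (sub_nonneg.2 hx1)]
  · have h3 : 0 ≤ -(d * x2) := by nlinarith
    have h4 : -(2 / 100 * (Λ * x1 * (δ * q / 5))) ≤ 2 / 100 * (Λ * x1 * x2) := by nlinarith
    nlinarith [mul_nonneg h2.le (sub_nonneg.2 hx1)]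

/-- The derivative of the mode `n+2`. -/
theorem StageIn.dc (h : StageIn Λ z n g d η ρ x) {s : ℝ} (hs : s ∈ Ioo 0 5) (hb : Bd z n ρ x s)
    (hq : x (n + 2) s ≤ qq * x (n + 1) s) :
    ∃ f', HasDerivAt (x (n + 2)) f' s ∧
      98 / 100 * Λ * x (n + 1) s * (x (n + 2) s + z ^ 16 * qq / 5) ≤ f' := by
  obtain ⟨e, he, hd⟩ := h.flow.ode (n + 2) s hs
  refine ⟨_, hd, ?_⟩
  have hP := h.par
  have hz := hP.hz
  have hΛ := hP.hΛ0
  have hΛ1 := hP.hΛ1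
  set x1 := x (n + 1) s with hx1
  set x2 := x (n + 2) s with hx2
  set x3 := x (n + 3) s with hx3
  have e1 : inn g (z ^ 16) x (n + 2) s = Λ * (z ^ 16 * x1 + x2) * x1 := by
    show FF g (z ^ 16) x (n + 1) s * x (n + 1) s = _
    unfold FF
    rw [h.g1]
  have e2 : out g (z ^ 16) x (n + 2) s = Λ ^ 2 * (z ^ 16 * x2 + x3) * x3 := by
    show FF g (z ^ 16) x (n + 2) s * x (n + 2 + 1) s = _
    unfold FF
    rw [h.gj]
  rw [e1, e2]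
  have hx3b : |x3| ≤ z ^ 10 * qq / 2 := by
    have := hb.f 0
    rwa [YY_zero] at this
  have hqq := qq_pos
  have hx1l := hb.bl
  have hx1u := hb.bu
  have hx2b : |x2| ≤ qq := by
    rw [abs_le]
    constructor
    · have h1 : z ^ 16 ≤ 1 := pow_le_one₀ hz.le hP.z1
      have := hb.c
      nlinarith
    · nlinarith
  have he' : |e| ≤ z ^ 40 := he.trans (h.ηl _ (by omega))
  have hE : |e - Λ ^ 2 * (z ^ 16 * x2 + x3) * x3| ≤ Λ * z ^ 16 * x1 * x1 / 50 := by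
    have h1 : |Λ ^ 2 * (z ^ 16 * x2 + x3) * x3| ≤ z ^ 18 * qq ^ 2 := by
      rw [abs_mul, abs_mul, abs_of_pos (by positivity : 0 < Λ ^ 2)]
      have h2 : |z ^ 16 * x2 + x3| ≤ z ^ 10 * qq := by
        calc |z ^ 16 * x2 + x3| ≤ |z ^ 16 * x2| + |x3| := abs_add_le _ _
          _ ≤ z ^ 16 * qq + z ^ 10 * qq / 2 := by
            rw [abs_mul, abs_of_pos (by positivity : 0 < z ^ 16)]
            gcongr
          _ ≤ z ^ 10 * qq / 2 + z ^ 10 * qq / 2 := by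
            have h3 : z ^ 16 ≤ z ^ 11 := hP.zpow_le (by norm_num)
            have h4 := hP.zpow_succ 10
            have : z ^ 16 * qq ≤ z ^ 10 * (1 / 10 ^ 30) * qq := by gcongr; exact h3.trans h4
            have h5 : 0 < z ^ 10 * qq := by positivity
            nlinarith
          _ = z ^ 10 * qq := by ring
      calc Λ ^ 2 * |z ^ 16 * x2 + x3| * |x3| ≤ Λ ^ 2 * (z ^ 10 * qq) * (z ^ 10 * qq / 2) := by gcongr
        _ = (z ^ 19 * (z * Λ ^ 2)) * qq ^ 2 / 2 := by ring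
        _ ≤ (z ^ 19 * (1 / 10 ^ 30)) * qq ^ 2 / 2 := by gcongr; exact hP.zΛ (by norm_num)
        _ ≤ (z ^ 18 * 1) * qq ^ 2 / 1 := by
          have h3 : z ^ 19 ≤ z ^ 18 := hP.zpow_le (by norm_num)
          gcongr
          · norm_num
          · norm_num
        _ = z ^ 18 * qq ^ 2 := by ring
    have h2 : z ^ 40 ≤ z ^ 18 * qq ^ 2 := by
      have h3 : z ^ 40 ≤ z ^ 19 := hP.zpow_le (by norm_num)
      have h4 := hP.zpow_succ 18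
      have h5 : (1 : ℝ) / 10 ^ 30 ≤ qq ^ 2 := by unfold qq; norm_num
      calc z ^ 40 ≤ z ^ 18 * (1 / 10 ^ 30) := h3.trans h4
        _ ≤ z ^ 18 * qq ^ 2 := by gcongr
    have h3 : z ^ 18 ≤ z ^ 16 * (1 / 10 ^ 30) := (hP.zpow_le (by norm_num : 17 ≤ 18)).trans (hP.zpow_succ 16)
    have h4 : qq ^ 2 ≤ 2 * (x1 * x1) := by nlinarith
    calc |e - Λ ^ 2 * (z ^ 16 * x2 + x3) * x3| ≤ |e| + |Λ ^ 2 * (z ^ 16 * x2 + x3) * x3| := abs_sub _ _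
      _ ≤ z ^ 18 * qq ^ 2 + z ^ 18 * qq ^ 2 := by linarith
      _ = 2 * z ^ 18 * qq ^ 2 := by ring
      _ ≤ 2 * (z ^ 16 * (1 / 10 ^ 30)) * (2 * (x1 * x1)) := by gcongr
      _ ≤ Λ * z ^ 16 * x1 * x1 / 50 := by
        have h5 : 0 ≤ z ^ 16 * (x1 * x1) := mul_nonneg (pow_pos hz _).le (mul_self_nonneg x1)
        have : 1 * (z ^ 16 * (x1 * x1)) ≤ Λ * (z ^ 16 * (x1 * x1)) := by gcongr
        nlinarith
  have := arith_c hΛ (pow_pos hz 16) hqq hx1l hb.c (h.dpos (n + 2)) h.d2 hE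
  linarith

end Pool.Agent.N980.CB
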