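import Pool.Agent.N980.CB.Stage

/-!
One stage of the cascade: the modes `n`, `n+1`, `n+2` and the low modes.
-/

open MeasureTheory Set Filter Topology

namespace Pool.Agent.N980.CB

variable {Λ z : ℝ} {n : ℕ} {g d η ρ : ℕ → ℝ} {x : ℕ → ℝ → ℝ}

/-- The angle of rotation. -/
noncomputable def PI (Λ : ℝ) (y : ℝ → ℝ) (s : ℝ) : ℝ := ∫ r in (0 : ℝ)..s, Λ * max (y r) 0

theorem PI_cont {y : ℝ → ℝ} {T : ℝ} (hT : 0 ≤ T) (hy : ContinuousOn y (Icc 0 T)) :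
    ContinuousOn (PI Λ y) (Icc 0 T) := by
  unfold PI
  exact NU.prim_cont hT (continuousOn_const.mul (hy.sup continuousOn_const))

theorem PI_deriv {y : ℝ → ℝ} {T : ℝ} (hy : ContinuousOn y (Icc 0 T)) {t : ℝ} (ht : t ∈ Ioo 0 T) :
    HasDerivAt (PI Λ y) (Λ * max (y t) 0) t := by
  unfold PI
  exact NU.prim_deriv (f := fun r => Λ * max (y r) 0) (continuousOn_const.mul (hy.sup continuousOn_const)) ht

theorem PI_nonneg {y : ℝ → ℝ} (hΛ : 0 < Λ) {t : ℝ} (ht : 0 ≤ t) : 0 ≤ PI Λ y t := by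
  unfold PI
  exact intervalIntegral.integral_nonneg ht fun s _ => mul_nonneg hΛ.le (le_max_right _ _)

theorem PI_zero {y : ℝ → ℝ} : PI Λ y 0 = 0 := by simp [PI]

theorem Par.q1 (h : Par Λ z) (m : ℕ) : z ^ (m + 1) ≤ qq ^ 3 / 10 ^ 6 := by
  have h1 : z ^ (m + 1) ≤ z ^ 1 := h.zpow_le (by omega)
  have h2 := h.z_small
  rw [pow_one] at h1
  have h3 : (1 : ℝ) / 10 ^ 30 ≤ qq ^ 3 / 10 ^ 6 := by unfold qq; norm_num
  linarith

/-- The derivative of the mode `n+1`. -/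
theorem StageIn.db (h : StageIn Λ z n g d η ρ x) {s : ℝ} (hs : s ∈ Ioo 0 5) (hb : Bd z n ρ x s)
    (hq : x (n + 2) s ≤ qq * x (n + 1) s) :
    ∃ f', HasDerivAt (x (n + 1)) f' s ∧ f' ≤ 11 / 10 * x (n + 1) s + 4 * z ^ 16 ∧
      -(qq / 5 * (Λ * max (x (n + 2) s) 0)) ≤ f' ∧ (x (n + 2) s < 0 → 0 ≤ f') := by
  obtain ⟨e, he, hd⟩ := h.flow.ode (n + 1) s hs
  refine ⟨_, hd, ?_⟩
  have hP := h.par
  have hz := hP.hz
  have hΛ := hP.hΛ0
  have hΛ1 := hP.hΛ1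
  have hqq := qq_pos
  have hx1l := hb.bl
  have hx1u := hb.bu
  have hx2l := hb.c
  have hxl := hb.al
  have hxu := hb.au
  have he' : |e| ≤ z ^ 40 := he.trans (h.ηl _ (by omega))
  have hd0 := h.dpos (n + 1)
  have hd1 := h.d1
  set x0 := x n s with hx0
  set x1 := x (n + 1) s with hx1
  set x2 := x (n + 2) s with hx2
  have e1 : inn g (z ^ 16) x (n + 1) s = (z ^ 16 * x0 + x1) * x0 := by
    show FF g (z ^ 16) x n s * x n s = _
    unfold FF
    rw [h.g0, one_mul]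
  have e2 : out g (z ^ 16) x (n + 1) s = Λ * (z ^ 16 * x1 + x2) * x2 := by
    show FF g (z ^ 16) x (n + 1) s * x (n + 1 + 1) s = _
    unfold FF
    rw [h.g1]
  rw [e1, e2]
  have hx10 : 0 < x1 := by nlinarith
  have hδ : 0 < z ^ 16 := pow_pos hz 16
  have hδ40 : z ^ 40 ≤ z ^ 16 := hP.zpow_le (by norm_num)
  have hq40 : z ^ 40 ≤ qq ^ 3 / 10 ^ 6 := hP.q1 39
  have hq16 : z ^ 16 ≤ qq ^ 3 / 10 ^ 6 := hP.q1 15
  have hqs : qq ^ 3 ≤ qq := by unfold qq; norm_num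
  have hqv : qq ≤ 1 / 1000 := by unfold qq; norm_num
  have hΛδ : Λ * z ^ 16 ≤ 1 := by
    have := hP.zpow_mul 15 (m := 1) (by norm_num)
    have h2 : z ^ 15 ≤ 1 := pow_le_one₀ hz.le hP.z1
    rw [pow_one] at this
    nlinarith
  obtain ⟨hel, heu⟩ := abs_le.1 he'
  have hdx : 0 ≤ d (n + 1) * x1 := mul_nonneg hd0 hx10.le
  have hdx' : d (n + 1) * x1 ≤ 1 / 1000 * x1 := mul_le_mul_of_nonneg_right hd1 hx10.le
  have hmain : (z ^ 16 * x0 + x1) * x0 ≤ 11 / 10 * x1 + 2 * z ^ 16 := by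
    nlinarith [mul_nonneg hδ.le (by nlinarith : (0:ℝ) ≤ 2 - x0 * x0), mul_nonneg hx10.le (sub_nonneg.2 hxu)]
  have hmain' : 9 / 10 * x1 ≤ (z ^ 16 * x0 + x1) * x0 := by
    nlinarith [mul_nonneg hδ.le (mul_self_nonneg x0), mul_nonneg hx10.le (sub_nonneg.2 hxl)]
  rcases le_or_gt 0 x2 with h2 | h2
  · have ho : 0 ≤ Λ * (z ^ 16 * x1 + x2) * x2 := by positivity
    have hou : Λ * (z ^ 16 * x1 + x2) * x2 ≤ qq / 5 * (Λ * x2) := by
      have h3 : z ^ 16 * x1 + x2 ≤ qq / 5 := by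
        have : z ^ 16 * x1 ≤ qq * x1 := by gcongr; linarith
        nlinarith
      have h4 : 0 ≤ Λ * x2 := by positivity
      nlinarith
    refine ⟨by linarith, ?_, fun h' => absurd h' (not_lt.2 h2)⟩
    rw [max_eq_left h2]
    linarith
  · have hx2' : -x2 ≤ z ^ 16 * qq / 5 := by linarith
    have ho : -(Λ * (z ^ 16 * x1 + x2) * x2) ≤ z ^ 16 := by
      have h3 : -(Λ * (z ^ 16 * x1 + x2) * x2) ≤ (Λ * z ^ 16) * (x1 * (-x2)) := by nlinarith [mul_self_nonneg x2]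
      have h4 : 0 ≤ x1 * (-x2) := by nlinarith
      have h5 : x1 * (-x2) ≤ z ^ 16 := by nlinarith
      nlinarith
    have ho' : -(qq / 10) ≤ -(Λ * (z ^ 16 * x1 + x2) * x2) := by
      have h3 : -(Λ * x2 ^ 2) ≤ -(Λ * (z ^ 16 * x1 + x2) * x2) := by
        have : 0 ≤ Λ * z ^ 16 * x1 * (-x2) := by
          have : 0 ≤ -x2 := by linarith
          positivity
        nlinarith
      have h4 : Λ * x2 ^ 2 ≤ qq / 10 := by
        have h5 : x2 ^ 2 ≤ z ^ 16 * (qq / 10) := by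
          have h6 : x2 ^ 2 ≤ (z ^ 16 * qq / 5) ^ 2 := by
            rw [← neg_sq]; exact pow_le_pow_left₀ (by linarith) hx2' 2
          have h7 : (z ^ 16 * qq / 5) ^ 2 = z ^ 16 * (qq / 10) * (z ^ 16 * qq * 2 / 5) := by ring
          have h8 : z ^ 16 * qq * 2 / 5 ≤ 1 := by nlinarith
          rw [h7] at h6
          have h9 : 0 ≤ z ^ 16 * (qq / 10) := by positivity
          nlinarith
        calc Λ * x2 ^ 2 ≤ Λ * (z ^ 16 * (qq / 10)) := by gcongr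
          _ = (Λ * z ^ 16) * (qq / 10) := by ring
          _ ≤ 1 * (qq / 10) := by gcongr
          _ = qq / 10 := one_mul _
      linarith
    refine ⟨by linarith, ?_, fun _ => ?_⟩
    · rw [max_eq_right h2.le, mul_zero, mul_zero, neg_zero]
      linarith
    · linarith

/-- The mode `n+2` does not decrease. -/
theorem StageIn.c_ge (h : StageIn Λ z n g d η ρ x) {t : ℝ} (ht : t ∈ Icc 0 5)
    (hb : ∀ s ∈ Ioo 0 t, Bd z n ρ x s) (hq : ∀ s ∈ Ioo 0 t, x (n + 2) s ≤ qq * x (n + 1) s) :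
    -(z ^ 16 * qq / 10) ≤ x (n + 2) t := by
  have hz := h.par.hz
  have hqq := qq_pos
  refine h.x2l.trans (mono_of (a := 0) (b := t) ((h.flow.cont _).mono (Icc_subset_Icc le_rfl ht.2))
    (fun s hs => ?_) t ⟨ht.1, le_rfl⟩)
  obtain ⟨f', h1, h2⟩ := h.dc ⟨hs.1, hs.2.trans_le ht.2⟩ (hb s hs) (hq s hs)
  refine ⟨f', h1, le_trans ?_ h2⟩
  have h3 := (hb s hs).c
  have h4 := (hb s hs).bl
  have h5 : 0 < x (n + 1) s := by nlinarith
  have h6 : 0 ≤ x (n + 2) s + z ^ 16 * qq / 5 := by linarith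
  have := h.par.hΛ0
  positivity

/-- The upper bound of the mode `n+1`. -/
theorem StageIn.b_lt (h : StageIn Λ z n g d η ρ x) {t : ℝ} (ht : t ∈ Icc 0 5)
    (hb : ∀ s ∈ Ioo 0 t, Bd z n ρ x s) (hq : ∀ s ∈ Ioo 0 t, x (n + 2) s ≤ qq * x (n + 1) s) :
    x (n + 1) t < 1 / 10 := by
  have hz := h.par.hz
  have hqq := qq_pos
  have hδ : 0 < z ^ 16 := pow_pos hz 16
  have h1 := growth_le' (a := 0) (b := t) (f0 := 21 / 20 * qq) (c0 := 4 * z ^ 16) (r := 11 / 10) (M := 0)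
    ((h.flow.cont (n + 1)).mono (Icc_subset_Icc le_rfl ht.2)) h.x1u le_rfl (by positivity) (by positivity)
    (by norm_num) (fun s hs _ => by
      obtain ⟨f', h1, h2, _⟩ := h.db ⟨hs.1, hs.2.trans_le ht.2⟩ (hb s hs) (hq s hs)
      exact ⟨f', h1, h2⟩) t ⟨ht.1, le_rfl⟩
  have h2 : Real.exp (11 / 10 * (t - 0)) ≤ 404 := by
    have h3 : Real.exp (11 / 10 * (t - 0)) ≤ Real.exp 6 := Real.exp_le_exp.2 (by linarith [ht.2])
    have h4 : Real.exp 6 = Real.exp 1 ^ 6 := by rw [← Real.exp_nat_mul]; norm_num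
    have h5 := Real.exp_one_lt_d9
    have h6 : Real.exp 1 ^ 6 ≤ 2.7182818286 ^ 6 := pow_le_pow_left₀ (Real.exp_pos _).le h5.le 6
    rw [h4] at h3
    exact h3.trans (h6.trans (by norm_num))
  have h3 : 21 / 20 * qq + 4 * z ^ 16 * (t - 0) ≤ 22 / 20 * qq := by
    have := h.par.q1 15
    have h4 : qq ^ 3 / 10 ^ 6 ≤ qq / 1000 := by unfold qq; norm_num
    nlinarith [ht.2]
  have h4 : 0 ≤ 21 / 20 * qq + 4 * z ^ 16 * (t - 0) := by
    have := ht.1
    have : 0 ≤ t - 0 := by linarith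
    positivity
  calc x (n + 1) t ≤ (21 / 20 * qq + 4 * z ^ 16 * (t - 0)) * Real.exp (11 / 10 * (t - 0)) := h1
    _ ≤ (22 / 20 * qq) * 404 := by gcongr
    _ < 1 / 10 := by unfold qq; norm_num

/-- The angle of the plane of the modes `n+1` and `n+2`. -/
theorem StageIn.P_le (h : StageIn Λ z n g d η ρ x) {t : ℝ} (ht : t ∈ Icc 0 5)
    (hb : ∀ s ∈ Icc 0 t, Bd z n ρ x s) (hq : ∀ s ∈ Icc 0 t, x (n + 2) s ≤ qq * x (n + 1) s) :
    PI Λ (x (n + 2)) t ≤ 6 / 5 * qq := by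
  have hP := h.par
  have hz := hP.hz
  have hΛ := hP.hΛ0
  have hqq := qq_pos
  have hδ : 0 < z ^ 16 := pow_pos hz 16
  have hsub : Icc 0 t ⊆ Icc 0 5 := Icc_subset_Icc le_rfl ht.2
  have hpos : ∀ s ∈ Icc 0 t, 0 < x (n + 1) s := fun s hs => by
    have := (hb s hs).bl
    nlinarith
  have hcont : ContinuousOn (fun s => 11 / 10 * (x (n + 2) s / x (n + 1) s) + z ^ 16 - PI Λ (x (n + 2)) s)
      (Icc 0 t) := by
    refine ContinuousOn.sub (ContinuousOn.add (ContinuousOn.mul continuousOn_const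
      (((h.flow.cont _).mono hsub).div ((h.flow.cont _).mono hsub) fun s hs => (hpos s hs).ne'))
      continuousOn_const) ((PI_cont (by norm_num) (h.flow.cont (n + 2))).mono hsub)
  have key := mono_of (a := 0) (b := t) hcont (fun s hs => ?_) t ⟨ht.1, le_rfl⟩
  · have h0 : 0 ≤ 11 / 10 * (x (n + 2) 0 / x (n + 1) 0) + z ^ 16 - PI Λ (x (n + 2)) 0 := by
      rw [PI_zero, sub_zero]
      have h1 := h.x2l
      have h2 := h.x1l
      have h3 : 0 < x (n + 1) 0 := by nlinarith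
      have h4 : -(z ^ 16 / 5) ≤ x (n + 2) 0 / x (n + 1) 0 := by
        rw [le_div_iff₀ h3]
        nlinarith
      linarith
    have h1 : x (n + 2) t / x (n + 1) t ≤ qq := by
      rw [div_le_iff₀ (hpos t ⟨ht.1, le_rfl⟩)]
      exact hq t ⟨ht.1, le_rfl⟩
    have h2 := hP.q1 15
    have h3 : qq ^ 3 / 10 ^ 6 ≤ qq / 1000 := by unfold qq; norm_num
    linarith
  · have hsI : s ∈ Icc 0 t := ⟨hs.1.le, hs.2.le⟩
    have hs5 : s ∈ Ioo (0 : ℝ) 5 := ⟨hs.1, hs.2.trans_le ht.2⟩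
    obtain ⟨f1, hf1, hf1u, hf1l, hf1n⟩ := h.db hs5 (hb s hsI) (hq s hsI)
    obtain ⟨f2, hf2, hf2l⟩ := h.dc hs5 (hb s hsI) (hq s hsI)
    have hx1 := hpos s hsI
    have hd := (((hf2.div hf1 hx1.ne').const_mul (11 / 10)).add_const (z ^ 16)).sub
      (PI_deriv (Λ := Λ) (h.flow.cont (n + 2)) hs5)
    refine ⟨_, hd, ?_⟩
    have hbl := (hb s hsI).bl
    have hbu := (hb s hsI).bu
    have hc := (hb s hsI).c
    set x1 := x (n + 1) s
    set x2 := x (n + 2) s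
    have h1 : 0 < x1 ^ 2 := by positivity
    rw [sub_nonneg, ← mul_div_assoc, le_div_iff₀ h1]
    rcases le_or_gt 0 x2 with h2 | h2
    · rw [max_eq_left h2]
      have e1 : 98 / 100 * Λ * x1 * x2 ≤ f2 := by
        have : 0 ≤ 98 / 100 * Λ * x1 * (z ^ 16 * qq / 5) := by positivity
        nlinarith
      have e2 : f1 ≤ 6 / 5 * x1 := by
        have := hP.q1 15
        have h3 : qq ^ 3 / 10 ^ 6 ≤ qq / 1000 := by unfold qq; norm_num
        linarith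
      have e3 : x2 * f1 ≤ 1 / 100 * (Λ * x1 ^ 2 * x2) := by
        have h3 : x2 * f1 ≤ x2 * (6 / 5 * x1) := mul_le_mul_of_nonneg_left e2 h2
        have h4 : 6 / 5 * x1 ≤ 1 / 100 * (Λ * x1 ^ 2) := by
          have h5 : 6 / 5 ≤ 1 / 100 * (Λ * x1) := by
            have h6 : (10 ^ 14 : ℝ) * (9 / 10 * qq) ≤ Λ * x1 := by
              have := hP.hΛ
              gcongr
            have h7 : (120 : ℝ) ≤ 10 ^ 14 * (9 / 10 * qq) := by unfold qq; norm_num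
            linarith
          nlinarith
        nlinarith
      have e4 : 98 / 100 * Λ * x1 * x2 * x1 ≤ f2 * x1 := mul_le_mul_of_nonneg_right e1 hx1.le
      have e5 : 0 ≤ Λ * x1 ^ 2 * x2 := by positivity
      nlinarith
    · rw [max_eq_right h2.le, mul_zero, zero_mul]
      have e1 : 0 ≤ f2 := by
        refine le_trans ?_ hf2l
        have : 0 ≤ x2 + z ^ 16 * qq / 5 := by linarith
        positivity
      have e2 := hf1n h2
      have e3 : 0 ≤ f2 * x1 := mul_nonneg e1 hx1.le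
      have e4 : x2 * f1 ≤ 0 := mul_nonpos_of_nonpos_of_nonneg h2.le e2
      nlinarith

/-- The lower bound of the mode `n+1`. -/
theorem StageIn.b_gt (h : StageIn Λ z n g d η ρ x) {t : ℝ} (ht : t ∈ Icc 0 5)
    (hb : ∀ s ∈ Icc 0 t, Bd z n ρ x s) (hq : ∀ s ∈ Icc 0 t, x (n + 2) s ≤ qq * x (n + 1) s) :
    9 / 10 * qq < x (n + 1) t := by
  have hqq := qq_pos
  have hsub : Icc 0 t ⊆ Icc 0 5 := Icc_subset_Icc le_rfl ht.2
  have hP := h.P_le ht hb hq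
  have key := mono_of (f := fun s => x (n + 1) s + qq / 5 * PI Λ (x (n + 2)) s) (a := 0) (b := t)
    (((h.flow.cont _).mono hsub).add (continuousOn_const.mul
      ((PI_cont (by norm_num) (h.flow.cont (n + 2))).mono hsub))) (fun s hs => ?_) t ⟨ht.1, le_rfl⟩
  · simp only [PI_zero, mul_zero, add_zero] at key
    have h1 := h.x1l
    have h2 : qq / 5 * PI Λ (x (n + 2)) t ≤ qq / 5 * (6 / 5 * qq) := by gcongr
    have h3 : qq / 5 * (6 / 5 * qq) < qq / 100 := by unfold qq; norm_num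
    linarith
  · have hsI : s ∈ Icc 0 t := ⟨hs.1.le, hs.2.le⟩
    have hs5 : s ∈ Ioo (0 : ℝ) 5 := ⟨hs.1, hs.2.trans_le ht.2⟩
    obtain ⟨f1, hf1, hf1u, hf1l, hf1n⟩ := h.db hs5 (hb s hsI) (hq s hsI)
    refine ⟨_, hf1.add ((PI_deriv (Λ := Λ) (h.flow.cont (n + 2)) hs5).const_mul (qq / 5)), ?_⟩
    linarith

end Pool.Agent.N980.CB
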