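import Pool.Agent.N980.CB.Stage2

/-!
One stage of the cascade: the modes up to `n` and from `n+3` on.
-/

open MeasureTheory Set Filter Topology

namespace Pool.Agent.N980.CB

variable {Λ z : ℝ} {n : ℕ} {g d η ρ : ℕ → ℝ} {x : ℕ → ℝ → ℝ}

theorem StageIn.gB (h : StageIn Λ z n g d η ρ x) {m : ℕ} (hm : m < n) :
    g m * (10000 ^ (n - m)) ^ 2 ≤ 1 / 10 ^ 6 := by
  have h1 := h.gm hm.le
  have hΛ := h.par.hΛ
  have hΛ0 := h.par.hΛ0
  have hg := h.gpos m
  obtain ⟨k, hk⟩ : ∃ k, n - m = k + 1 := ⟨n - m - 1, by omega⟩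
  rw [hk] at h1 ⊢
  have h2 : ((10000 : ℝ) ^ (k + 1)) ^ 2 * 10 ^ 6 ≤ Λ ^ (k + 1) := by
    calc ((10000 : ℝ) ^ (k + 1)) ^ 2 * 10 ^ 6 = (10 ^ 8) ^ (k + 1) * 10 ^ 6 := by
          rw [← pow_mul, mul_comm (k + 1) 2, pow_mul]; norm_num
      _ ≤ (10 ^ 8) ^ (k + 1) * (10 ^ 6) ^ (k + 1) := by
          gcongr
          exact le_self_pow₀ (by norm_num) (by omega)
      _ = (10 ^ 14) ^ (k + 1) := by rw [← mul_pow]; norm_num
      _ ≤ Λ ^ (k + 1) := by gcongr
  have h3 : g m * ((10000 : ℝ) ^ (k + 1)) ^ 2 * 10 ^ 6 ≤ 1 := by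
    calc g m * ((10000 : ℝ) ^ (k + 1)) ^ 2 * 10 ^ 6 = g m * (((10000 : ℝ) ^ (k + 1)) ^ 2 * 10 ^ 6) := by ring
      _ ≤ g m * Λ ^ (k + 1) := by gcongr
      _ = 1 := h1
  rw [le_div_iff₀ (by norm_num)]
  exact h3

theorem Bd.low {s : ℝ} (hb : Bd z n ρ x s) {k : ℕ} (hk : k ≤ n) : |x k s| ≤ 2 * 10000 ^ (n - k) := by
  rcases hk.lt_or_eq with h | h
  · exact hb.m k h
  · subst h
    rw [Nat.sub_self, pow_zero, abs_le]
    exact ⟨by linarith [hb.al], by linarith [hb.au]⟩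

theorem StageIn.z16 (h : StageIn Λ z n g d η ρ x) : z ^ 16 ≤ 1 := pow_le_one₀ h.par.hz.le h.par.z1

/-- The interaction terms between low modes. -/
theorem StageIn.low_abs (h : StageIn Λ z n g d η ρ x) {s : ℝ} (hb : Bd z n ρ x s) {m : ℕ} (hm : m < n) :
    |FF g (z ^ 16) x m s * x m s| ≤ 1 / 10 ^ 5 ∧ |FF g (z ^ 16) x m s * x (m + 1) s| ≤ 1 / 10 ^ 5 := by
  have hg := h.gpos m
  have hB := h.gB hm
  set B : ℝ := 10000 ^ (n - m) with hBd
  have hB0 : 0 < B := by positivity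
  have h1 : |x m s| ≤ 2 * B := hb.m m hm
  have h2 : |x (m + 1) s| ≤ 2 * B := by
    refine (hb.low (by omega)).trans ?_
    rw [hBd]
    gcongr
    · norm_num
    · omega
  have hz16 := h.z16
  have hz := pow_pos h.par.hz 16
  have h3 : |FF g (z ^ 16) x m s| ≤ g m * (4 * B) := by
    unfold FF
    rw [abs_mul, abs_of_pos hg]
    refine mul_le_mul_of_nonneg_left ?_ hg.le
    calc |z ^ 16 * x m s + x (m + 1) s| ≤ |z ^ 16 * x m s| + |x (m + 1) s| := abs_add_le _ _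
      _ ≤ 1 * (2 * B) + 2 * B := by
        rw [abs_mul, abs_of_pos hz]
        gcongr
      _ = 4 * B := by ring
  have h4 : g m * (4 * B) * (2 * B) ≤ 1 / 10 ^ 5 := by
    have : g m * (4 * B) * (2 * B) = 8 * (g m * B ^ 2) := by ring
    rw [this]
    linarith
  constructor
  · rw [abs_mul]
    exact (mul_le_mul h3 h1 (abs_nonneg _) (by positivity)).trans h4
  · rw [abs_mul]
    exact (mul_le_mul h3 h2 (abs_nonneg _) (by positivity)).trans h4

theorem StageIn.inn_abs (h : StageIn Λ z n g d η ρ x) {s : ℝ} (hb : Bd z n ρ x s) {k : ℕ} (hk : k ≤ n) :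
    |inn g (z ^ 16) x k s| ≤ 1 / 10 ^ 5 := by
  cases k with
  | zero => simp only [inn]; norm_num
  | succ m => exact (h.low_abs hb (m := m) (by omega)).1

/-- The low modes. -/
theorem StageIn.m_le (h : StageIn Λ z n g d η ρ x) {t : ℝ} (ht : t ∈ Icc 0 5)
    (hb : ∀ s ∈ Ioo 0 t, Bd z n ρ x s) {m : ℕ} (hm : m < n) : |x m t| ≤ 3 / 2 * 10000 ^ (n - m) := by
  have hsub : Icc 0 t ⊆ Icc 0 5 := Icc_subset_Icc le_rfl ht.2
  set B : ℝ := 10000 ^ (n - m) with hBd
  have hB1 : 1 ≤ B := one_le_pow₀ (by norm_num)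
  have hxm := abs_le.1 (h.xm m hm)
  have hz40 : z ^ 40 ≤ 1 / 10 ^ 5 := by
    refine (h.par.q1 39).trans ?_
    unfold qq; norm_num
  have hode : ∀ s ∈ Ioo 0 t, ∃ e, |e| ≤ z ^ 40 ∧ HasDerivAt (x m)
      (-(d m * x m s) + inn g (z ^ 16) x m s - out g (z ^ 16) x m s + e) s := by
    intro s hs
    obtain ⟨e, he, hd⟩ := h.flow.ode m s ⟨hs.1, hs.2.trans_le ht.2⟩
    exact ⟨e, he.trans (h.ηl m (by omega)), hd⟩
  have h1 : x m t ≤ B + 3 / 10 ^ 5 * (t - 0) := by
    refine lin_le (M := 0) ((h.flow.cont m).mono hsub) hxm.2 le_rfl (by linarith) (by norm_num) ?_ t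
      ⟨ht.1, le_rfl⟩
    intro s hs hpos
    obtain ⟨e, he, hd⟩ := hode s hs
    refine ⟨_, hd, ?_⟩
    have h1 := (abs_le.1 (h.inn_abs (hb s hs) hm.le)).2
    have h2 := (abs_le.1 (h.low_abs (hb s hs) hm).2).1
    have h3 := (abs_le.1 he).2
    have h4 : 0 ≤ d m * x m s := mul_nonneg (h.dpos m) hpos.le
    unfold out
    linarith
  have h2 : -x m t ≤ B + 3 / 10 ^ 5 * (t - 0) := by
    refine lin_le (f := fun s => -x m s) (M := 0) ((h.flow.cont m).mono hsub).neg (by linarith [hxm.1])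
      le_rfl (by linarith) (by norm_num) ?_ t ⟨ht.1, le_rfl⟩
    intro s hs hpos
    obtain ⟨e, he, hd⟩ := hode s hs
    refine ⟨_, hd.neg, ?_⟩
    have h1 := (abs_le.1 (h.inn_abs (hb s hs) hm.le)).1
    have h2 := (abs_le.1 (h.low_abs (hb s hs) hm).2).2
    have h3 := (abs_le.1 he).1
    have h4 : 0 ≤ d m * -x m s := mul_nonneg (h.dpos m) hpos.le
    unfold out
    linarith
  rw [abs_le]
  have := ht.2
  constructor <;> linarith

/-- The mode `n`. -/
theorem StageIn.a_bd (h : StageIn Λ z n g d η ρ x) {t : ℝ} (ht : t ∈ Icc 0 5)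
    (hb : ∀ s ∈ Ioo 0 t, Bd z n ρ x s) : 91 / 100 ≤ x n t ∧ x n t ≤ 21 / 20 := by
  have hsub : Icc 0 t ⊆ Icc 0 5 := Icc_subset_Icc le_rfl ht.2
  have hz := h.par.hz
  have hz40 : z ^ 40 ≤ 1 / 10 ^ 5 := by
    refine (h.par.q1 39).trans ?_
    unfold qq; norm_num
  have hz16 : z ^ 16 ≤ 1 / 10 ^ 5 := by
    refine (h.par.q1 15).trans ?_
    unfold qq; norm_num
  have hz16' := pow_pos hz 16
  have hqq := qq_pos
  have hout : ∀ s ∈ Ioo 0 t, 0 ≤ out g (z ^ 16) x n s ∧ out g (z ^ 16) x n s ≤ 11 / 1000 := by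
    intro s hs
    have h1 := (hb s hs).al
    have h2 := (hb s hs).au
    have h3 := (hb s hs).bl
    have h4 := (hb s hs).bu
    unfold out FF
    rw [h.g0, one_mul]
    have h5 : 0 < x (n + 1) s := by nlinarith
    constructor
    · positivity
    · have h6 : z ^ 16 * x n s + x (n + 1) s ≤ 11 / 100 := by nlinarith
      nlinarith
  constructor
  · have key := mono_of (f := fun s => x n s + 1 / 60 * s) (a := 0) (b := t)
      (((h.flow.cont n).mono hsub).add (by fun_prop)) (fun s hs => ?_) t ⟨ht.1, le_rfl⟩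
    · simp only [mul_zero, add_zero, h.x0] at key
      linarith [ht.2]
    · obtain ⟨e, he, hd⟩ := h.flow.ode n s ⟨hs.1, hs.2.trans_le ht.2⟩
      have he' := he.trans (h.ηl n (by omega))
      have h2 : HasDerivAt (fun s : ℝ => 1 / 60 * s) (1 / 60) s := by
        simpa using (hasDerivAt_id' s).const_mul (1 / 60 : ℝ)
      refine ⟨_, hd.add h2, ?_⟩
      have h1 := (abs_le.1 (h.inn_abs (hb s hs) le_rfl)).1
      have h3 := (abs_le.1 he').1
      have h4 := (hout s hs).2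
      have h5 : d n * x n s ≤ 1 / 1000 * (11 / 10) :=
        mul_le_mul h.d0 (hb s hs).au (by linarith [(hb s hs).al]) (by norm_num)
      linarith
  · have := lin_le (f0 := 1) (c0 := 3 / 10 ^ 5) (M := 0) ((h.flow.cont n).mono hsub) h.x0.le le_rfl
      zero_le_one (by norm_num) (fun s hs hpos => ?_) t ⟨ht.1, le_rfl⟩
    · linarith [ht.2]
    · obtain ⟨e, he, hd⟩ := h.flow.ode n s ⟨hs.1, hs.2.trans_le ht.2⟩
      have he' := he.trans (h.ηl n (by omega))
      refine ⟨_, hd, ?_⟩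
      have h1 := (abs_le.1 (h.inn_abs (hb s hs) le_rfl)).2
      have h3 := (abs_le.1 he').2
      have h4 := (hout s hs).1
      have h5 : 0 ≤ d n * x n s := mul_nonneg (h.dpos n) hpos.le
      linarith

/-- The mode `n+3`: the error terms. -/
theorem StageIn.err3 (h : StageIn Λ z n g d η ρ x) {s : ℝ} (hb : Bd z n ρ x s) {e : ℝ}
    (he : |e| ≤ η (n + 3)) : |e - out g (z ^ 16) x (n + 3) s| ≤ z ^ 39 := by
  have hP := h.par
  have hz := hP.hz
  have hΛ := hP.hΛ0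
  have he' := he.trans (h.ηl (n + 3) le_rfl)
  have h3 : |x (n + 3) s| ≤ z ^ 10 := by
    have := hb.f 0
    rw [YY_zero] at this
    refine this.trans ?_
    have : 0 < z ^ 10 := pow_pos hz 10
    have : qq ≤ 1 := by unfold qq; norm_num
    nlinarith
  have h4 : |x (n + 4) s| ≤ z ^ 24 := by
    have h1 := hb.f 1
    have e : n + 3 + 1 = n + 4 := rfl
    rw [e] at h1
    refine h1.trans ?_
    unfold YY
    simp only [one_ne_zero, if_false, pow_one]
    have h2 := h.ρd (n + 3)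
    have e2 : n + 3 + 1 = n + 4 := rfl
    rw [e2] at h2 ⊢
    have h3 := h.ρ3
    have h5 : z ^ 40 ≤ z ^ 25 := hP.zpow_le (by norm_num)
    have h6 := hP.zpow_succ 24
    have h7 : 0 < z ^ 24 := pow_pos hz 24
    have h8 := h.ρp (n + 3)
    have : qq ≤ 1 := by unfold qq; norm_num
    nlinarith
  have h5 : |out g (z ^ 16) x (n + 3) s| ≤ z ^ 40 := by
    unfold out FF
    rw [abs_mul, abs_mul, h.gj, abs_of_pos (pow_pos hΛ 3)]
    have h6 : |z ^ 16 * x (n + 3) s + x (n + 3 + 1) s| ≤ 2 * z ^ 24 := by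
      calc |z ^ 16 * x (n + 3) s + x (n + 3 + 1) s| ≤ |z ^ 16 * x (n + 3) s| + |x (n + 3 + 1) s| :=
            abs_add_le _ _
        _ ≤ z ^ 16 * z ^ 10 + z ^ 24 := by
          rw [abs_mul, abs_of_pos (pow_pos hz 16)]
          gcongr
        _ = z ^ 26 + z ^ 24 := by ring
        _ ≤ z ^ 24 + z ^ 24 := by gcongr ?_ + _; exact hP.zpow_le (by norm_num)
        _ = 2 * z ^ 24 := by ring
    calc Λ ^ 3 * |z ^ 16 * x (n + 3) s + x (n + 3 + 1) s| * |x (n + 3 + 1) s|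
        ≤ Λ ^ 3 * (2 * z ^ 24) * z ^ 24 := by gcongr
      _ = 2 * (z ^ 47 * (z * Λ ^ 3)) := by ring
      _ ≤ 2 * (z ^ 47 * (1 / 10 ^ 30)) := by gcongr; exact hP.zΛ (by norm_num)
      _ ≤ 1 * (z ^ 47) := by
        have : 0 < z ^ 47 := pow_pos hz 47
        nlinarith
      _ ≤ z ^ 40 := by rw [one_mul]; exact hP.zpow_le (by norm_num)
  have h6 := hP.zpow_succ 39
  have h7 : 0 < z ^ 39 := pow_pos hz 39
  calc |e - out g (z ^ 16) x (n + 3) s| ≤ |e| + |out g (z ^ 16) x (n + 3) s| := abs_sub _ _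
    _ ≤ z ^ 40 + z ^ 40 := by linarith
    _ ≤ z ^ 39 := by nlinarith

theorem StageIn.x3_init (h : StageIn Λ z n g d η ρ x) : |x (n + 3) 0| ≤ 2 * z ^ 24 := by
  have hP := h.par
  have h1 := h.xi 0
  simp only [mul_zero, add_zero, zero_add, pow_one] at h1
  have h3 := h.ρ3
  have h5 : z ^ 40 ≤ z ^ 25 := hP.zpow_le (by norm_num)
  have h6 := hP.zpow_succ 24
  have h7 : 0 < z ^ 24 := pow_pos hP.hz 24
  linarith

/-- The mode `n+3`. -/
theorem StageIn.f0_bd (h : StageIn Λ z n g d η ρ x) {t : ℝ} (ht : t ∈ Icc 0 5)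
    (hb : ∀ s ∈ Icc 0 t, Bd z n ρ x s) (hq : ∀ s ∈ Icc 0 t, x (n + 2) s ≤ qq * x (n + 1) s) :
    -z ^ 18 < x (n + 3) t ∧ x (n + 3) t < z ^ 10 * qq / 4 := by
  have hsub : Icc 0 t ⊆ Icc 0 5 := Icc_subset_Icc le_rfl ht.2
  have hP := h.par
  have hz := hP.hz
  have hΛ := hP.hΛ0
  have hqq := qq_pos
  have hPl := h.P_le ht hb hq
  have hx3 := abs_le.1 h.x3_init
  have hPc : ContinuousOn (PI Λ (x (n + 2))) (Icc 0 t) :=
    (PI_cont (by norm_num) (h.flow.cont (n + 2))).mono hsub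
  have hPd : ∀ s ∈ Ioo 0 t, HasDerivAt (PI Λ (x (n + 2))) (Λ * max (x (n + 2) s) 0) s := fun s hs =>
    PI_deriv (h.flow.cont (n + 2)) ⟨hs.1, hs.2.trans_le ht.2⟩
  have hP' : ∀ s ∈ Ioo 0 t, 0 ≤ Λ * max (x (n + 2) s) 0 := fun s _ =>
    mul_nonneg hΛ.le (le_max_right _ _)
  have hP0 : ∀ s ∈ Icc 0 t, 0 ≤ PI Λ (x (n + 2)) s := fun s hs => PI_nonneg hΛ hs.1
  have hinn : ∀ s, inn g (z ^ 16) x (n + 3) s
      = Λ ^ 2 * (z ^ 16 * x (n + 2) s + x (n + 3) s) * x (n + 2) s := by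
    intro s
    show FF g (z ^ 16) x (n + 2) s * x (n + 2) s = _
    unfold FF
    rw [h.gj]
  have hz24 := pow_pos hz 24
  have hz38 := pow_pos hz 38
  have hz39 := pow_pos hz 39
  have hz16 := pow_pos hz 16
  constructor
  · have key := growth_le (f := fun s => -x (n + 3) s) (P := PI Λ (x (n + 2)))
      (P' := fun s => Λ * max (x (n + 2) s) 0) (a := 0) (b := t) (f0 := 2 * z ^ 24) (c0 := z ^ 39) (c1 := 0)
      (r := Λ) (M := 0) ((h.flow.cont (n + 3)).mono hsub).neg hPc hPd hP' hP0 (by linarith [hx3.1]) le_rfl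
      (by positivity) (by positivity) le_rfl hΛ.le (fun s hs hpos => ?_) t ⟨ht.1, le_rfl⟩
    · have h1 : 2 * z ^ 24 + z ^ 39 * (t - 0) + 0 * PI Λ (x (n + 2)) t ≤ z ^ 23 := by
        have h2 : z ^ 39 ≤ z ^ 24 := hP.zpow_le (by norm_num)
        have h3 := hP.zpow_succ 23
        have h4 := pow_pos hz 23
        have h5 : z ^ 39 * (t - 0) ≤ z ^ 24 * 5 := by
          have := ht.1; have := ht.2
          have : 0 ≤ t - 0 := by linarith
          gcongr
          linarith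
        rw [zero_mul]
        linarith
      have h2 : (2 * z ^ 24 + z ^ 39 * (t - 0) + 0 * PI Λ (x (n + 2)) t) * Real.exp (Λ * PI Λ (x (n + 2)) t)
          ≤ z ^ (18 + 5) * Real.exp (Λ * PI Λ (x (n + 2)) t) := by
        refine mul_le_mul_of_nonneg_right (h1.trans (le_of_eq (by norm_num))) (Real.exp_pos _).le
      have h3 := hP.exp_le hPl 18
      have h4 : -x (n + 3) t ≤ z ^ 18 := (key.trans h2).trans h3
      -- strictness
      have h5 : (2 * z ^ 24 + z ^ 39 * (t - 0) + 0 * PI Λ (x (n + 2)) t) < z ^ (18 + 5) := by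
        have h2 : z ^ 39 ≤ z ^ 24 := hP.zpow_le (by norm_num)
        have h3 := hP.zpow_succ 23
        have h4 := pow_pos hz 23
        have h5 : z ^ 39 * (t - 0) ≤ z ^ 24 * 5 := by
          have := ht.1; have := ht.2
          have : 0 ≤ t - 0 := by linarith
          gcongr
          linarith
        have e : z ^ (18 + 5) = z ^ 23 := by norm_num
        rw [zero_mul, e]
        linarith
      have h6 := mul_lt_mul_of_pos_right h5 (Real.exp_pos (Λ * PI Λ (x (n + 2)) t))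
      linarith
    · obtain ⟨e, he, hd⟩ := h.flow.ode (n + 3) s ⟨hs.1, hs.2.trans_le ht.2⟩
      have hE := abs_le.1 (h.err3 (hb s ⟨hs.1.le, hs.2.le⟩) he)
      refine ⟨_, hd.neg, ?_⟩
      rw [hinn]
      have h4 : 0 ≤ d (n + 3) * -x (n + 3) s := mul_nonneg (h.dpos _) hpos.le
      have h5 : Λ ^ 2 * (z ^ 16 * x (n + 2) s + x (n + 3) s) * x (n + 2) s
          ≥ -(Λ * (Λ * max (x (n + 2) s) 0) * -x (n + 3) s) := by
        have h6 : x (n + 3) s * x (n + 2) s ≥ -(max (x (n + 2) s) 0 * -x (n + 3) s) := by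
          have h7 := le_max_left (x (n + 2) s) 0
          nlinarith
        have h8 : 0 ≤ z ^ 16 * (x (n + 2) s * x (n + 2) s) := mul_nonneg hz16.le (mul_self_nonneg _)
        have h9 : 0 < Λ ^ 2 := by positivity
        nlinarith
      linarith
  · have key := growth_le (f := x (n + 3)) (P := PI Λ (x (n + 2)))
      (P' := fun s => Λ * max (x (n + 2) s) 0) (a := 0) (b := t) (f0 := 2 * z ^ 24) (c0 := z ^ 38)
      (c1 := Λ * z ^ 16)
      (r := Λ) (M := 0) ((h.flow.cont (n + 3)).mono hsub) hPc hPd hP' hP0 hx3.2 le_rfl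
      (by positivity) (by positivity) (by positivity) hΛ.le (fun s hs hpos => ?_) t ⟨ht.1, le_rfl⟩
    · have h1 : 2 * z ^ 24 + z ^ 38 * (t - 0) + Λ * z ^ 16 * PI Λ (x (n + 2)) t ≤ z ^ (10 + 5) * (1 / 10 ^ 20) := by
        have h2 : z ^ 38 ≤ z ^ 24 := hP.zpow_le (by norm_num)
        have h3 := hP.zpow_succ 15
        have h4 := pow_pos hz 15
        have h5 : z ^ 38 * (t - 0) ≤ z ^ 24 * 5 := by
          have := ht.1; have := ht.2
          have : 0 ≤ t - 0 := by linarith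
          gcongr
          linarith
        have h6 : z ^ 24 ≤ z ^ 16 := hP.zpow_le (by norm_num)
        have h7 : Λ * z ^ 16 ≤ z ^ 15 * (1 / 10 ^ 30) := by
          have := hP.zpow_mul 15 (m := 1) (by norm_num)
          rw [pow_one] at this
          linarith
        have h8 : PI Λ (x (n + 2)) t ≤ 1 := by
          refine hPl.trans ?_
          unfold qq; norm_num
        have h9 : Λ * z ^ 16 * PI Λ (x (n + 2)) t ≤ z ^ 15 * (1 / 10 ^ 30) * 1 :=
          mul_le_mul h7 h8 (hP0 t ⟨ht.1, le_rfl⟩) (by positivity)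
        have e : z ^ (10 + 5) = z ^ 15 := by norm_num
        rw [e]
        linarith
      have h2 := mul_le_mul_of_nonneg_right h1 (Real.exp_pos (Λ * PI Λ (x (n + 2)) t)).le
      have h3 := hP.exp_le hPl 10
      have h4 : (1 : ℝ) / 10 ^ 20 < qq / 4 := by unfold qq; norm_num
      have h5 := pow_pos hz 10
      have h6 : z ^ (10 + 5) * (1 / 10 ^ 20) * Real.exp (Λ * PI Λ (x (n + 2)) t) ≤ z ^ 10 * (1 / 10 ^ 20) := by
        calc z ^ (10 + 5) * (1 / 10 ^ 20) * Real.exp (Λ * PI Λ (x (n + 2)) t)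
            = z ^ (10 + 5) * Real.exp (Λ * PI Λ (x (n + 2)) t) * (1 / 10 ^ 20) := by ring
          _ ≤ z ^ 10 * (1 / 10 ^ 20) := by gcongr
      have h7 : z ^ 10 * (1 / 10 ^ 20) < z ^ 10 * (qq / 4) := mul_lt_mul_of_pos_left h4 h5
      linarith
    · obtain ⟨e, he, hd⟩ := h.flow.ode (n + 3) s ⟨hs.1, hs.2.trans_le ht.2⟩
      have hsI : s ∈ Icc 0 t := ⟨hs.1.le, hs.2.le⟩
      have hE := abs_le.1 (h.err3 (hb s hsI) he)
      refine ⟨_, hd, ?_⟩
      rw [hinn]
      have h4 : 0 ≤ d (n + 3) * x (n + 3) s := mul_nonneg (h.dpos _) hpos.le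
      have hbu := (hb s hsI).bu
      have hbl := (hb s hsI).bl
      have hc := (hb s hsI).c
      have hqs := hq s hsI
      set x2 := x (n + 2) s
      set x3 := x (n + 3) s
      set W := max x2 0
      have hW1 : x2 ≤ W := le_max_left _ _
      have hW0 : 0 ≤ W := le_max_right _ _
      have h6 : x3 * x2 ≤ W * x3 := by nlinarith
      have h7 : x2 * x2 ≤ W + z ^ 32 := by
        rcases le_or_gt 0 x2 with h | h
        · have h8 : x2 ≤ 1 := by
            have : qq * x (n + 1) s ≤ 1 := by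
              have : qq ≤ 1 := by unfold qq; norm_num
              nlinarith
            linarith
          have := pow_pos hz 32
          nlinarith
        · have h8 : -x2 ≤ z ^ 16 := by
            have : qq ≤ 1 := by unfold qq; norm_num
            nlinarith
          have h9 : x2 * x2 ≤ z ^ 16 * z ^ 16 := by nlinarith
          have h10 : z ^ 16 * z ^ 16 = z ^ 32 := by ring
          linarith
      have h8 : Λ ^ 2 * (z ^ 16 * x2 + x3) * x2 ≤ Λ * (Λ * W) * x3 + Λ ^ 2 * z ^ 16 * (W + z ^ 32) := by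
        have h9 : 0 < Λ ^ 2 := by positivity
        have h10 := mul_le_mul_of_nonneg_left h6 h9.le
        have h11 := mul_le_mul_of_nonneg_left h7 (by positivity : 0 ≤ Λ ^ 2 * z ^ 16)
        nlinarith
      have h9 : Λ ^ 2 * z ^ 48 ≤ z ^ 39 := by
        have h1 := hP.zpow_mul 47 (m := 2) (by norm_num)
        have h2 : z ^ 47 ≤ z ^ 39 := hP.zpow_le (by norm_num)
        nlinarith [pow_pos hz 47]
      have h10 := hP.zpow_succ 38
      have e : Λ ^ 2 * z ^ 16 * (W + z ^ 32) = Λ * z ^ 16 * (Λ * W) + Λ ^ 2 * z ^ 48 := by ring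
      rw [e] at h8
      linarith

end Pool.Agent.N980.CB
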