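import Pool.Agent.N980.CB.Stage3

/-!
One stage of the cascade: the far modes and the conclusion.
-/

open MeasureTheory Set Filter Topology

namespace Pool.Agent.N980.CB

variable {Λ z : ℝ} {n : ℕ} {g d η ρ : ℕ → ℝ} {x : ℕ → ℝ → ℝ}

theorem YY_le (hρ : ∀ k, 0 < ρ k) (j : ℕ) : YY z n ρ j ≤ z ^ (10 + 14 * j) * qq / 2 + 2 * ρ (n + 3 + j) := by
  unfold YY
  have h1 := hρ (n + 3 + j)
  split_ifs
  · linarith
  · have h2 : ((1 : ℝ) / 2) ^ j ≤ 1 := pow_le_one₀ (by norm_num) (by norm_num)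
    nlinarith

theorem Par.small (h : Par Λ z) (i : ℕ) : Λ ^ (4 + i) * z ^ (1 + i) ≤ 1 / 10 ^ 30 * (1 / 2) ^ i := by
  have h1 : Λ ^ (4 + i) * z ^ (1 + i) = (z * Λ ^ 4) * (z * Λ ^ 1) ^ i := by ring
  rw [h1]
  have h2 := h.zΛ (m := 1) (by norm_num)
  have h3 : z * Λ ^ 1 ≤ 1 / 2 := h2.trans (by norm_num)
  have h4 : 0 < z * Λ ^ 1 := mul_pos h.hz (pow_pos h.hΛ0 1)
  have h5 : 0 < z * Λ ^ 4 := mul_pos h.hz (pow_pos h.hΛ0 4)
  gcongr
  exact h.hzΛ

theorem far_ineq {d d' g g' δ f K K2 r r' r'' A B e a b xk s : ℝ} (hg : 0 < g) (hg' : 0 < g') (hδ0 : 0 < δ)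
    (hδ : δ ≤ 1 / 100) (hK : 0 < K) (hK2 : 0 < K2) (hr : 0 < r) (hr' : 0 < r') (hr'' : 0 < r'')
    (hA : A ≤ K + 2 * r') (hB : B ≤ K2 + 2 * r'') (h1 : 64 * g' * r' ≤ d') (h2 : 64 * g * r ≤ d)
    (h3 : d' ≤ d) (h4 : d' * r' ≤ d * r) (h5 : r'' ≤ r / 10 ^ 5) (he : |e| ≤ d * r / 8) (hf : r < f)
    (ha : |a| ≤ A) (hb : |b| ≤ B) (hs : s = 1 ∨ s = -1) (hfs : f = s * xk) :
    s * (-(d * xk) + g' * (δ * a + xk) * a - g * (δ * xk + b) * b + e)
      ≤ (g' * K + g * δ * K2) * f + (2 * g' * δ * K ^ 2 + 2 * g * K2 ^ 2) := by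
  have hd0 : 0 < d := lt_of_lt_of_le (by positivity) h2
  have hs1 : |s| = 1 := by rcases hs with h | h <;> rw [h] <;> norm_num
  have hf0 : 0 < f := hr.trans hf
  have hA0 : 0 ≤ A := (abs_nonneg a).trans ha
  have hB0 : 0 ≤ B := (abs_nonneg b).trans hb
  have e1 : s * (-(d * xk) + g' * (δ * a + xk) * a - g * (δ * xk + b) * b + e)
      = -(d * f) + s * (g' * δ * a ^ 2) + g' * f * a - g * δ * f * b - s * (g * b ^ 2) + s * e := by
    rw [hfs]; ring
  rw [e1]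
  have b1 : s * (g' * δ * a ^ 2) ≤ g' * δ * A ^ 2 := by
    have h6 : |s * (g' * δ * a ^ 2)| ≤ g' * δ * A ^ 2 := by
      rw [abs_mul, hs1, one_mul, abs_of_nonneg (by positivity), ← sq_abs a]
      gcongr
    exact (le_abs_self _).trans h6
  have b2 : g' * f * a ≤ g' * f * A := by
    have := (le_abs_self a).trans ha
    gcongr
  have b3 : -(g * δ * f * b) ≤ g * δ * f * B := by
    have h6 := (neg_abs_le b)
    have h7 : -b ≤ B := by linarith
    have h8 : 0 < g * δ * f := by positivity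
    nlinarith
  have b4 : -(s * (g * b ^ 2)) ≤ g * B ^ 2 := by
    have h6 : |s * (g * b ^ 2)| ≤ g * B ^ 2 := by
      rw [abs_mul, hs1, one_mul, abs_of_nonneg (by positivity), ← sq_abs b]
      gcongr
    linarith [neg_abs_le (s * (g * b ^ 2))]
  have b5 : s * e ≤ d * r / 8 := by
    have h6 : |s * e| ≤ d * r / 8 := by rw [abs_mul, hs1, one_mul]; exact he
    exact (le_abs_self _).trans h6
  have c1 : A ^ 2 ≤ 2 * K ^ 2 + 8 * r' ^ 2 := by
    have : A ^ 2 ≤ (K + 2 * r') ^ 2 := pow_le_pow_left₀ hA0 hA 2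
    nlinarith [sq_nonneg (K - 2 * r')]
  have c2 : B ^ 2 ≤ 2 * K2 ^ 2 + 8 * r'' ^ 2 := by
    have : B ^ 2 ≤ (K2 + 2 * r'') ^ 2 := pow_le_pow_left₀ hB0 hB 2
    nlinarith [sq_nonneg (K2 - 2 * r'')]
  have d1 : g' * δ * A ^ 2 ≤ 2 * g' * δ * K ^ 2 + d * r / 100 := by
    have h6 : g' * δ * A ^ 2 ≤ g' * δ * (2 * K ^ 2 + 8 * r' ^ 2) := by gcongr
    have h7 : g' * δ * (8 * r' ^ 2) ≤ d * r / 100 := by
      have h8 : g' * δ * (8 * r' ^ 2) = (64 * g' * r') * (δ * r' / 8) := by ring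
      rw [h8]
      have h9 : (64 * g' * r') * (δ * r' / 8) ≤ d' * (δ * r' / 8) := by gcongr
      have h10 : d' * (δ * r' / 8) = (d' * r') * (δ / 8) := by ring
      have h11 : (d' * r') * (δ / 8) ≤ (d * r) * (δ / 8) := by gcongr
      have h12 : 0 < d * r := by positivity
      nlinarith
    nlinarith
  have d2 : g' * f * A ≤ g' * K * f + d * f / 32 := by
    have h6 : g' * f * A ≤ g' * f * (K + 2 * r') := by gcongr
    have h7 : g' * f * (2 * r') = (64 * g' * r') * (f / 32) := by ring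
    have h8 : (64 * g' * r') * (f / 32) ≤ d * (f / 32) := by
      have := h1.trans h3
      gcongr
    nlinarith
  have d3 : g * δ * f * B ≤ g * δ * K2 * f + d * f / 32 := by
    have h6 : g * δ * f * B ≤ g * δ * f * (K2 + 2 * r'') := by gcongr
    have h7 : g * δ * f * (2 * r'') ≤ d * f / 32 := by
      have h8 : r'' ≤ r := h5.trans (by linarith)
      have h9 : g * δ * f * (2 * r'') ≤ g * 1 * f * (2 * r) := by gcongr; linarith
      have h10 : g * 1 * f * (2 * r) = (64 * g * r) * (f / 32) := by ring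
      have h11 : (64 * g * r) * (f / 32) ≤ d * (f / 32) := by gcongr
      linarith
    nlinarith
  have d4 : g * B ^ 2 ≤ 2 * g * K2 ^ 2 + d * r / 100 := by
    have h6 : g * B ^ 2 ≤ g * (2 * K2 ^ 2 + 8 * r'' ^ 2) := by gcongr
    have h7 : g * (8 * r'' ^ 2) ≤ d * r / 100 := by
      have h8 : r'' ^ 2 ≤ (r / 10 ^ 5) ^ 2 := pow_le_pow_left₀ hr''.le h5 2
      have h9 : g * (8 * r'' ^ 2) ≤ g * (8 * (r / 10 ^ 5) ^ 2) := by gcongr
      have h10 : g * (8 * (r / 10 ^ 5) ^ 2) = (64 * g * r) * (r / (8 * 10 ^ 10)) := by ring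
      have h11 : (64 * g * r) * (r / (8 * 10 ^ 10)) ≤ d * (r / (8 * 10 ^ 10)) := by gcongr
      have h12 : 0 < d * r := by positivity
      have h13 : d * (r / (8 * 10 ^ 10)) ≤ d * r / 100 := by
        rw [← mul_div_assoc]
        gcongr
        norm_num
      linarith
    nlinarith
  have h6 : d * r ≤ d * f := by gcongr
  nlinarith

/-- The far modes. -/
theorem StageIn.fj_bd (h : StageIn Λ z n g d η ρ x) {t : ℝ} (ht : t ∈ Icc 0 5)
    (hb : ∀ s ∈ Ioo 0 t, Bd z n ρ x s) (i : ℕ) : |x (n + 3 + (i + 1)) t| < YY z n ρ (i + 1) := by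
  have hsub : Icc 0 t ⊆ Icc 0 5 := Icc_subset_Icc le_rfl ht.2
  have hP := h.par
  have hz := hP.hz
  have hΛ := hP.hΛ0
  have hΛ1 := hP.hΛ1
  have hqq := qq_pos
  have hq1 : qq ≤ 1 := by unfold qq; norm_num
  set k := n + 3 + (i + 1) with hk
  set K := z ^ (10 + 14 * i) * qq / 2 with hK
  set K2 := z ^ (10 + 14 * (i + 2)) * qq / 2 with hK2
  set u := Λ ^ (4 + i) * z ^ (1 + i) with hu
  have hu0 : 0 < u := by positivity
  have hus := hP.small i
  rw [← hu] at hus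
  set H := g (n + 3 + i) * K + g k * z ^ 16 * K2 with hH
  set F := 2 * g (n + 3 + i) * z ^ 16 * K ^ 2 + 2 * g k * K2 ^ 2 with hF
  have hg' : g (n + 3 + i) = Λ ^ (3 + i) := by rw [add_assoc, h.gj]
  have hg : g k = Λ ^ (4 + i) := by
    have : k = n + (4 + i) := by omega
    rw [this, h.gj]
  have hK0 : 0 < K := by positivity
  have hK20 : 0 < K2 := by positivity
  have hρ := h.ρp k
  have hHu : H ≤ u := by
    have h1 : g (n + 3 + i) * K ≤ u / 2 := by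
      rw [hg', hK, hu]
      have h2 : Λ ^ (3 + i) ≤ Λ ^ (4 + i) := pow_le_pow_right₀ hΛ1 (by omega)
      have h3 : z ^ (10 + 14 * i) ≤ z ^ (1 + i) := hP.zpow_le (by omega)
      calc Λ ^ (3 + i) * (z ^ (10 + 14 * i) * qq / 2) ≤ Λ ^ (4 + i) * (z ^ (1 + i) * 1 / 2) := by gcongr
        _ = Λ ^ (4 + i) * z ^ (1 + i) / 2 := by ring
    have h2 : g k * z ^ 16 * K2 ≤ u / 2 := by
      rw [hg, hK2, hu]
      have h3 : z ^ (10 + 14 * (i + 2)) ≤ z ^ (1 + i) := hP.zpow_le (by omega)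
      have h4 := h.z16
      calc Λ ^ (4 + i) * z ^ 16 * (z ^ (10 + 14 * (i + 2)) * qq / 2)
          ≤ Λ ^ (4 + i) * 1 * (z ^ (1 + i) * 1 / 2) := by gcongr
        _ = Λ ^ (4 + i) * z ^ (1 + i) / 2 := by ring
    linarith
  have hFu : F ≤ u * z ^ (24 + 14 * i) := by
    have h1 : 2 * g (n + 3 + i) * z ^ 16 * K ^ 2 ≤ u * z ^ (24 + 14 * i) / 2 := by
      rw [hg', hK, hu]
      have h2 : Λ ^ (3 + i) ≤ Λ ^ (4 + i) := pow_le_pow_right₀ hΛ1 (by omega)
      have e : 2 * Λ ^ (3 + i) * z ^ 16 * (z ^ (10 + 14 * i) * qq / 2) ^ 2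
          = Λ ^ (3 + i) * z ^ (36 + 28 * i) * qq ^ 2 / 2 := by ring
      rw [e]
      have h3 : z ^ (36 + 28 * i) ≤ z ^ (25 + 15 * i) := hP.zpow_le (by omega)
      have h4 : qq ^ 2 ≤ 1 := pow_le_one₀ hqq.le hq1
      calc Λ ^ (3 + i) * z ^ (36 + 28 * i) * qq ^ 2 / 2 ≤ Λ ^ (4 + i) * z ^ (25 + 15 * i) * 1 / 2 := by gcongr
        _ = Λ ^ (4 + i) * z ^ (1 + i) * z ^ (24 + 14 * i) / 2 := by ring
    have h2 : 2 * g k * K2 ^ 2 ≤ u * z ^ (24 + 14 * i) / 2 := by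
      rw [hg, hK2, hu]
      have e : 2 * Λ ^ (4 + i) * (z ^ (10 + 14 * (i + 2)) * qq / 2) ^ 2
          = Λ ^ (4 + i) * z ^ (76 + 28 * i) * qq ^ 2 / 2 := by ring
      rw [e]
      have h3 : z ^ (76 + 28 * i) ≤ z ^ (25 + 15 * i) := hP.zpow_le (by omega)
      have h4 : qq ^ 2 ≤ 1 := pow_le_one₀ hqq.le hq1
      calc Λ ^ (4 + i) * z ^ (76 + 28 * i) * qq ^ 2 / 2 ≤ Λ ^ (4 + i) * z ^ (25 + 15 * i) * 1 / 2 := by gcongr
        _ = Λ ^ (4 + i) * z ^ (1 + i) * z ^ (24 + 14 * i) / 2 := by ring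
    linarith
  have hH0 : 0 ≤ H := by
    have := h.gpos (n + 3 + i); have := h.gpos k
    positivity
  have hF0 : 0 ≤ F := by
    have := h.gpos (n + 3 + i); have := h.gpos k
    positivity
  set f0 := z ^ (24 + 14 * (i + 1)) + (1 + (1 / 2) ^ (i + 1 + 1)) * ρ k with hf0
  have hinit : |x k 0| ≤ f0 := h.xi (i + 1)
  have hρf0 : ρ k ≤ f0 := by
    have h1 : 0 < ((1 : ℝ) / 2) ^ (i + 1 + 1) := by positivity
    have h2 : 0 < z ^ (24 + 14 * (i + 1)) := pow_pos hz _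
    rw [hf0]; nlinarith
  have hderiv : ∀ s ∈ Ioo 0 t, ∀ σ : ℝ, (σ = 1 ∨ σ = -1) → ρ k < σ * x k s →
      ∃ f', HasDerivAt (fun s => σ * x k s) f' s ∧ f' ≤ H * (σ * x k s) + F := by
    intro s hs σ hσ hpos
    obtain ⟨e, he, hd⟩ := h.flow.ode k s ⟨hs.1, hs.2.trans_le ht.2⟩
    refine ⟨_, hd.const_mul σ, ?_⟩
    have hbs := hb s hs
    have e1 : inn g (z ^ 16) x k s
        = g (n + 3 + i) * (z ^ 16 * x (n + 3 + i) s + x k s) * x (n + 3 + i) s := rfl
    have e2 : out g (z ^ 16) x k s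
        = g k * (z ^ 16 * x k s + x (n + 3 + (i + 2)) s) * x (n + 3 + (i + 2)) s := rfl
    rw [e1, e2]
    refine far_ineq (h.gpos k) (h.gpos _) (pow_pos hz 16) ?_ hK0 hK20 hρ (h.ρp (n + 3 + i))
      (h.ρp (n + 3 + (i + 2))) (YY_le h.ρp i) (YY_le h.ρp (i + 2)) (h.far2 _ (by omega))
      (h.far2 k (by omega)) (h.dmono _) (h.far3 _) (h.ρd k) (he.trans (h.far1 k (by omega))) hpos
      (hbs.f i) (hbs.f (i + 2)) hσ rfl
    refine (hP.q1 15).trans ?_
    unfold qq; norm_num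
  have hup : ∀ σ : ℝ, (σ = 1 ∨ σ = -1) → σ * x k t ≤ (f0 + F * (t - 0)) * Real.exp (H * (t - 0)) := by
    intro σ hσ
    refine growth_le' (f := fun s => σ * x k s) (M := ρ k) (continuousOn_const.mul ((h.flow.cont k).mono hsub))
      ?_ hρ.le hρf0 hF0 hH0 (fun s hs hpos => hderiv s hs σ hσ hpos) t ⟨ht.1, le_rfl⟩
    have h1 := abs_le.1 hinit
    rcases hσ with h | h
    · rw [h]; linarith [h1.2]
    · rw [h]; linarith [h1.1]
  have hfin : (f0 + F * (t - 0)) * Real.exp (H * (t - 0)) < YY z n ρ (i + 1) := by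
    have h1 : Real.exp (H * (t - 0)) ≤ 1 + 10 * u := by
      have h2 : Real.exp (H * (t - 0)) ≤ Real.exp (5 * u) := by
        refine Real.exp_le_exp.2 ?_
        have := ht.1; have := ht.2
        nlinarith
      have hu1 : 5 * u ≤ 1 := by
        have h3 : ((1 : ℝ) / 2) ^ i ≤ 1 := pow_le_one₀ (by norm_num) (by norm_num)
        nlinarith
      have h3 := Real.abs_exp_sub_one_le (x := 5 * u) (by rw [abs_of_pos (by positivity)]; exact hu1)
      rw [abs_of_pos (by positivity : (0:ℝ) < 5 * u)] at h3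
      have := (abs_le.1 h3).2
      linarith
    have h2 : f0 + F * (t - 0) ≤ f0 + 5 * (u * z ^ (24 + 14 * i)) := by
      have := ht.1; have := ht.2
      have h3 : F * (t - 0) ≤ F * 5 := by gcongr; linarith
      linarith
    set k24 := z ^ (24 + 14 * i) with hk24
    have hk24p : 0 < k24 := pow_pos hz _
    have e1 : z ^ (24 + 14 * (i + 1)) = k24 * z ^ 14 := by rw [hk24]; ring
    have hz14 : z ^ 14 ≤ 1 / 10 ^ 30 := by
      have h3 : z ^ 14 ≤ z ^ 1 := hP.zpow_le (by norm_num)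
      rw [pow_one] at h3
      exact h3.trans hP.z_small
    have e2 : YY z n ρ (i + 1) = k24 * qq / 2 + (1 + (1 / 2) ^ (i + 1)) * ρ k := by
      unfold YY
      rw [if_neg (Nat.succ_ne_zero i)]
      have : 10 + 14 * (i + 1) = 24 + 14 * i := by ring
      rw [this]
    set w := ((1 : ℝ) / 2) ^ i with hw
    have hw0 : 0 < w := by positivity
    have hw1 : w ≤ 1 := pow_le_one₀ (by norm_num) (by norm_num)
    have e3 : ((1 : ℝ) / 2) ^ (i + 1 + 1) = w / 4 := by rw [hw]; ring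
    have e4 : ((1 : ℝ) / 2) ^ (i + 1) = w / 2 := by rw [hw]; ring
    rw [e2, e4]
    have hu2 : u ≤ 1 / 10 ^ 30 := by nlinarith
    calc (f0 + F * (t - 0)) * Real.exp (H * (t - 0))
        ≤ (f0 + 5 * (u * k24)) * (1 + 10 * u) := by
          have : 0 ≤ f0 + 5 * (u * k24) := by
            have := hρ.le.trans hρf0
            positivity
          have h3 := Real.exp_pos (H * (t - 0))
          have h4 : 0 ≤ f0 + F * (t - 0) := by
            have := hρ.le.trans hρf0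
            have : 0 ≤ t - 0 := by linarith [ht.1]
            positivity
          exact mul_le_mul h2 h1 h3.le this
      _ = (k24 * z ^ 14 + 5 * (u * k24)) * (1 + 10 * u) + (1 + w / 4) * (1 + 10 * u) * ρ k := by
          rw [hf0, e1, e3]; ring
      _ ≤ (k24 * (1 / 10 ^ 30) + 5 * ((1 / 10 ^ 30) * k24)) * 2 + (1 + w / 2) * ρ k := by
          have h3 : (1 + w / 4) * (1 + 10 * u) ≤ 1 + w / 2 := by nlinarith
          have h4 : 1 + 10 * u ≤ 2 := by linarith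
          gcongr
      _ < k24 * qq / 2 + (1 + w / 2) * ρ k := by
          have h3 : (12 : ℝ) * (1 / 10 ^ 30) < qq / 2 := by unfold qq; norm_num
          nlinarith
  rw [abs_lt]
  have h1 := hup 1 (Or.inl rfl)
  have h2 := hup (-1) (Or.inr rfl)
  constructor <;> linarith

end Pool.Agent.N980.CB
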