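import Pool.Agent.N980.NU.Stmt

/-!
The Navier-Stokes equations with an additional bilinear term acting on a sparse chain of modes:
definitions.
-/

open MeasureTheory Set
open scoped ContDiff

namespace Pool.Agent.N980.CB

open Pool.Agent.N980.NU (V cube SPV pd dv lap ip fco hs)

/-- The field `√2 cos(2πN x₁) e₃`. -/
noncomputable def cc (N : ℕ) (x : V) : V :=
  ![0, 0, Real.sqrt 2 * Real.cos (2 * Real.pi * (N * x 0))]

/-- The coefficient `∫ u · cc N`. -/
noncomputable def cx (N : ℕ) (u : V → V) : ℝ := ip u (cc N)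

/-- The bilinear operator: for every `n`, the rotation of the plane spanned by `cc (R^n)` and
`cc (R^(n+1))` with the rate `G (R^n)^σ (δ cx (R^n) u + cx (R^(n+1)) u)`, `δ = exp (-R^σ/1250)`. -/
noncomputable def KK (G σ : ℝ) (R : ℕ) (u v : V → V) (x : V) : V :=
  ∑' n : ℕ, (G * ((R : ℝ) ^ n) ^ σ *
      (Real.exp (-((R : ℝ) ^ σ / 1250)) * cx (R ^ n) u + cx (R ^ (n + 1)) u)) •
    (cx (R ^ n) v • cc (R ^ (n + 1)) x - cx (R ^ (n + 1)) v • cc (R ^ n) x)

/-- `(u,p)` is a smooth periodic solution on `[0,T)` of the Navier-Stokes equations with the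
additional term `K(u,u)`. -/
structure SmSol (ν G σ : ℝ) (R : ℕ) (T : ℝ) (u : ℝ → V → V) (p : ℝ → V → ℝ) : Prop where
  smooth_u : ContDiffOn ℝ ∞ (fun z : ℝ × V => u z.1 z.2) (Ico 0 T ×ˢ univ)
  smooth_p : ContDiffOn ℝ ∞ (fun z : ℝ × V => p z.1 z.2) (Ico 0 T ×ˢ univ)
  per_u : ∀ t ∈ Ico 0 T, ∀ x (j : Fin 3), u t (x + Pi.single j 1) = u t x
  per_p : ∀ t ∈ Ico 0 T, ∀ x (j : Fin 3), p t (x + Pi.single j 1) = p t x
  divfree : ∀ t ∈ Ico 0 T, ∀ x, dv (u t) x = 0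
  momentum : ∀ t ∈ Ioo 0 T, ∀ x i,
    deriv (fun s => u s x i) t + ∑ j, u t x j * pd j (fun y => u t y i) x
      = ν * lap (u t) x i - pd i (p t) x + KK G σ R (u t) (u t) x i

end Pool.Agent.N980.CB
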